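import Pool.Agent.TH563.Z.Gx

/-!
# Hubs of weight zero: asymptotic expansions at the children with a circle
-/

set_option autoImplicit false
set_option maxHeartbeats 1000000

namespace Pool.Agent.TH563.Z

open Finset Filter Topology Metric
open Pool.Agent.W711.HT hiding XX
open Pool.Agent.TH563.UV
open Pool.Agent.W719.AX (UX GX Rl ig S_LOCX)
open Pool.Agent.W85.HT hiding Rc_mono
open Pool.Agent.W293.HT
open Pool.Agent.W688.AX (isOpen_Rcx cont2 unif_neg sq3_ev sqrt4 nbhd)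
open Pool.Agent.TH929.J29 (UN_diff locb locxb even_deriv_zero)
open scoped Real

section

variable {ρ₀ τ₀ κ₀ c₀ ε₀ : ℝ} {s dl : ℂ → ℂ → ℂ} {η ε ρ τ ρ' τ' κ c' : ℝ} {s' dl' : ℂ → ℂ → ℂ}
  {t m : ℕ} {X : ℕ → ℂ → ℂ} {F : ℂ → ℂ} {A : ℕ → ℂ → ℂ} {ρ₂ τ₂ ρ₃ τ₃ : ℝ} {Ak : ℕ → ℂ × ℂ → ℂ}

/-- expansions at a child with a circle -/
theorem gxT (hK : KD ρ₀ τ₀ κ₀ c₀ s dl) (hε₁ : ε₀ ≤ 1) (hε₂ : ε₀ ≤ c₀ * τ₀ ^ 2 / 16)
    (hX : GoodU ρ₀ τ₀ κ₀ ε₀ s t X F) (hA : GX ρ₂ τ₂ m X F A)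
    (hB : XB X (F 0).re) (hZ : KDZ η ε ρ τ ρ' τ' κ c' s' dl') {C'' : ℝ}
    (hE : EZ η ρ τ ρ' τ' c' C'' s') (hρρ : 3 * ρ ≤ ρ₀) (hττ : 3 * τ ≤ τ₀)
    (hAk : KXZ η ε ρ₂ τ₂ ρ₃ τ₃ s' Ak) (hρ₂ : ρ₂ ≤ ρ) (hτ₂ : τ₂ ≤ τ) (hρ₃ : ρ₃ ≤ ρ')
    (hτ₃ : τ₃ ≤ τ') {a : ℤ} :
    ∃ A' : ℕ → ℂ → ℂ, GXZ η ρ₃ τ₃ (m + 1) (stL ε a (fun N ψ => UN N ψ * X N ψ))
      (fun φ => F 0 + π * Complex.I + s' 0 φ) A' := by
  have hρ0 := hZ.hρ.1
  have hρ1 := hZ.hρ.2
  have hτ0 := hZ.hτ.1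
  have hτρ := hZ.hτ.2
  have hρ'0 := hZ.hρ'.1
  have hτ'0 := hZ.hτ'.1
  have hκ := hZ.hκ.1
  have hc := hE.hc
  have hπ := Real.pi_gt_three
  have hρ20 := hAk.hρ
  have hτ20 := hAk.hτ
  have hρ30 := hAk.hρ'
  have hτ30 := hAk.hτ'
  have hUc := isOpen_Rc (3 * ρ) (3 * τ)
  have h0c : (0 : ℂ) ∈ Rc (3 * ρ) (3 * τ) := zero_mem_Rc (by linarith) (by linarith)
  have hKK : Kz η (2 * ρ') (2 * τ') ⊆ Rz η (3 * ρ') (3 * τ') := by
    intro w hw
    rw [Kz_mem] at hw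
    exact ⟨by linarith [hw.1], by linarith [hw.2]⟩
  have hRK : Rz η ρ₃ τ₃ ⊆ Kz η (2 * ρ') (2 * τ') := by
    intro w hw
    rw [Kz_mem]
    exact ⟨by linarith [hw.1], by linarith [hw.2]⟩
  have hRr : Rz η ρ₃ τ₃ ⊆ Rz η (3 * ρ') (3 * τ') := hRK.trans hKK
  have hR2 : Rc ρ₂ τ₂ ⊆ Rc (3 * ρ) (3 * τ) := Rc_mono (by linarith) (by linarith)
  have hR20 : Rc ρ₂ τ₂ ⊆ Rc (3 * ρ₀) (3 * τ₀) := Rc_mono (by linarith) (by linarith)
  have hsd : ∀ p ∈ Rz η (3 * ρ') (3 * τ'),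
      DifferentiableOn ℂ (fun w => s' w p) (Rc (3 * ρ) (3 * τ)) := fun p hp => s_diffZ hE.san hp
  have hre : ∀ φ : ℂ, (F 0 + π * Complex.I + s' 0 φ).re = (F 0 + s' 0 φ).re := by
    intro φ
    rw [Complex.add_re, Complex.add_re, Complex.add_re]
    simp
  obtain ⟨L, hL, hgh⟩ := ghz1 hK hε₁ hε₂ hE hρρ hττ hX.Fan hX.Fev hX.Fcl
  have hdec : ∀ p ∈ Kz η (2 * ρ') (2 * τ'), ∀ x : ℝ, |x| ≤ ρ →
      (F x + s' x p).re ≤ (F 0 + s' 0 p).re - c' / 2 * x ^ 2 := fun p hp x hx =>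
    real_axis (hgh p (hKK hp)) hτ0 hρ0 x hx
  obtain ⟨κ₁, hκ₁, hloc⟩ := locb upb (a := a) (K := Kz η (2 * ρ') (2 * τ'))
    (Y := fun N w p => X N w * kerL ε N w p) (G := fun w p => F w + s' w p)
    (c₀ := c' / 2) (L := L) (τ₁ := τ) hρ0 (by linarith) hτ0 hτ0
    (fun N p _ => (hX.an N).mul (kerL_diff ε N p)) (mw_prod hX hZ hρρ hττ) (by positivity) hL
    hdec
    (fun p hp x y hx hy hy' => gh_up (hgh p (hKK hp)) hρ0 hτ0 hL hx hy hy')
    ⟨3 / 4 * κ, by positivity, by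
      filter_upwards [far_prod hB hZ] with N h1 p hp x y hx1 hx2 hy
      rw [Complex.add_re]
      exact h1 p hp x y hx1 hx2 hy⟩
  have hF'd : DifferentiableOn ℂ (fun φ => F 0 + π * Complex.I + s' 0 φ)
      (Rz η (3 * ρ') (3 * τ')) := (s_diff2Z hE.san h0c).const_add _
  obtain ⟨BF, hBF⟩ := (Kc_compact ρ₂ τ₂).exists_bound_of_continuousOn
    (hX.Fan.continuousOn.mono (show Kc ρ₂ τ₂ ⊆ Rc (3 * ρ₀) (3 * τ₀) from by
      intro w hw
      rw [Kc_mem] at hw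
      exact ⟨by linarith [hw.1], by linarith [hw.2]⟩))
  have hSKc : Rc ρ₂ τ₂ ⊆ Kc ρ₂ τ₂ := by
    intro w hw
    rw [Kc_mem]
    exact ⟨hw.1.le, hw.2.le⟩
  have hball : ∀ u ∈ ball (0 : ℂ) (min ρ₂ τ₂), u ∈ Rc ρ₂ τ₂ := by
    intro u hu
    rw [mem_ball, dist_zero_right] at hu
    have h1 := Complex.abs_re_le_norm u
    have h2 := Complex.abs_im_le_norm u
    have h3 := min_le_left ρ₂ τ₂
    have h4 := min_le_right ρ₂ τ₂
    exact ⟨by linarith, by linarith⟩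
  obtain ⟨B, hB', hB0⟩ := locxb Pool.Agent.W719.AX.f_LX Pool.Agent.W303.AX.uxmul
    (δ := min ρ₂ τ₂) (c := c') (a := a)
    (S := Rz η ρ₃ τ₃) (X := X) (F := F) (A := A) (k := fun N w p => kxz ε s' N (w, p)) (k' := Ak)
    (σ := s') (V := fun p => F 0 + s' 0 p)
    (W := fun N p => ((Real.sqrt N : ℝ) : ℂ) ^ 3 * stL ε a (fun N ψ => UN N ψ * X N ψ) N p)
    (lt_min hρ20 hτ20) hc hA hX.an (hX.Fan.mono hR20) hball
    ⟨max BF C'', fun w hw => ⟨(hBF w (hSKc hw)).trans (le_max_left _ _), fun p hp =>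
      (hE.sbd w (hR2 hw) p (hRr hp)).trans (le_max_right _ _)⟩⟩
    (by
      intro N p hp
      have h1 : ContinuousOn (fun w => s' w p) (Rc ρ₂ τ₂) :=
        ((hsd p (hRr hp)).mono hR2).continuousOn
      have h2 : ContinuousOn (fun w => kerL ε N w p) (Rc ρ₂ τ₂) :=
        (kerL_diff ε N p).continuous.continuousOn
      unfold kxz
      exact (continuousOn_const.mul
        (Complex.continuous_exp.comp_continuousOn (continuousOn_const.mul h1).neg)).mul h2)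
    (fun p hp => (hsd p (hRr hp)).mono hR2) hAk.ux (fun n p hp => hAk.d1 n p hp) hAk.nz
    (by
      intro p hp
      have hG := hgh p (hRr hp)
      exact ⟨rfl, hG.d0 hρ0 hτ0, hG.d2 0 (zero_mem_Rc (by linarith) (by linarith))⟩)
    (by
      intro δ' hδ'0 hδ'
      have hδρ : δ' ≤ ρ := by
        have := min_le_left ρ₂ τ₂
        linarith
      obtain ⟨κ₂, hκ₂, hout⟩ := Pool.Agent.TH929.J29.outer (a := a) (K := Kz η (2 * ρ') (2 * τ'))
        (Y := fun N w p => X N w * kerL ε N w p) (G := fun w p => F w + s' w p)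
        (c₀ := c' / 2) hρ0 (by linarith) hτ0 hδ'0 hδρ
        (fun N p _ => (hX.an N).mul (kerL_diff ε N p)) (mw_prod hX hZ hρρ hττ) (by positivity)
        hdec
      refine ⟨min κ₁ κ₂ / 2, by have := lt_min hκ₁ hκ₂; positivity, ?_⟩
      filter_upwards [hloc, hout, sq3_ev (κ := min κ₁ κ₂ / 4)
        (by have := lt_min hκ₁ hκ₂; positivity), ev_exp (show 0 < min κ₁ κ₂ / 4 by
          have := lt_min hκ₁ hκ₂; positivity) 2] with N h1 h2 h3 h4 p hp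
      have hN' : (0 : ℝ) ≤ N := Nat.cast_nonneg N
      have k1 := h1 p (hRK hp)
      have k2 := h2 p (hRK hp)
      obtain ⟨V, hV⟩ : ∃ V : ℝ, V = (F 0 + s' 0 p).re := ⟨_, rfl⟩
      rw [← hV] at k1 k2
      have e1 : (∫ x in (-δ')..δ', Ea a N x *
          (X N x * (Complex.exp (N * s' x p) * kxz ε s' N (x, p)))) =
          ((Real.sqrt N : ℝ) : ℂ) ^ 3 * ∫ x in (-δ')..δ', Ea a N x *
            (X N x * kerL ε N x p) := by
        rw [← intervalIntegral.integral_const_mul]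
        congr 1
        funext x
        unfold kxz
        have e2 : Complex.exp (N * s' x p) * Complex.exp (-(N * s' x p)) = 1 := by
          rw [← Complex.exp_add, add_neg_cancel, Complex.exp_zero]
        push_cast
        linear_combination (Ea a N x * X N x * ((Real.sqrt N : ℝ) : ℂ) ^ 3 *
          kerL ε N x p) * e2
      have e0 : stL ε a (fun N ψ => UN N ψ * X N ψ) N p =
          upp (1 / N) fun w => Ea a N w * (UN N w * (X N w * kerL ε N w p)) * kr N w := by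
        rw [stL_eq hZ.hε.2 a (fun N ψ => UN N ψ * X N ψ) (fun N => (UN_diff N).mul (hX.an N))]
        congr 1
        funext w
        ring
      rw [e1, e0]
      obtain ⟨I1, hI1⟩ : ∃ I1 : ℂ, I1 = ∫ x in (-ρ)..ρ, Ea a N x *
        (X N x * kerL ε N x p) := ⟨_, rfl⟩
      obtain ⟨I2, hI2⟩ : ∃ I2 : ℂ, I2 = ∫ x in (-δ')..δ', Ea a N x *
        (X N x * kerL ε N x p) := ⟨_, rfl⟩
      rw [← hI1] at k1 k2
      rw [← hI2] at k2 ⊢
      obtain ⟨T, hT⟩ : ∃ T : ℂ, T = upp (1 / N) fun w => Ea a N w * (UN N w *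
        (X N w * kerL ε N w p)) * kr N w := ⟨_, rfl⟩
      rw [← hT] at k1 ⊢
      have e3 : ((Real.sqrt N : ℝ) : ℂ) ^ 3 * T - (-Complex.I) * (((Real.sqrt N : ℝ) : ℂ) ^ 3 * I2)
          = ((Real.sqrt N : ℝ) : ℂ) ^ 3 * ((T - (-Complex.I) * I1) +
            (-Complex.I) * (I1 - I2)) := by ring
      rw [e3, norm_mul]
      have h5 : ‖((Real.sqrt N : ℝ) : ℂ) ^ 3‖ = (Real.sqrt N) ^ 3 := by
        rw [norm_pow, Complex.norm_real, Real.norm_eq_abs, abs_of_nonneg (Real.sqrt_nonneg _)]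
      rw [h5]
      have k3 : ‖(T - (-Complex.I) * I1) + (-Complex.I) * (I1 - I2)‖ ≤
          Real.exp (min κ₁ κ₂ / 4 * N) * Real.exp (N * (V - min κ₁ κ₂)) := by
        refine (norm_add_le _ _).trans ?_
        rw [norm_mul (-Complex.I), norm_neg, Complex.norm_I, one_mul]
        have a1 : Real.exp (N * (V - κ₁)) ≤ Real.exp (N * (V - min κ₁ κ₂)) :=
          Real.exp_le_exp.2 (mul_le_mul_of_nonneg_left
            (by linarith [min_le_left κ₁ κ₂]) hN')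
        have a2 : Real.exp (N * (V - κ₂)) ≤ Real.exp (N * (V - min κ₁ κ₂)) :=
          Real.exp_le_exp.2 (mul_le_mul_of_nonneg_left
            (by linarith [min_le_right κ₁ κ₂]) hN')
        have a3 := mul_le_mul_of_nonneg_right h4 (Real.exp_pos (N * (V - min κ₁ κ₂))).le
        linarith
      refine (mul_le_mul h3 k3 (norm_nonneg _) (Real.exp_pos _).le).trans ?_
      rw [← Real.exp_add, ← Real.exp_add]
      apply le_of_eq
      congr 1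
      rw [hV]
      ring)
  have hfun : (fun (N : ℕ) (z : ℂ) => (N : ℂ) ^ (2 * (m + 1)) * (-1) ^ (N * (m + 1)) *
      Complex.exp (-(N * (F 0 + π * Complex.I + s' 0 z))) *
        stL ε a (fun N ψ => UN N ψ * X N ψ) N z) =
      (fun (N : ℕ) (p : ℂ) => (N : ℂ) ^ (2 * m) *
      (Real.sqrt N : ℂ) * (-1) ^ (N * m) *
      Complex.exp (-(N * (F 0 + s' 0 p))) * (((Real.sqrt N : ℝ) : ℂ) ^ 3 *
        stL ε a (fun N ψ => UN N ψ * X N ψ) N p)) := by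
    funext N p
    have e := sqrt4 N
    have e3 : (N : ℂ) ^ (2 * (m + 1)) = (N : ℂ) ^ (2 * m) * (N : ℂ) ^ 2 := by ring
    have e4 : Complex.exp (-(N * (F 0 + π * Complex.I + s' 0 p))) =
        Complex.exp (-(N * (F 0 + s' 0 p))) * (-1) ^ N := by
      have e5 : -((N : ℂ) * (F 0 + π * Complex.I + s' 0 p)) =
          -(N * (F 0 + s' 0 p)) + -((N : ℂ) * (π * Complex.I)) := by ring
      rw [e5, Complex.exp_add, Complex.exp_neg (N * (π * Complex.I)), Complex.exp_nat_mul,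
        Complex.exp_pi_mul_I, ← inv_pow]
      norm_num
    have e5 : ((-1 : ℂ)) ^ (N * (m + 1)) * (-1) ^ N = (-1) ^ (N * m) := by
      rw [Nat.mul_add, mul_one, pow_add, mul_assoc, ← pow_add, ← two_mul, pow_mul]
      norm_num
    rw [e3, ← e, e4, ← e5]
    ring
  have hux : UX (fun (N : ℕ) (z : ℂ) => (N : ℂ) ^ (2 * (m + 1)) * (-1) ^ (N * (m + 1)) *
      Complex.exp (-(N * (F 0 + π * Complex.I + s' 0 z))) *
        stL ε a (fun N ψ => UN N ψ * X N ψ) N z) B (Rz η ρ₃ τ₃) := by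
    rw [hfun]
    exact hB'
  refine ⟨B, hux, ?_, hB0⟩
  refine Pool.Agent.W303.AX.uxan _ B (Rz η ρ₃ τ₃) (isOpen_Rz _ _ _) ?_ hux
  filter_upwards with N
  have h1 : DifferentiableOn ℂ (fun z => Complex.exp (-((N : ℂ) *
      (F 0 + π * Complex.I + s' 0 z)))) (Rz η ρ₃ τ₃) :=
    (((hF'd.mono hRr).const_mul (N : ℂ)).neg).cexp
  exact (h1.const_mul ((N : ℂ) ^ (2 * (m + 1)) * (-1) ^ (N * (m + 1)))).mul
    (stL_diff ε a _ N).differentiableOn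

end

end Pool.Agent.TH563.Z
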