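import Pool.Agent.TH563.UV.Geo
import Pool.Agent.W719.AR.FinalA

/-!
# Hubs of weight zero: definitions and statements of the analytic part

Project Z.  The root of the tree is a vertex of weight `0` with `k ≥ 3` children (pretzel and
Montesinos links).  Its critical point is near `i η`, `η = et k`, `cosh (η / 2) = 1 / cos (π / k)`, which
is not small.  All other vertices are large, with critical points near `0`.  The kernel `ker N ψ φ`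
has to be analysed for `ψ` near `0` and `φ` near `i η`, and for `φ` on the line `Im φ = η`.
-/

set_option autoImplicit false

namespace Pool.Agent.TH563.Z

open Finset Filter Topology Metric
open Pool.Agent.W711.HT hiding XX
open Pool.Agent.TH563.UV
open scoped Real

/-! ### Constants -/

/-- the Gudermannian function -/
noncomputable def gd (t : ℝ) : ℝ := Real.arctan (Real.sinh t)

/-- the imaginary part of the critical point of a hub with `k` children -/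
noncomputable def et (k : ℕ) : ℝ := 2 * Real.arsinh (Real.tan (π / k))

/-- `δ₀(η)`, with `cos (2 π δ₀) = (1 - cosh η) / (3 + cosh η)` and `tan (π δ₀) = cosh (η / 2)` -/
noncomputable def dz (η : ℝ) : ℝ := Real.arccos ((1 - Real.cosh η) / (3 + Real.cosh η)) / (2 * π)

/-- the value `s(0, i η)`, the exponent of `ker N 0 (i η)` -/
noncomputable def AA (η : ℝ) : ℝ := 2 * bet + 2 / π * ∫ t in (0:ℝ)..(η / 2), gd t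

/-- the numbers `η` considered: `cosh (η / 2) = tan (π δ₀) ≤ 2` -/
def Adm (η : ℝ) : Prop := 0 < η ∧ Real.cosh (η / 2) ≤ 2

/-- open rectangle centred at `i η` -/
def Rz (η ρ τ : ℝ) : Set ℂ := {z | |z.re| < ρ ∧ |z.im - η| < τ}

/-! ### The two parts of the kernel -/

/-- the summation over `d` is split at `(1 / 2 + ε) N` -/
noncomputable def cut (ε : ℝ) (N : ℕ) : ℕ := ⌈(1 / 2 + ε) * (N : ℝ)⌉₊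

/-- the lower part of the kernel -/
noncomputable def kerL (ε : ℝ) (N : ℕ) (ψ φ : ℂ) : ℂ :=
  ∑ d ∈ range (cut ε N), Rp N d ψ * Rp N d φ / (Sd N d : ℂ) ^ 4

/-- the upper part of the kernel -/
noncomputable def kerH (ε : ℝ) (N : ℕ) (ψ φ : ℂ) : ℂ :=
  ∑ d ∈ Ico (cut ε N) N, Rp N d ψ * Rp N d φ / (Sd N d : ℂ) ^ 4

/-! ### Bounds -/

/-- away from `d = δ₀ N` -/
def FDZ (η ε : ℝ) : Prop := ∀ r : ℝ, 0 < r → ∃ κ : ℝ, 0 < κ ∧ ∃ τ : ℝ, 0 < τ ∧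
  ∀ᶠ N : ℕ in atTop, ∀ d < cut ε N, r ≤ |(d : ℝ) / N - dz η| → ∀ x y x' y' : ℝ, |x| ≤ π →
  |y| ≤ τ → |x'| ≤ π → |y' - η| ≤ τ →
  ‖Rp N d (x + y * Complex.I)‖ * ‖Rp N d (x' + y' * Complex.I)‖ ≤
    Sd N d ^ 4 * Real.exp (N * (AA η - κ))

/-- near the maximum -/
def BDZ (η ε : ℝ) : Prop := ∃ ρs c₂ : ℝ, 0 < ρs ∧ ρs ≤ 1 ∧ 0 < c₂ ∧ ∀ ε' : ℝ, 0 < ε' →
  ∃ τ : ℝ, 0 < τ ∧ ∀ᶠ N : ℕ in atTop, ∀ d < cut ε N, ∀ x y x' y' : ℝ, |x| ≤ π →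
  |y| ≤ τ → |x'| ≤ π → |y' - η| ≤ τ →
  ‖Rp N d (x + y * Complex.I)‖ * ‖Rp N d (x' + y' * Complex.I)‖ ≤
    Sd N d ^ 4 * Real.exp (N * (AA η - c₂ * min |x| ρs ^ 2 - c₂ * min |x'| ρs ^ 2 + ε'))

/-- job Z-BND -/
def S_BNDZ : Prop := ∀ η : ℝ, Adm η → ∃ ε : ℝ, 0 < ε ∧ ε < 1 / 4 ∧ FDZ η ε ∧ BDZ η ε

/-! ### The potential of the sum over `d` -/

/-- derivatives of the limit functions (as `S_RRD`) -/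
def S_RRDZ : Prop := ∀ η : ℝ, Adm η → ∃ ρ : ℝ, 0 < ρ ∧
  DifferentiableOn ℂ (fun p : ℂ × ℂ => rrF p.1 p.2) (ball (dz η : ℂ) ρ ×ˢ ball 0 ρ) ∧
  DifferentiableOn ℂ (fun p : ℂ × ℂ => rrF p.1 p.2)
    (ball (dz η : ℂ) ρ ×ˢ ball (η * Complex.I) ρ) ∧
  DifferentiableOn ℂ ssF (ball (dz η : ℂ) ρ) ∧
  (∀ δ ∈ ball (dz η : ℂ) ρ, (∀ ψ ∈ ball (0 : ℂ) ρ ∪ ball (η * Complex.I) ρ,
    HasDerivAt (fun z => rrF z ψ)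
      (Complex.log (2 * Complex.cos ψ + 2 * Complex.cos (2 * π * δ))) δ ∧
    HasDerivAt (fun z => rrF δ z) (-(1 / (2 * π)) * Lg (2 * π * δ) ψ) ψ) ∧
    HasDerivAt ssF (Complex.log (2 * Complex.sin (π * δ))) δ) ∧
  rrF (dz η) 0 + rrF (dz η) (η * Complex.I) - 4 * ssF (dz η) = ((AA η : ℝ) : ℂ)

/-- the critical value of the sum over `d`, `ψ` near `0` and `φ` near `i η` (as `SD`) -/
structure SDZ (η r c C : ℝ) (s dl : ℂ → ℂ → ℂ) : Prop where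
  hr : 0 < r ∧ r ≤ 1 / 10 ∧ r < η
  hc : 0 < c
  hC : 0 < C
  san : DifferentiableOn ℂ (fun p : ℂ × ℂ => s p.1 p.2) (Rc r r ×ˢ Rz η r r)
  dan : DifferentiableOn ℂ (fun p : ℂ × ℂ => dl p.1 p.2) (Rc r r ×ˢ Rz η r r)
  sbd : ∀ ψ ∈ Rc r r, ∀ φ ∈ Rz η r r, ‖s ψ φ‖ ≤ C
  ev : ∀ ψ ∈ Rc r r, ∀ φ ∈ Rz η r r, s (-ψ) φ = s ψ φ
  base : s 0 (η * Complex.I) = ((AA η : ℝ) : ℂ)
  dbase : dl 0 (η * Complex.I) = ((dz η : ℝ) : ℂ)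
  Lbase : Lg (2 * π * dz η) (η * Complex.I) = 2 * (gd (η / 2) : ℂ) * Complex.I
  lip : ∀ ψ ∈ Rc r r, ∀ φ ∈ Rz η r r,
    ‖s ψ φ - ((AA η : ℝ) : ℂ)‖ ≤ C * (‖ψ‖ + ‖φ - η * Complex.I‖)
  dlip : ∀ ψ ∈ Rc r r, ∀ φ ∈ Rz η r r,
    ‖dl ψ φ - ((dz η : ℝ) : ℂ)‖ ≤ C * (‖ψ‖ + ‖φ - η * Complex.I‖)
  conc1 : ∀ ψ ∈ Rc r r, ∀ φ ∈ Rz η r r, (deriv (deriv fun z => s z φ) ψ).re ≤ -c
  conc2 : ∀ ψ ∈ Rc r r, ∀ φ ∈ Rz η r r, (deriv (deriv fun z => s ψ z) φ).re ≤ -c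
  dcos : ∀ ψ ∈ Rc r r, ∀ φ ∈ Rz η r r, Complex.cos (2 * π * dl ψ φ) =
    (1 - Complex.cos ψ * Complex.cos φ) / (2 + Complex.cos ψ + Complex.cos φ)
  dcrit : ∀ ψ ∈ Rc r r, ∀ φ ∈ Rz η r r,
    Complex.log (2 * Complex.cos ψ + 2 * Complex.cos (2 * π * dl ψ φ)) +
      Complex.log (2 * Complex.cos φ + 2 * Complex.cos (2 * π * dl ψ φ)) =
      4 * Complex.log (2 * Complex.sin (π * dl ψ φ))
  scrit : ∀ ψ ∈ Rc r r, ∀ φ ∈ Rz η r r,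
    s ψ φ = rrF (dl ψ φ) ψ + rrF (dl ψ φ) φ - 4 * ssF (dl ψ φ)
  sder1 : ∀ ψ ∈ Rc r r, ∀ φ ∈ Rz η r r,
    HasDerivAt (fun z => s z φ) (-(1 / (2 * π)) * Lg (2 * π * dl ψ φ) ψ) ψ
  sder2 : ∀ ψ ∈ Rc r r, ∀ φ ∈ Rz η r r,
    HasDerivAt (fun z => s ψ z) (-(1 / (2 * π)) * Lg (2 * π * dl ψ φ) φ) φ

/-- job Z-SD -/
def S_SDZ : Prop := ∀ η : ℝ, Adm η → ∃ (r c C : ℝ) (s dl : ℂ → ℂ → ℂ), SDZ η r c C s dl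

/-! ### Asymptotics of the kernel -/

/-- analytic interpolation of `log R_d` and `log S_d` near `d = δ₀ N` (as `S_INT`); job Z-INT -/
def S_INTZ : Prop := ∀ η : ℝ, Adm η → ∃ ρ : ℝ, 0 < ρ ∧ ρ < 1 / 8 ∧
  ∃ r r' : ℕ → ℂ × ℂ → ℂ, ∃ s : ℕ → ℂ → ℂ,
  (∀ᶠ N : ℕ in atTop, DifferentiableOn ℂ (r N) (ball (dz η : ℂ) ρ ×ˢ ball 0 ρ)) ∧
  (∀ᶠ N : ℕ in atTop, DifferentiableOn ℂ (r' N) (ball (dz η : ℂ) ρ ×ˢ ball (η * Complex.I) ρ)) ∧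
  (∀ᶠ N : ℕ in atTop, DifferentiableOn ℂ (s N) (ball (dz η : ℂ) ρ)) ∧
  (∀ᶠ N : ℕ in atTop, ∀ d : ℕ, |(d : ℝ) / N - dz η| < ρ →
    (∀ ψ ∈ ball (0 : ℂ) ρ, Rp N d ψ = Complex.exp (N * r N ((d : ℂ) / N, ψ))) ∧
    (∀ φ ∈ ball (η * Complex.I) ρ, Rp N d φ = Complex.exp (N * r' N ((d : ℂ) / N, φ))) ∧
    (Sd N d : ℂ) = Complex.exp (N * s N ((d : ℂ) / N))) ∧
  TendstoUniformlyOn r (fun p => rrF p.1 p.2) atTop (ball (dz η : ℂ) ρ ×ˢ ball 0 ρ) ∧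
  TendstoUniformlyOn r' (fun p => rrF p.1 p.2) atTop
    (ball (dz η : ℂ) ρ ×ˢ ball (η * Complex.I) ρ) ∧
  TendstoUniformlyOn s ssF atTop (ball (dz η : ℂ) ρ)

/-- asymptotics of the modulus of the lower part of the kernel (as `S_MWK`) -/
def S_MWKZ : Prop := ∀ η ε : ℝ, Adm η → 0 < ε → ε < 1 / 4 → FDZ η ε →
  ∀ (r c C : ℝ) (s dl : ℂ → ℂ → ℂ), SDZ η r c C s dl → ∃ r₁ : ℝ, 0 < r₁ ∧ r₁ ≤ r ∧
  ∀ ε' : ℝ, 0 < ε' → ∀ᶠ N : ℕ in atTop, ∀ ψ ∈ Rc r₁ r₁, ∀ φ ∈ Rz η r₁ r₁,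
    kerL ε N ψ φ ≠ 0 ∧ |Real.log ‖kerL ε N ψ φ‖ - N * (s ψ φ).re| ≤ ε' * N

/-- all that is needed about the lower part of the kernel (as `KD`) -/
structure KDZ (η ε ρ τ ρ' τ' κ c : ℝ) (s dl : ℂ → ℂ → ℂ) : Prop where
  hε : 0 < ε ∧ ε < 1 / 4
  hρ : 0 < ρ ∧ ρ ≤ 1 / 4
  hτ : 0 < τ ∧ τ ≤ ρ
  hρ' : 0 < ρ' ∧ ρ' ≤ 1 / 4
  hτ' : 0 < τ' ∧ τ' ≤ ρ' ∧ 3 * τ' < η
  hκ : 0 < κ ∧ κ ≤ bet
  hc : 0 < c
  sdz : ∃ r C : ℝ, SDZ η r c C s dl ∧ 3 * ρ ≤ r ∧ 3 * ρ' ≤ r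
  slow : ∀ φ ∈ Rz η (3 * ρ') (3 * τ'), bet ≤ (s 0 φ).re
  mw : ∀ ε' : ℝ, 0 < ε' → ∀ᶠ N : ℕ in atTop, ∀ ψ ∈ Rc (3 * ρ) (3 * τ),
    ∀ φ ∈ Rz η (3 * ρ') (3 * τ'), kerL ε N ψ φ ≠ 0 ∧
      |Real.log ‖kerL ε N ψ φ‖ - N * (s ψ φ).re| ≤ ε' * N
  far1 : ∀ᶠ N : ℕ in atTop, ∀ x y : ℝ, ρ ≤ |x| → |x| ≤ π → |y| ≤ 1 / N →
    ∀ φ ∈ Rz η (3 * ρ') (3 * τ'),
      ‖kerL ε N (x + y * Complex.I) φ‖ ≤ Real.exp (N * ((s 0 φ).re - κ))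
  farg : ∀ᶠ N : ℕ in atTop, ∀ x y x' y' : ℝ, |x| ≤ π → |y| ≤ 1 / N → ρ' ≤ |x'| → |x'| ≤ π →
    |y' - η| ≤ 3 * τ' →
    ‖kerL ε N (x + y * Complex.I) (x' + y' * Complex.I)‖ ≤ Real.exp (N * (AA η - κ))

/-- job Z-KER; all sizes can be made small -/
def S_KERZ : Prop := ∀ η : ℝ, Adm η → ∀ (r c C : ℝ) (s dl : ℂ → ℂ → ℂ), SDZ η r c C s dl →
  ∃ ε : ℝ, ∀ g : ℝ, 0 < g → ∃ (ρ τ ρ' τ' κ : ℝ), KDZ η ε ρ τ ρ' τ' κ c s dl ∧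
    3 * ρ ≤ g ∧ 3 * ρ' ≤ g

/-! ### The remaining terms -/

/-- the terms with `d ≥ (1 / 2 + ε) N`: `R_d kr` has no poles near `0`, and is odd there; job Z-REM -/
def S_REM : Prop := ∀ ε ε' x₀ : ℝ, 0 < ε → ε < 1 / 2 → 0 < ε' → 0 < x₀ → x₀ < 2 * π * ε →
  ∀ᶠ N : ℕ in atTop, ∀ d : ℕ, cut ε N ≤ d → d < N → ∀ (P : ℂ → ℂ) (B : ℝ),
    Differentiable ℂ P → (∀ z, P (-z) = P z) → (∀ z, P (z + 2 * π) = P z) →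
    (∀ x y : ℝ, x₀ ≤ |x| → |x| ≤ π → 0 ≤ y → y ≤ 1 / N → ‖P (x + y * Complex.I)‖ ≤ B) →
    ‖upp (1 / N) fun φ => P φ * Rp N d φ * kr N φ‖ ≤ B * (Sd N d ^ 2 * Real.exp (ε' * N))

/-- bound of `R_d` on the real axis for `d ≥ N / 2`; part of job Z-REM -/
def S_HALF : Prop := ∀ ε' : ℝ, 0 < ε' → ∃ τ : ℝ, 0 < τ ∧ ∀ᶠ N : ℕ in atTop, ∀ d : ℕ,
  (N : ℝ) / 2 ≤ d → d < N → ∀ x y : ℝ, |x| ≤ π → |y| ≤ τ →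
    ‖Rp N d (x + y * Complex.I)‖ ≤ Sd N d ^ 2 * Real.exp (ε' * N)

/-! ### The exponents -/

/-- job Z-INEQ: `et k` is admissible and is the critical point, and the critical value beats the
remaining terms (for `k = 3` there is equality) -/
def S_INEQ : Prop := ∀ k : ℕ, 3 ≤ k → Adm (et k) ∧ gd (et k / 2) = π / k ∧
  (k - 1 : ℝ) * (2 * bet) ≤ k * AA (et k) - et k

end Pool.Agent.TH563.Z
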