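import Pool.Agent.TH563.Z.Upp

/-!
# Hubs of weight zero: the critical point at the hub
-/

set_option autoImplicit false
set_option maxHeartbeats 1000000

namespace Pool.Agent.TH563.Z

open Filter Topology Metric Set
open Pool.Agent.W711.HT hiding XX
open Pool.Agent.TH563.UV
open Pool.Agent.W293.HT
open scoped Real

/-- lower bound of the differences of the derivative -/
lemma conc_seg {G : ℂ → ℂ} {U : Set ℂ} (hU : Convex ℝ U) (hUo : IsOpen U)
    (hG : DifferentiableOn ℂ G U) {c : ℝ} (h2 : ∀ w ∈ U, (deriv (deriv G) w).re ≤ -c) {z z₀ : ℂ}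
    (hz : z ∈ U) (hz₀ : z₀ ∈ U) : c * ‖z - z₀‖ ≤ ‖deriv G z - deriv G z₀‖ := by
  obtain ⟨v, hv⟩ : ∃ v : ℂ, v = z - z₀ := ⟨_, rfl⟩
  have hzv : z = z₀ + v := by rw [hv]; ring
  rw [← hv]
  have hseg : ∀ t : ℝ, t ∈ Icc (0 : ℝ) 1 → z₀ + (t : ℂ) * v ∈ U := by
    intro t ht
    have h1 := hU hz₀ hz (by linarith [ht.2] : (0 : ℝ) ≤ 1 - t) ht.1 (by ring)
    have e : (1 - t) • z₀ + t • z = z₀ + (t : ℂ) * v := by
      rw [hv, Complex.real_smul, Complex.real_smul]
      push_cast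
      ring
    rwa [e] at h1
  have hd : ∀ t : ℝ, t ∈ Icc (0 : ℝ) 1 → HasDerivAt
      (fun t : ℝ => (deriv G (z₀ + t * v) * (starRingEnd ℂ) v).re)
      (deriv (deriv G) (z₀ + t * v) * v * (starRingEnd ℂ) v).re t := by
    intro t ht
    have h1 : HasDerivAt (deriv G) (deriv (deriv G) (z₀ + t * v)) (z₀ + t * v) :=
      ((hG.deriv hUo).differentiableAt (hUo.mem_nhds (hseg t ht))).hasDerivAt
    have h3 : HasDerivAt (fun w => deriv G (z₀ + w)) (deriv (deriv G) (z₀ + t * v)) (t * v) :=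
      h1.comp_const_add z₀ (t * v)
    exact hasDerivAt_ray (Q := fun w => deriv G (z₀ + w)) h3
  have hb : ∀ t : ℝ, t ∈ Icc (0 : ℝ) 1 →
      (deriv (deriv G) (z₀ + t * v) * v * (starRingEnd ℂ) v).re ≤ - c * ‖v‖ ^ 2 := by
    intro t ht
    have e1 : deriv (deriv G) (z₀ + t * v) * v * (starRingEnd ℂ) v =
        deriv (deriv G) (z₀ + t * v) * ((‖v‖ ^ 2 : ℝ) : ℂ) := by
      rw [mul_assoc, Complex.mul_conj, Complex.normSq_eq_norm_sq]
    rw [e1, Complex.re_mul_ofReal]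
    exact mul_le_mul_of_nonneg_right (h2 _ (hseg t ht)) (by positivity)
  have h1 := (convex_Icc (0 : ℝ) 1).image_sub_le_mul_sub_of_deriv_le
    (f := fun t : ℝ => (deriv G (z₀ + t * v) * (starRingEnd ℂ) v).re) (C := - c * ‖v‖ ^ 2)
    (fun t ht => (hd t ht).continuousAt.continuousWithinAt)
    (fun t ht => (hd t (interior_subset ht)).differentiableAt.differentiableWithinAt)
    (fun t ht => by
      rw [(hd t (interior_subset ht)).deriv]
      exact hb t (interior_subset ht)) 0 (by simp) 1 (by simp) (by norm_num)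
  simp only [Complex.ofReal_one, one_mul, Complex.ofReal_zero, zero_mul, sub_zero, mul_one,
    add_zero] at h1
  rw [← hzv, ← Complex.sub_re, ← sub_mul] at h1
  have h3 : -(‖deriv G z - deriv G z₀‖ * ‖v‖) ≤
      ((deriv G z - deriv G z₀) * (starRingEnd ℂ) v).re := by
    have h4 := Complex.abs_re_le_norm ((deriv G z - deriv G z₀) * (starRingEnd ℂ) v)
    rw [norm_mul, RCLike.norm_conj] at h4
    exact (abs_le.1 h4).1
  rcases (norm_nonneg v).eq_or_lt with h4 | h4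
  · rw [← h4, mul_zero]
    exact norm_nonneg _
  · have h5 : c * ‖v‖ * ‖v‖ ≤ ‖deriv G z - deriv G z₀‖ * ‖v‖ := by nlinarith
    exact le_of_mul_le_mul_right h5 h4

lemma mem_Rz3 {η ρ τ : ℝ} (h : τ ≤ ρ) {z w : ℂ} (hz : z ∈ Rz η (2 * ρ) (2 * τ))
    (hw : ‖w - z‖ < τ) : w ∈ Rz η (3 * ρ) (3 * τ) := by
  have h1 := (Complex.abs_re_le_norm (w - z)).trans_lt hw
  have h2 := (Complex.abs_im_le_norm (w - z)).trans_lt hw
  rw [Complex.sub_re] at h1
  rw [Complex.sub_im] at h2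
  have h3 : |w.re| ≤ |w.re - z.re| + |z.re| := by
    have := abs_add_le (w.re - z.re) z.re
    rwa [sub_add_cancel] at this
  have h4 : |w.im - η| ≤ |w.im - z.im| + |z.im - η| := by
    have := abs_add_le (w.im - z.im) (z.im - η)
    rwa [sub_add_sub_cancel] at this
  exact ⟨by linarith [hz.1], by linarith [hz.2]⟩

lemma cb_subz {η ρ τ : ℝ} (hτ : 0 < τ) (h : τ ≤ ρ) {z : ℂ} (hz : z ∈ Rz η (2 * ρ) (2 * τ)) :
    closedBall z (τ / 2) ⊆ Rz η (3 * ρ) (3 * τ) := by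
  intro w hw
  rw [mem_closedBall, dist_eq_norm] at hw
  exact mem_Rz3 h hz (by linarith)

/-- Cauchy's estimates -/
lemma cauchyz {η ρ τ B : ℝ} (hτ : 0 < τ) (h : τ ≤ ρ) {g : ℂ → ℂ}
    (hg : DifferentiableOn ℂ g (Rz η (3 * ρ) (3 * τ)))
    (hB : ∀ z ∈ Rz η (3 * ρ) (3 * τ), ‖g z‖ ≤ B)
    {z : ℂ} (hz : z ∈ Rz η (2 * ρ) (2 * τ)) :
    ‖deriv g z‖ ≤ 2 * B / τ ∧ ‖deriv (deriv g) z‖ ≤ 8 * B / τ ^ 2 := by
  have hcb := cb_subz hτ h hz
  constructor
  · have h1 := Complex.norm_iteratedDeriv_le_of_forall_mem_sphere_norm_le 1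
      (by positivity : (0 : ℝ) < τ / 2) (hg.diffContOnCl_ball hcb)
      (fun w hw => hB w (hcb (sphere_subset_closedBall hw)))
    rw [iteratedDeriv_one] at h1
    refine h1.trans (le_of_eq ?_)
    have : ((Nat.factorial 1 : ℕ) : ℝ) = 1 := by norm_num [Nat.factorial]
    rw [this]
    field_simp
  · have h1 := Complex.norm_iteratedDeriv_le_of_forall_mem_sphere_norm_le 2
      (by positivity : (0 : ℝ) < τ / 2) (hg.diffContOnCl_ball hcb)
      (fun w hw => hB w (hcb (sphere_subset_closedBall hw)))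
    rw [iteratedDeriv_succ, iteratedDeriv_one] at h1
    refine h1.trans (le_of_eq ?_)
    have : ((Nat.factorial 2 : ℕ) : ℝ) = 2 := by norm_num [Nat.factorial]
    rw [this]
    field_simp
    ring

/-- the critical point at the hub -/
theorem crit_z {η r c' C' : ℝ} {s' dl' : ℂ → ℂ → ℂ} (hS : SDZ η r c' C' s' dl') {ρ τ : ℝ}
    (hτ : 0 < τ) (hτρ : τ ≤ ρ) (hρr : 3 * ρ ≤ r) {k : ℕ} (hk : 1 ≤ k)
    (hgd : gd (η / 2) = π / k) {r₁ ε₁ : ℝ} (hr₁ : 0 < r₁) (hr₁τ : r₁ < τ)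
    (hε₁ : ε₁ ≤ c' * τ ^ 2 / 16) (hε₂ : ε₁ ≤ c' * r₁ * τ / 16) {f : ℂ} {Φ : ℂ → ℂ}
    (hΦ : DifferentiableOn ℂ Φ (Rz η (3 * ρ) (3 * τ)))
    (hcl : ∀ φ ∈ Rz η (3 * ρ) (3 * τ), ‖Φ φ - f - k * s' 0 φ‖ ≤ k * ε₁) :
    ∃ z : ℂ, ‖z - η * Complex.I‖ ≤ r₁ ∧ z ∈ Rz η ρ τ ∧ deriv (qz Φ) z = 0 ∧
      (deriv (deriv (qz Φ)) z).re < 0 ∧
      ∀ x : ℝ, |x| ≤ ρ → x ≠ z.re → (qz Φ (x + z.im * Complex.I)).re < (qz Φ z).re := by
  have hπ := Real.pi_pos
  have hr0 := hS.hr.1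
  have hc := hS.hc
  have hk0 : (0 : ℝ) < k := by exact_mod_cast hk
  have hkc : (k : ℂ) ≠ 0 := by exact_mod_cast (by omega : k ≠ 0)
  have hπc : (π : ℂ) ≠ 0 := by exact_mod_cast hπ.ne'
  have hU3 := isOpen_Rz η (3 * ρ) (3 * τ)
  have hU2 := isOpen_Rz η (2 * ρ) (2 * τ)
  have h0 : (0 : ℂ) ∈ Rc r r := zero_mem_Rc hr0 hr0
  have hsub : Rz η (3 * ρ) (3 * τ) ⊆ Rz η r r := Rz_mono hρr (by linarith)
  have hsub23 : Rz η (2 * ρ) (2 * τ) ⊆ Rz η (3 * ρ) (3 * τ) := Rz_mono (by linarith) (by linarith)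
  have hs0 : DifferentiableOn ℂ (fun φ => s' 0 φ) (Rz η (3 * ρ) (3 * τ)) := by
    intro φ hφ
    exact (hS.sder2 0 h0 φ (hsub hφ)).differentiableAt.differentiableWithinAt
  obtain ⟨A, hA⟩ : ∃ A : ℂ → ℂ, A = fun w => Complex.I * w + f + k * s' 0 w := ⟨_, rfl⟩
  obtain ⟨E, hE⟩ : ∃ E : ℂ → ℂ, E = fun w => Φ w - f - k * s' 0 w := ⟨_, rfl⟩
  have hAd' : ∀ w ∈ Rz η (3 * ρ) (3 * τ), HasDerivAt A
      (Complex.I + k * (-(1 / (2 * π)) * Lg (2 * π * dl' 0 w) w)) w := by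
    intro w hw
    rw [hA]
    have h1 := (hS.sder2 0 h0 w (hsub hw)).const_mul (k : ℂ)
    have h2 : HasDerivAt (fun w : ℂ => Complex.I * w + f) Complex.I w := by
      simpa using ((hasDerivAt_id w).const_mul Complex.I).add_const f
    exact h2.add h1
  have hAd : DifferentiableOn ℂ A (Rz η (3 * ρ) (3 * τ)) := fun w hw =>
    (hAd' w hw).differentiableAt.differentiableWithinAt
  have hEd : DifferentiableOn ℂ E (Rz η (3 * ρ) (3 * τ)) := by
    rw [hE]
    exact (hΦ.sub (differentiableOn_const f)).sub (hs0.const_mul (k : ℂ))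
  have hEb : ∀ w ∈ Rz η (3 * ρ) (3 * τ), ‖E w‖ ≤ k * ε₁ := by
    intro w hw
    rw [hE]
    exact hcl w hw
  have hqA : qz Φ = fun w => A w + E w := by
    funext w
    rw [hA, hE]
    unfold qz
    ring
  have hd1 : ∀ w ∈ Rz η (3 * ρ) (3 * τ), deriv (qz Φ) w = deriv A w + deriv E w := by
    intro w hw
    rw [hqA]
    exact deriv_fun_add (hAd.differentiableAt (hU3.mem_nhds hw))
      (hEd.differentiableAt (hU3.mem_nhds hw))
  have hd2 : ∀ w ∈ Rz η (3 * ρ) (3 * τ), deriv (deriv (qz Φ)) w =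
      deriv (deriv A) w + deriv (deriv E) w := by
    intro w hw
    rw [hqA]
    exact dd_add hU3 hAd hEd hw
  have hA2 : ∀ w ∈ Rz η (3 * ρ) (3 * τ), (deriv (deriv A) w).re ≤ -(k * c') := by
    intro w hw
    have e1 : deriv (deriv A) w = k * deriv (deriv fun z => s' 0 z) w := by
      have e2 : ∀ᶠ w in 𝓝 w, deriv A w = Complex.I + k * deriv (fun z => s' 0 z) w := by
        filter_upwards [hU3.mem_nhds hw] with w hw
        rw [(hAd' w hw).deriv, (hS.sder2 0 h0 w (hsub hw)).deriv]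
      rw [Filter.EventuallyEq.deriv_eq e2, deriv_const_add]
      have e3 : DifferentiableAt ℂ (deriv fun z => s' 0 z) w :=
        (hs0.deriv hU3).differentiableAt (hU3.mem_nhds hw)
      exact deriv_const_mul (k : ℂ) e3
    rw [e1]
    have e4 : ((k : ℂ) * deriv (deriv fun z => s' 0 z) w).re =
        k * (deriv (deriv fun z => s' 0 z) w).re := by
      rw [← Complex.ofReal_natCast, Complex.re_ofReal_mul]
    rw [e4]
    have e5 := hS.conc2 0 h0 w (hsub hw)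
    nlinarith
  have hG2 : ∀ w ∈ Rz η (2 * ρ) (2 * τ), (deriv (deriv (qz Φ)) w).re ≤ -(k * c' / 2) := by
    intro w hw
    rw [hd2 w (hsub23 hw), Complex.add_re]
    have e1 := hA2 w (hsub23 hw)
    have e2 := (Complex.re_le_norm _).trans (cauchyz hτ hτρ hEd hEb hw).2
    have e3 : 8 * (k * ε₁) / τ ^ 2 ≤ k * c' / 2 := by
      rw [div_le_iff₀ (by positivity)]
      nlinarith
    linarith
  have hqd : DifferentiableOn ℂ (qz Φ) (Rz η (3 * ρ) (3 * τ)) := by
    rw [hqA]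
    exact hAd.add hEd
  have hz₀2 : (η : ℂ) * Complex.I ∈ Rz η (2 * ρ) (2 * τ) := by
    refine ⟨?_, ?_⟩
    · have : ((η : ℂ) * Complex.I).re = 0 := by simp
      rw [this, abs_zero]
      linarith
    · have : ((η : ℂ) * Complex.I).im = η := by simp
      rw [this, sub_self, abs_zero]
      linarith
  have hbase : ‖deriv (qz Φ) (η * Complex.I)‖ ≤ 2 * (k * ε₁) / τ := by
    have e1 : deriv A (η * Complex.I) = 0 := by
      rw [(hAd' _ (hsub23 hz₀2)).deriv, hS.dbase, hS.Lbase, hgd]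
      push_cast
      field_simp
      ring
    rw [hd1 _ (hsub23 hz₀2), e1, zero_add]
    exact (cauchyz hτ hτρ hEd hEb hz₀2).1
  have hconc := fun z (hz : z ∈ Rz η (2 * ρ) (2 * τ)) =>
    conc_seg (convex_Rz η (2 * ρ) (2 * τ)) hU2 (hqd.mono hsub23) hG2 hz hz₀2
  have hball : closedBall ((η : ℂ) * Complex.I) r₁ ⊆ Rz η ρ τ := by
    intro w hw
    rw [mem_closedBall, dist_eq_norm] at hw
    have h1 := (Complex.abs_re_le_norm _).trans hw
    have h2 := (Complex.abs_im_le_norm _).trans hw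
    rw [Complex.sub_re] at h1
    rw [Complex.sub_im] at h2
    have a1 : ((η : ℂ) * Complex.I).re = 0 := by simp
    have a2 : ((η : ℂ) * Complex.I).im = η := by simp
    rw [a1, sub_zero] at h1
    rw [a2] at h2
    exact ⟨by linarith, by linarith⟩
  have hsub12 : Rz η ρ τ ⊆ Rz η (2 * ρ) (2 * τ) := Rz_mono (by linarith) (by linarith)
  have him := DiffContOnCl.ball_subset_image_closedBall (f := deriv (qz Φ))
    (z₀ := (η : ℂ) * Complex.I) (r := r₁) (ε := k * c' / 2 * r₁)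
    ((hqd.deriv hU3).diffContOnCl_ball (hball.trans (hsub12.trans hsub23))) hr₁
    (by
      intro z hz
      have h1 := hconc z (hsub12 (hball (sphere_subset_closedBall hz)))
      rw [mem_sphere, dist_eq_norm] at hz
      rwa [hz] at h1)
    (by
      have h1 : ∀ᶠ z in 𝓝[≠] ((η : ℂ) * Complex.I),
          deriv (qz Φ) z ≠ deriv (qz Φ) (η * Complex.I) := by
        filter_upwards [self_mem_nhdsWithin, mem_nhdsWithin_of_mem_nhds (hU2.mem_nhds hz₀2)] with
          z hz1 hz2 h3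
        have h4 := hconc z hz2
        rw [h3, sub_self, norm_zero] at h4
        have h5 : 0 < ‖z - η * Complex.I‖ := norm_pos_iff.2 (sub_ne_zero.2 hz1)
        have h6 : 0 < k * c' / 2 * ‖z - η * Complex.I‖ := by positivity
        linarith
      exact h1.frequently.filter_mono nhdsWithin_le_nhds)
  obtain ⟨z, hz1, hz2⟩ := him (show (0 : ℂ) ∈ _ by
    rw [mem_ball, dist_comm, dist_zero_right]
    refine hbase.trans_lt ?_
    rw [div_lt_iff₀ hτ]
    have h1 : k * ε₁ ≤ k * (c' * r₁ * τ / 16) := mul_le_mul_of_nonneg_left hε₂ hk0.le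
    have h2 : 0 < k * c' * r₁ * τ := by positivity
    nlinarith)
  have hzm := hball hz1
  refine ⟨z, by rw [mem_closedBall, dist_eq_norm] at hz1; exact hz1, hzm, hz2, ?_, ?_⟩
  · have h1 := hG2 z (hsub12 hzm)
    have h2 : 0 < k * c' / 2 := by positivity
    linarith
  · intro x hx hxz
    have hin : ∀ x : ℝ, |x| ≤ ρ → (x : ℂ) + z.im * Complex.I ∈ Rz η (2 * ρ) (2 * τ) := by
      intro x hx
      refine ⟨?_, ?_⟩
      · rw [Pool.Agent.W85.HT.xy_re]
        linarith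
      · rw [Pool.Agent.W85.HT.xy_im]
        linarith [hzm.2]
    have hzz : (z.re : ℂ) + z.im * Complex.I = z := Complex.re_add_im z
    have h1 := quad_bound (f := fun x : ℝ => (qz Φ (x + z.im * Complex.I)).re)
      (f' := fun x : ℝ => (deriv (qz Φ) (x + z.im * Complex.I)).re)
      (f'' := fun x : ℝ => (deriv (deriv (qz Φ)) (x + z.im * Complex.I)).re)
      (r := ρ) (c := k * c' / 2) (x0 := z.re)
      (fun x hx => hasDerivAt_line
        (hqd.differentiableAt (hU3.mem_nhds (hsub23 (hin x hx)))).hasDerivAt)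
      (fun x hx => hasDerivAt_line (Q := deriv (qz Φ))
        ((hqd.deriv hU3).differentiableAt (hU3.mem_nhds (hsub23 (hin x hx)))).hasDerivAt)
      (fun x hx => hG2 _ (hin x hx)) hzm.1.le (by
        show (deriv (qz Φ) ((z.re : ℂ) + z.im * Complex.I)).re = 0
        rw [hzz, hz2, Complex.zero_re]) hx
    have h2 : 0 < (x - z.re) ^ 2 := by
      have : x - z.re ≠ 0 := sub_ne_zero.2 hxz
      positivity
    have h3 : 0 < k * c' / 2 / 2 * (x - z.re) ^ 2 := by positivity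
    have h4 : (qz Φ (x + z.im * Complex.I)).re ≤
        (qz Φ ((z.re : ℂ) + z.im * Complex.I)).re - k * c' / 2 / 2 * (x - z.re) ^ 2 := h1
    rw [hzz] at h4
    linarith

end Pool.Agent.TH563.Z
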