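import Pool.Agent.TH563.Z.Defs

/-!
# Hubs of weight zero: critical configurations, volumes, and the main statements

The root of the tree is the hub: a vertex of weight `0` without circle, with `k ≥ 3` children.  The
edges at the root use the function `s'` near `(0, i η)`, all other edges the function `s` near
`(0, 0)`.
-/

set_option autoImplicit false

namespace Pool.Agent.TH563.Z

open Finset Filter Topology Metric
open Pool.Agent.W711.HT hiding XX
open Pool.Agent.TH563.UV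
open scoped Real

/-- derivative, in the variable of the root, of the sum of the terms of the edges at the root -/
noncomputable def hgs (s' : ℂ → ℂ → ℂ) : PB → ℂ
  | .vx _ _ _ => 0
  | .br t c => hgs s' t + deriv (fun w => s' c.rz w) t.rz

/-- the value without the term of the root; the edges at the root have the term `s'` -/
noncomputable def hvl (s s' : ℂ → ℂ → ℂ) : PB → ℂ
  | .vx _ _ _ => 0
  | .br t c => hvl s s' t + (vt c.bl c.wt c.rz + c.vl s + s' c.rz t.rz)

/-- the conditions at the vertices other than the root -/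
def HCrt (s s' : ℂ → ℂ → ℂ) (ρ τ : ℝ) : PB → Prop
  | .vx _ _ _ => True
  | .br t c => HCrt s s' ρ τ t ∧ c.Crt s ρ τ ∧
      VC ρ τ c.bl c.wt c.rz (c.gs s + deriv (fun w => s' w t.rz) c.rz)

/-- the numbers at the children of the root are small -/
def nearc (g : ℝ) : PB → Prop
  | .vx _ _ _ => True
  | .br t c => nearc g t ∧ ‖c.rz‖ ≤ g

/-- job Z-GEO: the value at a critical configuration is the maximal volume of the angle
structures -/
def S_GEOZ : Prop := ∀ (ρ τ κ c : ℝ) (s dl : ℂ → ℂ → ℂ), KD ρ τ κ c s dl →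
  ∀ (η r c' C : ℝ) (s' dl' : ℂ → ℂ → ℂ), Adm η → SDZ η r c' C s' dl' →
  ∃ g : ℝ, 0 < g ∧ ∀ p : PB, HCrt s s' ρ τ p → p.bl = false → p.wt = 0 →
    ‖p.rz - η * Complex.I‖ ≤ g → nearc g p → Complex.I + hgs s' p = 0 → 1 ≤ p.nc →
    IsGreatest {W : ℝ | ∃ y : AB, y.shape = p.shape ∧ y.IsAng ∧ y.vol = W}
      (2 * π * (Complex.I * p.rz + hvl s s' p).re)

/-- the growth rate is the value at a critical configuration -/
def S_MAINZ : Prop := ∃ (ρ τ κ c : ℝ) (s dl : ℂ → ℂ → ℂ), KD ρ τ κ c s dl ∧ ∀ k : ℕ, 3 ≤ k →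
  ∃ (r c' C : ℝ) (s' dl' : ℂ → ℂ → ℂ), SDZ (et k) r c' C s' dl' ∧ ∀ g : ℝ, 0 < g →
  ∃ K : ℝ, 0 < K ∧ ∀ t : Tb, t.Below K → t.bl = false → t.wt = 0 → t.nc = k →
    ∃ p : PB, p.shape = t ∧ HCrt s s' ρ τ p ∧ ‖p.rz - et k * Complex.I‖ ≤ g ∧ nearc g p ∧
      Complex.I + hgs s' p = 0 ∧
      Tendsto (fun N : ℕ => 2 * π * (Real.log ‖JT t N‖ / N)) atTop
        (𝓝 (2 * π * (Complex.I * p.rz + hvl s s' p).re))

/-- the growth rate is the maximal volume -/
def S_FINZ : Prop := ∃ K : ℝ, 0 < K ∧ ∀ t : Tb, t.Below K → t.bl = false → t.wt = 0 →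
  3 ≤ t.nc → ∃ V : ℝ,
    IsGreatest {W : ℝ | ∃ y : AB, y.shape = t ∧ y.IsAng ∧ y.vol = W} V ∧
    Tendsto (fun N : ℕ => 2 * π * (Real.log ‖JT t N‖ / N)) atTop (𝓝 V)

end Pool.Agent.TH563.Z
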