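import Pool.Agent.TH563.Z.FinZ
import Pool.Agent.TH28.J363
import Pool.Agent.TH822.J362
import Pool.Agent.TH511.J361
import Pool.Agent.TH67.J364
import Pool.Agent.TH558.J365
import Pool.Agent.TH653.J366
import Pool.Agent.TH596.J367
import Pool.Agent.TH609.J368

/-!
# Hubs of weight zero: the growth rate, from all parts
-/

set_option autoImplicit false

namespace Pool.Agent.TH563.Z

theorem f_kerz : S_KERZ :=
  kerz (mwkz Pool.Agent.TH28.ZI.intz Pool.Agent.TH822.J362.rrdz) Pool.Agent.TH511.J361.bndz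

theorem f_finj : S_FINJ :=
  finz (mainz Pool.Agent.TH822.J362.sdz f_kerz Pool.Agent.TH653.J366.rem
    Pool.Agent.TH653.J366.half Pool.Agent.TH596.J367.ineq) Pool.Agent.TH609.Z.geoz

end Pool.Agent.TH563.Z
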