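import Pool.Agent.TH563.Z.ArbX
import Pool.Agent.TH563.Z.FinalZ
import Pool.Agent.TH822.J763
import Pool.Agent.TH931.J764
import Pool.Agent.TH49.J765
import Pool.Agent.TH989.J766
import Pool.Agent.TH817.J767

/-!
# Hubs of weight zero: the expansion, from all parts
-/

set_option autoImplicit false

namespace Pool.Agent.TH563.Z

theorem f_kerzx : S_KERZX :=
  kerzx (mwkz Pool.Agent.TH28.ZI.intz Pool.Agent.TH822.J362.rrdz) Pool.Agent.TH511.J361.bndz

theorem f_kxcz : S_KXCZ :=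
  kxcz (kxrz Pool.Agent.TH822.J763.emrz Pool.Agent.TH931.Z764.emsz Pool.Agent.TH49.J765.winz
    Pool.Agent.TH822.J362.rrdz)

theorem f_finjx : S_FINJX :=
  finjx (mainzx Pool.Agent.TH822.J362.sdz f_kerzx f_kxcz Pool.Agent.TH653.J366.rem
    Pool.Agent.TH653.J366.half Pool.Agent.TH596.J367.ineq) Pool.Agent.TH609.Z.geoz

end Pool.Agent.TH563.Z
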