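import Pool.Agent.TH563.Z.Child2
import Pool.Agent.W346.HT.Path

/-!
# Hubs of weight zero: the outer integral
-/

set_option autoImplicit false
set_option maxHeartbeats 1000000

namespace Pool.Agent.TH563.Z

open Finset Filter Topology Metric
open Pool.Agent.W711.HT hiding XX
open Pool.Agent.TH563.UV
open Pool.Agent.W85.HT hiding Rc_mono
open Pool.Agent.W293.HT
open Pool.Agent.W346.HT (IntP IntP_kr)
open scoped Real

lemma upp_add {h : ℝ} {f g : ℂ → ℂ} (hf : IntP h f) (hg : IntP h g) :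
    upp h (fun ψ => f ψ + g ψ) = upp h f + upp h g := by
  unfold upp
  rw [intervalIntegral.integral_add hf.1 hg.1, intervalIntegral.integral_add hf.2.1 hg.2.1,
    intervalIntegral.integral_add hf.2.2 hg.2.2]
  ring

lemma upp_per {h : ℝ} {f : ℂ → ℂ} (hf : ∀ z, f (z + 2 * π) = f z) :
    upp h f = ∫ x in (-π)..π, f (x + h * Complex.I) := by
  unfold upp
  have e : (fun y : ℝ => f (π + y * Complex.I)) = fun y : ℝ => f (-π + y * Complex.I) := by
    funext y
    rw [← hf (-π + y * Complex.I)]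
    congr 1
    ring
  rw [e]
  ring

lemma kr_diff {N : ℕ} (hN : 0 < N) {w : ℂ} (hw : 0 < w.im) : DifferentiableAt ℂ (kr N) w := by
  have h1 : kr N = fun w => uu N w * pp N w := by
    funext w
    exact kr_eq N w
  rw [h1]
  have h2 : DifferentiableAt ℂ (pp N) w :=
    (pp_diff hN (U := {w : ℂ | 0 < w.im}) (fun w hw => hw)).differentiableAt
      ((isOpen_lt continuous_const Complex.continuous_im).mem_nhds hw)
  exact (uu_diff N w).mul h2

lemma shift {N : ℕ} (hN : 0 < N) {g : ℂ → ℂ} (hg : Differentiable ℂ g)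
    (hper : ∀ z, g (z + 2 * π) = g z) {H : ℝ} (hH : 1 / (N : ℝ) ≤ H) :
    upp (1 / N) (fun ψ => g ψ * kr N ψ) =
      ∫ x in (-π)..π, g (x + H * Complex.I) * kr N (x + H * Complex.I) := by
  have hN' : (0 : ℝ) < N := by exact_mod_cast hN
  have hp : ∀ z, (fun ψ => g ψ * kr N ψ) (z + 2 * π) = (fun ψ => g ψ * kr N ψ) z := by
    intro z
    show g (z + 2 * π) * kr N (z + 2 * π) = g z * kr N z
    rw [hper, kr_per]
  rw [upp_per hp]
  have h1 := rect_eq (f := fun ψ => g ψ * kr N ψ) (ρ := π) (h := 1 / N) (H := H) Real.pi_pos.le hH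
    (fun w _ _ h3 _ => (hg w).mul (kr_diff hN (lt_of_lt_of_le (by positivity) h3)))
  rw [h1]
  have e : (fun y : ℝ => (fun ψ => g ψ * kr N ψ) (π + y * Complex.I)) =
      fun y : ℝ => (fun ψ => g ψ * kr N ψ) (-π + y * Complex.I) := by
    funext y
    rw [← hp (-π + y * Complex.I)]
    congr 1
    ring
  rw [e]
  ring

lemma kr_bd {N : ℕ} (hN : 0 < N) {H : ℝ} {w : ℂ} (h1 : 1 / (N : ℝ) ≤ w.im) (h2 : w.im ≤ H) :
    ‖kr N w‖ ≤ 8 * Real.exp H * Real.exp (-(N * w.im)) := by
  rw [kr_eq, norm_mul, norm_uu, mul_comm]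
  exact mul_le_mul_of_nonneg_right (pp_bd hN h1 h2) (Real.exp_pos _).le

lemma convex_Rz (η a b : ℝ) : Convex ℝ (Rz η a b) := by
  have h : Rz η a b = ({w : ℂ | -a < w.re} ∩ {w : ℂ | w.re < a}) ∩
      ({w : ℂ | η - b < w.im} ∩ {w : ℂ | w.im < η + b}) := by
    ext w
    show |w.re| < a ∧ |w.im - η| < b ↔ (-a < w.re ∧ w.re < a) ∧ (η - b < w.im ∧ w.im < η + b)
    rw [abs_lt, abs_lt]
    constructor
    · rintro ⟨h1, h2, h3⟩
      exact ⟨h1, by linarith, by linarith⟩
    · rintro ⟨h1, h2, h3⟩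
      exact ⟨h1, by linarith, by linarith⟩
  rw [h]
  exact ((convex_halfSpace_re_gt _).inter (convex_halfSpace_re_lt _)).inter
    ((convex_halfSpace_im_gt _).inter (convex_halfSpace_im_lt _))

/-- the potential at the hub -/
noncomputable def qz (Φ : ℂ → ℂ) (w : ℂ) : ℂ := Complex.I * w + Φ w

/-- the growth rate of the integral over the path -/
theorem outer_lim {η ρ τ : ℝ} (hρ : 0 < ρ) (hρ1 : ρ ≤ 1 / 4) (hτ : 0 < τ) (hητ : 3 * τ < η)
    {P PL : ℕ → ℂ → ℂ} (hP : ∀ N, Differentiable ℂ (P N)) (hPL : ∀ N, Differentiable ℂ (PL N))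
    (hper : ∀ N φ, PL N (φ + 2 * π) = PL N φ) {Φ : ℂ → ℂ}
    (hΦ : DifferentiableOn ℂ Φ (Rz η (3 * ρ) (3 * τ))) (hmw : MW PL Φ (Rz η (2 * ρ) (2 * τ)))
    {z : ℂ} (hz : z ∈ Rz η ρ τ) (hcrit : deriv (qz Φ) z = 0) (hneg : (deriv (deriv (qz Φ)) z).re < 0)
    (hline : ∀ x : ℝ, |x| ≤ ρ → x ≠ z.re → (qz Φ (x + z.im * Complex.I)).re < (qz Φ z).re)
    {κ : ℝ} (hκ : 0 < κ)
    (hfar : ∀ᶠ N : ℕ in atTop, ∀ x : ℝ, ρ ≤ |x| → |x| ≤ π →
      ‖PL N (x + z.im * Complex.I)‖ ≤ Real.exp (N * ((qz Φ z).re + z.im - κ)))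
    (hrem : ∀ᶠ N : ℕ in atTop, ‖upp (1 / N) fun φ => (P N φ - PL N φ) * kr N φ‖ ≤
      Real.exp (N * ((qz Φ z).re - κ))) :
    Tendsto (fun N : ℕ => Real.log ‖upp (1 / N) fun φ => P N φ * kr N φ‖ / N) atTop
      (𝓝 (qz Φ z).re) := by
  have hπ := Real.pi_gt_three
  have hopen : IsOpen (Rz η (2 * ρ) (2 * τ)) := isOpen_Rz _ _ _
  have hconv : Convex ℝ (Rz η (2 * ρ) (2 * τ)) := convex_Rz _ _ _
  have hsub : Rz η (2 * ρ) (2 * τ) ⊆ Rz η (3 * ρ) (3 * τ) := Rz_mono (by linarith) (by linarith)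
  have hzr := hz.1
  have hzi := abs_lt.1 hz.2
  have hz0 : 0 < z.im := by linarith [hzi.1]
  obtain ⟨K, hK⟩ : ∃ K : Set ℂ, K = Kz η (3 / 2 * ρ) (3 / 2 * τ) := ⟨_, rfl⟩
  have hKc : IsCompact K := by rw [hK]; exact Kz_compact _ _ _
  have hKm : ∀ w : ℂ, w ∈ K ↔ |w.re| ≤ 3 / 2 * ρ ∧ |w.im - η| ≤ 3 / 2 * τ := by
    intro w
    rw [hK, Kz_mem]
  have hKU : K ⊆ Rz η (2 * ρ) (2 * τ) := by
    intro w hw
    rw [hKm] at hw
    exact ⟨by linarith [hw.1], by linarith [hw.2]⟩
  obtain ⟨g, c, hc1, hgd, hglim⟩ := Pool.Agent.W930.HTLog.main PL Φ _ K hopen hconv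
    (Eventually.of_forall fun N => (hPL N).differentiableOn) (hΦ.mono hsub) hmw hKc hKU
  -- the open set for the Laplace method
  obtain ⟨U, hU⟩ : ∃ U : Set ℂ, U = Rz η (3 / 2 * ρ) (3 / 2 * τ) := ⟨_, rfl⟩
  have hUo : IsOpen U := by rw [hU]; exact isOpen_Rz _ _ _
  have hUK : U ⊆ K := by
    intro w hw
    rw [hU] at hw
    rw [hKm]
    exact ⟨hw.1.le, hw.2.le⟩
  have hqqd : DifferentiableOn ℂ (qz Φ) (Rz η (2 * ρ) (2 * τ)) := by
    unfold qz
    exact (differentiable_id.const_mul Complex.I).differentiableOn.add (hΦ.mono hsub)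
  obtain ⟨V, hV⟩ : ∃ V : ℝ, V = (qz Φ z).re := ⟨_, rfl⟩
  rw [← hV] at hline hfar hrem ⊢
  obtain ⟨q, hq⟩ : ∃ q : ℕ → ℂ → ℂ, q = fun N w => qz (g N) w := ⟨_, rfl⟩
  have hqe : ∀ N w, q N w = qz (g N) w := fun N w => by rw [hq]
  have hqd : ∀ᶠ N : ℕ in atTop, DifferentiableOn ℂ (q N) (Rz η (2 * ρ) (2 * τ)) := by
    filter_upwards [hgd] with N hN
    rw [hq]
    unfold qz
    exact (differentiable_id.const_mul Complex.I).differentiableOn.add hN.1
  have hqlim : TendstoUniformlyOn q (qz Φ) atTop K := by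
    rw [Metric.tendstoUniformlyOn_iff] at hglim ⊢
    intro ε hε
    filter_upwards [hglim ε hε] with N hN w hw
    have := hN w hw
    rw [dist_eq_norm] at this ⊢
    have e : qz Φ w - q N w = Φ w - g N w := by
      rw [hqe]; unfold qz; ring
    rw [e]; exact this
  obtain ⟨k, hk⟩ : ∃ k : ℝ, k = 1 - V := ⟨_, rfl⟩
  have hlap := Pool.Agent.W588.HT.lapc (fun N w => q N w + k) pp (fun w => qz Φ w + k)
    (fun w => 2 * Complex.sin w)
    U (-ρ) ρ z hUo (by
      filter_upwards [hqd] with N hN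
      exact (hN.mono (hUK.trans hKU)).add_const _)
    ((hqqd.mono (hUK.trans hKU)).add_const _) (by
      have := hqlim.mono hUK
      rw [Metric.tendstoUniformlyOn_iff] at this ⊢
      intro ε hε
      filter_upwards [this ε hε] with N hN w hw
      have := hN w hw
      rw [dist_add_right]
      exact this) (by
      filter_upwards [eventually_gt_atTop 0] with N hN
      refine pp_diff hN (fun w hw => ?_)
      rw [hU] at hw
      have := (abs_lt.1 hw.2).1
      linarith) (by fun_prop)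
    (pp_lim (h := η - 3 / 2 * τ) (H := η + 3 / 2 * τ) (by linarith)
      (fun w hw => by
        rw [hU] at hw
        have h1 := abs_lt.1 hw.2
        exact ⟨by linarith [h1.1], by linarith [h1.2]⟩))
    (by linarith [(abs_lt.1 hzr).1]) (by linarith [(abs_lt.1 hzr).2]) (by
      intro x hx1 hx2
      rw [hU]
      have e1 : ((x : ℂ) + z.im * Complex.I).re = x := by simp
      have e2 : ((x : ℂ) + z.im * Complex.I).im = z.im := by simp
      refine ⟨?_, ?_⟩
      · rw [e1]
        have : |x| ≤ ρ := abs_le.2 ⟨hx1, hx2⟩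
        linarith
      · rw [e2]
        linarith [hz.2]) (by
      rw [deriv_add_const]; exact hcrit) (by
      have : deriv (fun w => qz Φ w + (k : ℂ)) = deriv (qz Φ) := by
        funext w; rw [deriv_add_const]
      rw [this]; exact hneg) (by
      refine mul_ne_zero two_ne_zero ?_
      intro h0
      obtain ⟨m, hm⟩ := Complex.sin_eq_zero_iff.1 h0
      have : z.im = 0 := by
        rw [hm]
        have : (m : ℂ) * π = ((m * π : ℝ) : ℂ) := by push_cast; ring
        rw [this, Complex.ofReal_im]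
      linarith) (by
      intro x hx1 hx2 hxz
      rw [Complex.add_re, Complex.add_re, Complex.ofReal_re]
      have := hline x (abs_le.2 ⟨hx1, hx2⟩) hxz
      rw [hV] at this
      linarith)
  have hVk : (qz Φ z + (k : ℂ)).re = 1 := by
    rw [Complex.add_re, Complex.ofReal_re, ← hV, hk]; ring
  rw [hVk] at hlap
  -- the main term
  obtain ⟨M, hM⟩ : ∃ M : ℕ → ℂ, M = fun N => ∫ x in (-ρ)..ρ, pp N (x + z.im * Complex.I) *
    Complex.exp (N * q N (x + z.im * Complex.I)) := ⟨_, rfl⟩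
  have hMb : ∀ ε : ℝ, 0 < ε → ∀ᶠ N : ℕ in atTop, Real.exp (N * (V - ε)) ≤ ‖M N‖ ∧
      ‖M N‖ ≤ Real.exp (N * (V + ε)) := by
    intro ε hε
    rw [Metric.tendsto_atTop] at hlap
    obtain ⟨N1, hN1⟩ := hlap (min ε (1 / 2)) (lt_min hε (by norm_num))
    filter_upwards [eventually_ge_atTop N1, eventually_gt_atTop 0] with N h1 h2
    have hN' : (0 : ℝ) < N := by exact_mod_cast h2
    have h3 := hN1 N h1
    obtain ⟨I1, hI1⟩ : ∃ I1 : ℂ, I1 = ∫ x in (-ρ)..ρ, pp N (x + z.im * Complex.I) *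
      Complex.exp (N * (q N (x + z.im * Complex.I) + k)) := ⟨_, rfl⟩
    rw [← hI1] at h3
    have h4 : I1 = Complex.exp (N * k) * M N := by
      rw [hI1, hM, ← intervalIntegral.integral_const_mul]
      apply intervalIntegral.integral_congr
      intro x _
      show pp N (x + z.im * Complex.I) * Complex.exp (N * (q N (x + z.im * Complex.I) + k)) =
        Complex.exp (N * k) * (pp N (x + z.im * Complex.I) *
          Complex.exp (N * q N (x + z.im * Complex.I)))
      rw [mul_add, Complex.exp_add]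
      ring
    have h5 : ‖I1‖ = Real.exp (N * k) * ‖M N‖ := by
      rw [h4, norm_mul, Complex.norm_exp]
      congr 2
      simp
    rw [Real.dist_eq, abs_lt, lt_sub_iff_add_lt, lt_div_iff₀ hN', sub_lt_iff_lt_add,
      div_lt_iff₀ hN'] at h3
    have m1 := min_le_left ε (1 / 2)
    have m2 := min_le_right ε (1 / 2)
    have h6 : 0 < Real.log ‖I1‖ := by nlinarith [h3.1]
    have h7 : 0 < ‖I1‖ := by
      rcases (norm_nonneg I1).eq_or_lt with h | h
      · rw [← h, Real.log_zero] at h6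
        exact absurd h6 (lt_irrefl _)
      · exact h
    have h8 : 0 < ‖M N‖ := by
      rw [h5] at h7
      exact (pos_iff_pos_of_mul_pos h7).1 (Real.exp_pos _)
    have h9 : Real.log ‖I1‖ = N * k + Real.log ‖M N‖ := by
      rw [h5, Real.log_mul (Real.exp_ne_zero _) h8.ne', Real.log_exp]
    rw [← Real.log_le_iff_le_exp h8, ← Real.le_log_iff_exp_le h8]
    rw [h9, hk] at h3
    have m3 : (-(min ε (1 / 2)) + 1) * N ≥ (-ε + 1) * N :=
      mul_le_mul_of_nonneg_right (by linarith) hN'.le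
    have m4 : (min ε (1 / 2) + 1) * N ≤ (ε + 1) * N :=
      mul_le_mul_of_nonneg_right (by linarith) hN'.le
    constructor
    · nlinarith [h3.1]
    · nlinarith [h3.2]
  obtain ⟨d, hd⟩ : ∃ d : ℕ → ℂ, d = fun N => c N * Complex.exp (Complex.I * N * π) := ⟨_, rfl⟩
  have hd1 : ∀ N, ‖d N‖ = 1 := by
    intro N
    rw [hd]
    show ‖c N * Complex.exp (Complex.I * N * π)‖ = 1
    rw [norm_mul, hc1, one_mul, Complex.norm_exp]
    simp
  refine log_lim (M := fun N => d N * M N) (C := 16 * π * Real.exp z.im + 1) (κ := κ) hκ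
    (by positivity) ?_ ?_
  · intro ε hε
    filter_upwards [hMb ε hε] with N h1
    rw [norm_mul, hd1, one_mul]
    exact h1
  have hev : ∀ᶠ N : ℕ in atTop, (1 : ℝ) / N ≤ z.im := by
    have : Tendsto (fun N : ℕ => (1 : ℝ) / (N : ℝ)) atTop (𝓝 0) :=
      tendsto_const_div_atTop_nhds_zero_nat _
    exact (this.eventually_lt_const hz0).mono (fun N hN => hN.le)
  filter_upwards [hgd, hfar, hrem, hev, eventually_gt_atTop 0] with N h1 h2 h3 h4 h5
  have hN' : (0 : ℝ) < N := by exact_mod_cast h5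
  -- splitting
  have e1 : (upp (1 / N) fun φ => P N φ * kr N φ) =
      (upp (1 / N) fun φ => (P N φ - PL N φ) * kr N φ) + upp (1 / N) fun φ => PL N φ * kr N φ := by
    have k0 := upp_add (h := 1 / N) (f := fun φ => (P N φ - PL N φ) * kr N φ)
      (g := fun φ => PL N φ * kr N φ)
      (IntP_kr (g := fun φ => P N φ - PL N φ) h5 ((hP N).continuous.sub (hPL N).continuous))
      (IntP_kr h5 (hPL N).continuous)
    rw [← k0]
    congr 1
    funext φ
    ring
  rw [e1, shift h5 (hPL N) (hper N) h4]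
  obtain ⟨f, hf⟩ : ∃ f : ℝ → ℂ, f = fun x : ℝ => PL N (x + z.im * Complex.I) *
    kr N (x + z.im * Complex.I) := ⟨_, rfl⟩
  have hfc : Continuous f := by
    rw [hf]
    have c1 : Continuous fun x : ℝ => ((x : ℂ) + z.im * Complex.I) := by fun_prop
    refine ((hPL N).continuous.comp c1).mul ?_
    rw [continuous_iff_continuousAt]
    intro x
    have k1 : ContinuousAt (kr N) ((x : ℂ) + z.im * Complex.I) :=
      (kr_diff h5 (by rw [xy_im]; exact hz0)).continuousAt
    exact ContinuousAt.comp (f := fun x : ℝ => ((x : ℂ) + z.im * Complex.I)) (g := kr N) k1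
      c1.continuousAt
  have e2 : (∫ x in (-π)..π, PL N (x + z.im * Complex.I) * kr N (x + z.im * Complex.I)) =
      (∫ x in (-π)..(-ρ), f x) + (∫ x in (-ρ)..ρ, f x) + ∫ x in ρ..π, f x := by
    rw [intervalIntegral.integral_add_adjacent_intervals (hfc.intervalIntegrable _ _)
      (hfc.intervalIntegrable _ _), intervalIntegral.integral_add_adjacent_intervals
      (hfc.intervalIntegrable _ _) (hfc.intervalIntegrable _ _), hf]
  have e3 : (∫ x in (-ρ)..ρ, f x) = d N * M N := by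
    rw [hM]
    show _ = d N * ∫ x in (-ρ)..ρ, pp N (x + z.im * Complex.I) *
      Complex.exp (N * q N (x + z.im * Complex.I))
    rw [← intervalIntegral.integral_const_mul]
    apply intervalIntegral.integral_congr
    intro x hx
    rw [Set.uIcc_of_le (by linarith)] at hx
    have hin : ((x : ℂ) + z.im * Complex.I) ∈ Rz η (2 * ρ) (2 * τ) := by
      refine ⟨?_, ?_⟩
      · rw [xy_re]
        have : |x| ≤ ρ := abs_le.2 hx
        linarith
      · rw [xy_im]
        linarith [hz.2]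
    obtain ⟨w, hw⟩ : ∃ w : ℂ, w = (x : ℂ) + z.im * Complex.I := ⟨_, rfl⟩
    rw [← hw] at hin
    show f x = d N * (pp N ((x : ℂ) + z.im * Complex.I) *
      Complex.exp (N * q N ((x : ℂ) + z.im * Complex.I)))
    rw [hf]
    show PL N ((x : ℂ) + z.im * Complex.I) * kr N ((x : ℂ) + z.im * Complex.I) = _
    rw [← hw, h1.2 w hin, kr_eq, hd]
    show (c N * Complex.exp (N * g N w)) * (uu N w * pp N w) =
      c N * Complex.exp (Complex.I * N * π) * (pp N w * Complex.exp (N * q N w))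
    have e3 : Complex.exp (N * q N w) = Complex.exp (Complex.I * N * w) *
        Complex.exp (N * g N w) := by
      rw [hqe]
      unfold qz
      rw [← Complex.exp_add]
      congr 1
      ring
    have e4 : uu N w = Complex.exp (Complex.I * N * w) * Complex.exp (Complex.I * N * π) := by
      unfold uu
      rw [← Complex.exp_add]
      congr 1
      ring
    rw [e3, e4]
    ring
  have hb : ∀ x : ℝ, ρ ≤ |x| → |x| ≤ π → ‖f x‖ ≤ 8 * Real.exp z.im * Real.exp (N * (V - κ)) := by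
    intro x hx1 hx2
    rw [hf]
    show ‖PL N ((x : ℂ) + z.im * Complex.I) * kr N ((x : ℂ) + z.im * Complex.I)‖ ≤ _
    rw [norm_mul]
    have k1 := h2 x hx1 hx2
    have k2 := kr_bd h5 (H := z.im) (w := (x : ℂ) + z.im * Complex.I)
      (by rw [xy_im]; exact h4) (by rw [xy_im])
    rw [xy_im] at k2
    refine (mul_le_mul k1 k2 (norm_nonneg _) (Real.exp_pos _).le).trans ?_
    apply le_of_eq
    have : Real.exp (N * (V - κ)) = Real.exp (N * (V + z.im - κ)) * Real.exp (-(N * z.im)) := by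
      rw [← Real.exp_add]
      congr 1
      ring
    rw [this]
    ring
  have b1 : ‖∫ x in (-π)..(-ρ), f x‖ ≤ 8 * Real.exp z.im * Real.exp (N * (V - κ)) * π := by
    refine (intervalIntegral.norm_integral_le_of_norm_le_const (C := 8 * Real.exp z.im *
      Real.exp (N * (V - κ))) (by
      intro x hx
      rw [Set.uIoc_of_le (by linarith)] at hx
      have hx0 : x ≤ 0 := by linarith [hx.2]
      exact hb x (by rw [abs_of_nonpos hx0]; linarith [hx.2])
        (by rw [abs_of_nonpos hx0]; linarith [hx.1]))).trans ?_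
    apply mul_le_mul_of_nonneg_left _ (by positivity)
    rw [abs_of_nonneg (by linarith)]
    linarith
  have b2 : ‖∫ x in ρ..π, f x‖ ≤ 8 * Real.exp z.im * Real.exp (N * (V - κ)) * π := by
    refine (intervalIntegral.norm_integral_le_of_norm_le_const (C := 8 * Real.exp z.im *
      Real.exp (N * (V - κ))) (by
      intro x hx
      rw [Set.uIoc_of_le (by linarith)] at hx
      have hx0 : 0 ≤ x := by linarith [hx.1]
      exact hb x (by rw [abs_of_nonneg hx0]; linarith [hx.1])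
        (by rw [abs_of_nonneg hx0]; linarith [hx.2]))).trans ?_
    apply mul_le_mul_of_nonneg_left _ (by positivity)
    rw [abs_of_nonneg (by linarith)]
    linarith
  rw [e2, e3]
  have e4 : (upp (1 / N) fun φ => (P N φ - PL N φ) * kr N φ) +
      ((∫ x in (-π)..(-ρ), f x) + d N * M N + ∫ x in ρ..π, f x) - d N * M N =
      (upp (1 / N) fun φ => (P N φ - PL N φ) * kr N φ) +
        ((∫ x in (-π)..(-ρ), f x) + ∫ x in ρ..π, f x) := by ring
  rw [e4]
  refine (norm_add_le _ _).trans ?_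
  have k1 := norm_add_le (∫ x in (-π)..(-ρ), f x) (∫ x in ρ..π, f x)
  have k2 : (16 * π * Real.exp z.im + 1) * Real.exp (N * (V - κ)) =
      Real.exp (N * (V - κ)) + (8 * Real.exp z.im * Real.exp (N * (V - κ)) * π +
        8 * Real.exp z.im * Real.exp (N * (V - κ)) * π) := by ring
  rw [k2]
  linarith

end Pool.Agent.TH563.Z
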