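import Pool.Agent.TH563.Z.Stm
import Pool.Agent.TH219.J139

/-!
# Hubs of weight zero: the lower and the upper part of a step
-/

set_option autoImplicit false

namespace Pool.Agent.TH563.Z

open Finset Filter Topology Metric
open Pool.Agent.W711.HT hiding XX
open Pool.Agent.TH563.UV
open Pool.Agent.W398.HT (Rp_diff Rp_even)
open scoped Real

/-- the coefficients of a step -/
noncomputable def Md (a : ℤ) (X : ℕ → ℂ → ℂ) (N d : ℕ) : ℂ :=
  upp (1 / N) fun ψ => Ea a N ψ * X N ψ * Rp N d ψ * kr N ψ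

/-- the lower part of a step -/
noncomputable def stL (ε : ℝ) (a : ℤ) (X : ℕ → ℂ → ℂ) (N : ℕ) (φ : ℂ) : ℂ :=
  ∑ d ∈ range (cut ε N), Rp N d φ / (Sd N d : ℂ) ^ 4 * Md a X N d

lemma cut_le {ε : ℝ} (h1 : ε < 1 / 4) (N : ℕ) : cut ε N ≤ N := by
  unfold cut
  rw [Nat.ceil_le]
  have : (0 : ℝ) ≤ N := Nat.cast_nonneg N
  nlinarith

lemma cut_lb {ε : ℝ} (N d : ℕ) (h : cut ε N ≤ d) : (1 / 2 + ε) * (N : ℝ) ≤ d := by
  unfold cut at h
  exact (Nat.le_ceil _).trans (by exact_mod_cast h)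

theorem stp_split {ε : ℝ} (h1 : ε < 1 / 4) (a : ℤ) (X : ℕ → ℂ → ℂ)
    (hX : ∀ N, Differentiable ℂ (X N)) (N : ℕ) (φ : ℂ) :
    stp a X N φ = stL ε a X N φ +
      ∑ d ∈ Ico (cut ε N) N, Rp N d φ / (Sd N d : ℂ) ^ 4 * Md a X N d := by
  rw [Pool.Agent.W398.HT.stp_eq a X hX N φ]
  unfold stL Md
  rw [Finset.range_eq_Ico, Finset.range_eq_Ico,
    Finset.sum_Ico_consecutive _ (Nat.zero_le _) (cut_le h1 N)]

theorem stL_eq {ε : ℝ} (h1 : ε < 1 / 4) (a : ℤ) (X : ℕ → ℂ → ℂ)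
    (hX : ∀ N, Differentiable ℂ (X N)) (N : ℕ) (φ : ℂ) :
    stL ε a X N φ =
      upp (1 / N) fun ψ => Ea a N ψ * (X N ψ * kerL ε N ψ φ) * kr N ψ := by
  rcases Nat.eq_zero_or_pos N with h0 | hN
  · subst h0
    have hc : cut ε 0 = 0 := by unfold cut; simp
    unfold stL kerL
    rw [hc]
    simp [upp]
  have e1 : (fun ψ => Ea a N ψ * (X N ψ * kerL ε N ψ φ) * kr N ψ) = fun ψ =>
      ∑ d ∈ range N, (if d < cut ε N then Rp N d φ / (Sd N d : ℂ) ^ 4 else 0) *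
        (Ea a N ψ * X N ψ * Rp N d ψ * kr N ψ) := by
    funext ψ
    have e2 : ∑ d ∈ range N, (if d < cut ε N then Rp N d φ / (Sd N d : ℂ) ^ 4 else 0) *
        (Ea a N ψ * X N ψ * Rp N d ψ * kr N ψ) = ∑ d ∈ range (cut ε N),
          Rp N d φ / (Sd N d : ℂ) ^ 4 * (Ea a N ψ * X N ψ * Rp N d ψ * kr N ψ) := by
      rw [← Finset.sum_subset (Finset.range_mono (cut_le h1 N))]
      · refine Finset.sum_congr rfl fun d hd => ?_
        rw [if_pos (Finset.mem_range.1 hd)]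
      · intro d _ hd
        rw [Finset.mem_range] at hd
        rw [if_neg hd, zero_mul]
    rw [e2]
    unfold kerL
    rw [Finset.mul_sum, Finset.mul_sum, Finset.sum_mul]
    refine Finset.sum_congr rfl fun d _ => ?_
    ring
  rw [e1, Pool.Agent.W366.AX.upp_expand a (X N) (hX N) N hN]
  unfold stL Md
  rw [← Finset.sum_subset (Finset.range_mono (cut_le h1 N))]
  · refine Finset.sum_congr rfl fun d hd => ?_
    rw [if_pos (Finset.mem_range.1 hd)]
  · intro d _ hd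
    rw [Finset.mem_range] at hd
    rw [if_neg hd, zero_mul]

lemma stL_diff (ε : ℝ) (a : ℤ) (X : ℕ → ℂ → ℂ) (N : ℕ) : Differentiable ℂ (stL ε a X N) := by
  unfold stL
  apply Differentiable.fun_sum
  intro d _
  exact ((Rp_diff N d).div_const _).mul_const _

lemma stL_even (ε : ℝ) (a : ℤ) (X : ℕ → ℂ → ℂ) (N : ℕ) (φ : ℂ) :
    stL ε a X N (-φ) = stL ε a X N φ := by
  unfold stL
  refine Finset.sum_congr rfl fun d _ => ?_
  rw [Rp_even]

lemma Rp_per (N d : ℕ) (φ : ℂ) : Rp N d (φ + 2 * π) = Rp N d φ := by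
  unfold Rp
  refine Finset.prod_congr rfl fun j _ => ?_
  rw [Complex.cos_add_two_pi]

lemma stL_per (ε : ℝ) (a : ℤ) (X : ℕ → ℂ → ℂ) (N : ℕ) (φ : ℂ) :
    stL ε a X N (φ + 2 * π) = stL ε a X N φ := by
  unfold stL
  refine Finset.sum_congr rfl fun d _ => ?_
  rw [Rp_per]

lemma stp_per (a : ℤ) (X : ℕ → ℂ → ℂ) (hX : ∀ N, Differentiable ℂ (X N)) (N : ℕ) (φ : ℂ) :
    stp a X N (φ + 2 * π) = stp a X N φ := by
  rw [Pool.Agent.W398.HT.stp_eq a X hX, Pool.Agent.W398.HT.stp_eq a X hX]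
  refine Finset.sum_congr rfl fun d _ => ?_
  rw [Rp_per]

lemma kr_per (N : ℕ) (φ : ℂ) : kr N (φ + 2 * π) = kr N φ := by
  unfold kr
  have h1 : (N : ℂ) * (φ + 2 * π + π) / 2 = N * (φ + π) / 2 + N * π := by ring
  have h2 : Complex.cos (N * (φ + π) / 2 + N * π) ^ 2 = Complex.cos (N * (φ + π) / 2) ^ 2 := by
    rw [Complex.cos_add, Complex.sin_nat_mul_pi, mul_zero, sub_zero, mul_pow]
    have h3 : Complex.cos (N * (π : ℂ)) ^ 2 = 1 := by
      have := Complex.sin_sq_add_cos_sq (N * (π : ℂ))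
      rw [Complex.sin_nat_mul_pi] at this
      linear_combination this
    rw [h3, mul_one]
  rw [h1, h2, Complex.sin_add_two_pi]

lemma kr_odd (N : ℕ) (φ : ℂ) : kr N (-φ) = -kr N φ := by
  unfold kr
  have h1 : (N : ℂ) * (-φ + π) / 2 = -(N * (φ + π) / 2) + N * π := by ring
  have h2 : Complex.cos (-(N * (φ + π) / 2) + N * π) ^ 2 = Complex.cos (N * (φ + π) / 2) ^ 2 := by
    rw [Complex.cos_add, Complex.sin_nat_mul_pi, mul_zero, sub_zero, mul_pow, Complex.cos_neg]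
    have h3 : Complex.cos (N * (π : ℂ)) ^ 2 = 1 := by
      have := Complex.sin_sq_add_cos_sq (N * (π : ℂ))
      rw [Complex.sin_nat_mul_pi] at this
      linear_combination this
    rw [h3, mul_one]
  rw [h1, h2, Complex.sin_neg]
  ring

end Pool.Agent.TH563.Z
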