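import Pool.Agent.TH563.Z.CPZ
import Pool.Agent.TH563.Z.Low
import Pool.Agent.TH563.UV.StepU
import Pool.Agent.TH929.J29

/-!
# Hubs of weight zero: the children of the root
-/

set_option autoImplicit false
set_option maxHeartbeats 1000000

namespace Pool.Agent.TH563.Z

open Finset Filter Topology Metric
open Pool.Agent.W711.HT hiding XX
open Pool.Agent.TH563.UV
open Pool.Agent.W85.HT hiding Rc_mono
open Pool.Agent.W293.HT
open Pool.Agent.TH219.J139 (Ub Ub_diff Ub_even)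
open Pool.Agent.TH929.J29 (nat_exp_ev UN_bd UN_diff)
open scoped Real

/-- all that is needed about the function of a child of the hub -/
structure ChZ (η ε ρ' τ' κ x₀ δ ε₁ : ℝ) (s' : ℂ → ℂ → ℂ) (Y YL : ℕ → ℂ → ℂ) (f₀ : ℂ)
    (F' : ℂ → ℂ) : Prop where
  an : ∀ N, Differentiable ℂ (Y N)
  anL : ∀ N, Differentiable ℂ (YL N)
  ev : ∀ N φ, Y N (-φ) = Y N φ
  evL : ∀ N φ, YL N (-φ) = YL N φ
  per : ∀ N φ, Y N (φ + 2 * π) = Y N φ
  perL : ∀ N φ, YL N (φ + 2 * π) = YL N φ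
  Fan : DifferentiableOn ℂ F' (Rz η (3 * ρ') (3 * τ'))
  Fcl : ∀ φ ∈ Rz η (3 * ρ') (3 * τ'), ‖F' φ - f₀ - s' 0 φ‖ ≤ ε₁
  mw : MW YL F' (Rz η (2 * ρ') (2 * τ'))
  far : ∀ᶠ N : ℕ in atTop, ∀ x y : ℝ, ρ' ≤ |x| → |x| ≤ π → |y - η| ≤ 3 * τ' →
    ‖YL N (x + y * Complex.I)‖ ≤ Real.exp (N * (f₀.re + AA η - κ / 2))
  out : ∀ᶠ N : ℕ in atTop, ∀ x y : ℝ, x₀ ≤ |x| → |x| ≤ π → |y| ≤ 1 / N →
    ‖Y N (x + y * Complex.I)‖ ≤ Real.exp (N * (f₀.re + 2 * bet - δ)) ∧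
    ‖YL N (x + y * Complex.I)‖ ≤ Real.exp (N * (f₀.re + 2 * bet - δ))
  dec : ∃ M : ℕ → ℕ → ℂ, (∀ N φ, Y N φ = YL N φ +
      ∑ d ∈ Ico (cut ε N) N, Rp N d φ / (Sd N d : ℂ) ^ 4 * M N d) ∧
    ∀ ε' : ℝ, 0 < ε' → ∀ᶠ N : ℕ in atTop, ∀ d : ℕ, cut ε N ≤ d → d < N →
      ‖M N d‖ ≤ Sd N d ^ 2 * Real.exp (N * (f₀.re + ε'))

/-! ### Bounds on the real axis -/

/-- the bound of `X_N` near the real axis -/
def XB (X : ℕ → ℂ → ℂ) (f : ℝ) : Prop := ∀ ε : ℝ, 0 < ε → ∀ᶠ N : ℕ in atTop, ∀ x y : ℝ,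
  |x| ≤ π → |y| ≤ 1 / N → ‖X N (x + y * Complex.I)‖ ≤ Real.exp (N * (f + ε))

lemma xb_of {ρ τ κ c ε₀ : ℝ} {t : ℕ} {s dl : ℂ → ℂ → ℂ} (hK : KD ρ τ κ c s dl)
    {X : ℕ → ℂ → ℂ} {F : ℂ → ℂ} (hX : GoodU ρ τ κ ε₀ s t X F)
    (hre : ∀ x : ℝ, |x| ≤ ρ → (F x).re ≤ (F 0).re) : XB X (F 0).re := by
  intro ε hε
  have hκ := hK.hκ.1
  filter_upwards [X_nearU hK hX hre hε, hX.gl1] with N h1 h2 x y hx hy
  rcases le_total |x| ρ with h | h
  · exact h1 x y h hy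
  · refine (h2 x y h hx hy).trans (Real.exp_le_exp.2 ?_)
    apply mul_le_mul_of_nonneg_left _ (Nat.cast_nonneg N)
    have : 0 ≤ (t : ℝ) * (κ / 2) := by positivity
    linarith

lemma xb_ub (b : Bool) {X : ℕ → ℂ → ℂ} {f : ℝ} (h : XB X f) :
    XB (fun N ψ => Ub b N ψ * X N ψ) f := by
  intro ε hε
  filter_upwards [h (ε / 2) (by positivity), nat_exp_ev (show 0 < ε / 2 by positivity) 3 0,
    eventually_gt_atTop 0] with N h1 h2 h3 x y hx hy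
  have hN : (0 : ℝ) < N := by exact_mod_cast h3
  have hN1 : (1 : ℝ) ≤ N := by exact_mod_cast h3
  have k1 := h1 x y hx hy
  have k2 : ‖Ub b N (x + y * Complex.I)‖ ≤ 3 * N := by
    cases b with
    | false =>
      show ‖(1 : ℂ)‖ ≤ 3 * N
      rw [norm_one]
      linarith
    | true => exact UN_bd h3 hy
  rw [norm_mul]
  have k3 : 3 * (N : ℝ) ≤ Real.exp (ε / 2 * N) := by linarith
  refine (mul_le_mul (k2.trans k3) k1 (norm_nonneg _) (Real.exp_pos _).le).trans ?_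
  rw [← Real.exp_add]
  apply Real.exp_le_exp.2
  linarith

/-- bound of an integral over the path -/
lemma upp_all (a : ℤ) : ∃ C : ℝ, 0 < C ∧ ∀ᶠ N : ℕ in atTop, ∀ (f : ℂ → ℂ) (B : ℝ),
    Continuous f → (∀ x y : ℝ, |x| ≤ π → |y| ≤ 1 / N → ‖f (x + y * Complex.I)‖ ≤ B) →
    ‖upp (1 / N) fun ψ => Ea a N ψ * f ψ * kr N ψ‖ ≤ C * B := by
  obtain ⟨C, hC, h⟩ := upp_bd upb a
  refine ⟨2 * C, by positivity, ?_⟩
  have hπ := Real.pi_gt_three
  filter_upwards [h 1 one_pos (by linarith)] with N h1 f B hf hB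
  have := h1 f B B hf (fun x y hx hy => hB x y (by linarith) hy)
    (fun x y _ hx hy => hB x y hx hy)
  linarith

/-- bound of the kernel and of its lower part near the real axis -/
lemma ker_real {ρs : ℝ}
    (hB : ∀ ε : ℝ, 0 < ε → ∃ τ : ℝ, 0 < τ ∧ ∀ᶠ N : ℕ in atTop, ∀ d < N, ∀ x y : ℝ, |x| ≤ π →
      |y| ≤ τ → ‖Rp N d (x + y * Complex.I)‖ ≤
        Sd N d ^ 2 * Real.exp (N * (bet - c1 * min |x| ρs ^ 2 + ε))) {ε ε' : ℝ} (hε : ε < 1 / 4)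
    (hε' : 0 < ε') : ∀ᶠ N : ℕ in atTop, ∀ x y x' y' : ℝ, |x| ≤ π → |y| ≤ 1 / N → |x'| ≤ π →
      |y'| ≤ 1 / N →
      ‖Pool.Agent.W711.HT.ker N (x + y * Complex.I) (x' + y' * Complex.I)‖ ≤
        Real.exp (N * (2 * bet - c1 * min |x'| ρs ^ 2 + ε')) ∧
      ‖kerL ε N (x + y * Complex.I) (x' + y' * Complex.I)‖ ≤
        Real.exp (N * (2 * bet - c1 * min |x'| ρs ^ 2 + ε')) := by
  obtain ⟨τ, hτ, h⟩ := hB (ε' / 4) (by positivity)
  have hev : ∀ᶠ N : ℕ in atTop, (1 : ℝ) / N < τ := by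
    have : Tendsto (fun N : ℕ => (1 : ℝ) / (N : ℝ)) atTop (𝓝 0) :=
      tendsto_const_div_atTop_nhds_zero_nat _
    exact this.eventually_lt_const hτ
  filter_upwards [h, hev, nat_exp_ev (show 0 < ε' / 2 by positivity) 1 0,
    eventually_gt_atTop 0] with N h1 h2 h3 h4 x y x' y' hx hy hx' hy'
  have hN : (0 : ℝ) < N := by exact_mod_cast h4
  have hc1 : 0 < c1 := by unfold c1; positivity
  have hterm : ∀ d < N, ‖Rp N d (x + y * Complex.I) * Rp N d (x' + y' * Complex.I) /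
      (Sd N d : ℂ) ^ 4‖ ≤ Real.exp (N * (2 * bet - c1 * min |x'| ρs ^ 2 + ε' / 2)) := by
    intro d hd
    have hS := Pool.Agent.W469.HT.Mwk.Sd_pos hd
    have k1 := h1 d hd x y hx (by linarith)
    have k2 := h1 d hd x' y' hx' (by linarith)
    rw [norm_div, norm_mul, norm_pow, Complex.norm_real, Real.norm_eq_abs, abs_of_pos hS,
      div_le_iff₀ (by positivity)]
    refine (mul_le_mul k1 k2 (norm_nonneg _) (by positivity)).trans ?_
    have e1 : Sd N d ^ 2 * Real.exp (N * (bet - c1 * min |x| ρs ^ 2 + ε' / 4)) *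
        (Sd N d ^ 2 * Real.exp (N * (bet - c1 * min |x'| ρs ^ 2 + ε' / 4))) =
        Real.exp (N * (bet - c1 * min |x| ρs ^ 2 + ε' / 4) +
          N * (bet - c1 * min |x'| ρs ^ 2 + ε' / 4)) * Sd N d ^ 4 := by
      rw [Real.exp_add]
      ring
    rw [e1]
    apply mul_le_mul_of_nonneg_right _ (by positivity)
    apply Real.exp_le_exp.2
    have : 0 ≤ N * (c1 * min |x| ρs ^ 2) := by positivity
    linarith
  have hfin : ∀ M ≤ N, ‖∑ d ∈ range M, Rp N d (x + y * Complex.I) *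
      Rp N d (x' + y' * Complex.I) / (Sd N d : ℂ) ^ 4‖ ≤
      Real.exp (N * (2 * bet - c1 * min |x'| ρs ^ 2 + ε')) := by
    intro M hM
    refine (norm_sum_le _ _).trans ?_
    refine (Finset.sum_le_sum (fun d hd => hterm d
      ((Finset.mem_range.1 hd).trans_le hM))).trans ?_
    rw [Finset.sum_const, Finset.card_range, nsmul_eq_mul]
    have k3 : (M : ℝ) ≤ N := by exact_mod_cast hM
    have k4 : (M : ℝ) ≤ Real.exp (ε' / 2 * N) := by linarith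
    refine (mul_le_mul_of_nonneg_right k4 (Real.exp_pos _).le).trans ?_
    rw [← Real.exp_add]
    apply Real.exp_le_exp.2
    linarith
  exact ⟨hfin N le_rfl, hfin _ (cut_le hε N)⟩

lemma kerL_cont (ε : ℝ) (N : ℕ) (φ : ℂ) : Continuous fun ψ => kerL ε N ψ φ := by
  unfold kerL
  refine continuous_finsetSum _ fun d _ => ?_
  exact (((Pool.Agent.W398.HT.Rp_diff N d).continuous.mul continuous_const).div_const _)

lemma kerL_diff (ε : ℝ) (N : ℕ) (φ : ℂ) : Differentiable ℂ fun ψ => kerL ε N ψ φ := by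
  unfold kerL
  apply Differentiable.fun_sum
  intro d _
  exact ((Pool.Agent.W398.HT.Rp_diff N d).mul_const _).div_const _

lemma ev_mul (C : ℝ) {V A κ : ℝ} (hκ : 0 < κ) (h : A ≤ V - κ) :
    ∀ᶠ N : ℕ in atTop, C * Real.exp (N * A) ≤ Real.exp (N * V) := by
  filter_upwards [ev_exp hκ C] with N h1
  have e1 : Real.exp (N * A) ≤ Real.exp (N * (V - κ)) :=
    Real.exp_le_exp.2 (mul_le_mul_of_nonneg_left h (Nat.cast_nonneg N))
  have e2 : Real.exp (N * V) = Real.exp (κ * N) * Real.exp (N * (V - κ)) := by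
    rw [← Real.exp_add]
    congr 1
    ring
  rw [e2]
  refine (mul_le_mul_of_nonneg_right h1 (Real.exp_pos _).le).trans ?_
  exact mul_le_mul_of_nonneg_left e1 (Real.exp_pos _).le

section

variable {a : ℤ} {X : ℕ → ℂ → ℂ} {f : ℝ}

theorem child_far (hX : ∀ N, Differentiable ℂ (X N)) (hB : XB X f) {η ε ρ τ ρ' τ' κ c' : ℝ}
    {s' dl' : ℂ → ℂ → ℂ} (hZ : KDZ η ε ρ τ ρ' τ' κ c' s' dl') :
    ∀ᶠ N : ℕ in atTop, ∀ x' y' : ℝ, ρ' ≤ |x'| → |x'| ≤ π → |y' - η| ≤ 3 * τ' →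
      ‖stL ε a X N (x' + y' * Complex.I)‖ ≤ Real.exp (N * (f + AA η - κ / 2)) := by
  obtain ⟨C, hC, h⟩ := upp_all a
  have hκ := hZ.hκ.1
  filter_upwards [h, hB (κ / 8) (by positivity), hZ.farg,
    ev_mul C (V := f + AA η - κ / 2) (A := f + κ / 8 + (AA η - κ)) (κ := κ / 8)
      (by positivity) (by linarith)] with N h1 h2 h3 h4 x' y' hx1 hx2 hy
  rw [stL_eq hZ.hε.2 a X hX]
  refine (h1 (fun ψ => X N ψ * kerL ε N ψ (x' + y' * Complex.I))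
    (Real.exp (N * (f + κ / 8 + (AA η - κ)))) ((hX N).continuous.mul (kerL_cont ε N _)) ?_).trans h4
  intro x y hx hy'
  rw [norm_mul, mul_add, Real.exp_add]
  exact mul_le_mul (h2 x y hx hy') (h3 x y x' y' hx hy' hx1 hx2 hy) (norm_nonneg _)
    (Real.exp_pos _).le

theorem child_out (hX : ∀ N, Differentiable ℂ (X N)) (hB : XB X f) {ρs : ℝ} (hρs : 0 < ρs)
    (hbnd : ∀ ε : ℝ, 0 < ε → ∃ τ : ℝ, 0 < τ ∧ ∀ᶠ N : ℕ in atTop, ∀ d < N, ∀ x y : ℝ, |x| ≤ π →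
      |y| ≤ τ → ‖Rp N d (x + y * Complex.I)‖ ≤
        Sd N d ^ 2 * Real.exp (N * (bet - c1 * min |x| ρs ^ 2 + ε))) {ε x₀ δ : ℝ} (hε : ε < 1 / 4)
    (hx₀ : 0 < x₀) (hδ : δ < c1 * min x₀ ρs ^ 2) :
    ∀ᶠ N : ℕ in atTop, ∀ x' y' : ℝ, x₀ ≤ |x'| → |x'| ≤ π → |y'| ≤ 1 / N →
      ‖stp a X N (x' + y' * Complex.I)‖ ≤ Real.exp (N * (f + 2 * bet - δ)) ∧
      ‖stL ε a X N (x' + y' * Complex.I)‖ ≤ Real.exp (N * (f + 2 * bet - δ)) := by
  obtain ⟨C, hC, h⟩ := upp_all a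
  obtain ⟨g, hg⟩ : ∃ g : ℝ, g = (c1 * min x₀ ρs ^ 2 - δ) / 4 := ⟨_, rfl⟩
  have hg0 : 0 < g := by rw [hg]; linarith
  have hc1 : 0 < c1 := by unfold c1; positivity
  filter_upwards [h, hB g hg0, ker_real hbnd hε hg0,
    ev_mul C (V := f + 2 * bet - δ) (A := f + g + (2 * bet - c1 * min x₀ ρs ^ 2 + g)) (κ := g)
      hg0 (by linarith)] with N h1 h2 h3 h4 x' y' hx1 hx2 hy
  have hm : Real.exp (N * (2 * bet - c1 * min |x'| ρs ^ 2 + g)) ≤
      Real.exp (N * (2 * bet - c1 * min x₀ ρs ^ 2 + g)) := by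
    apply Real.exp_le_exp.2
    apply mul_le_mul_of_nonneg_left _ (Nat.cast_nonneg N)
    have h5 : min x₀ ρs ≤ min |x'| ρs := min_le_min_right _ hx1
    have h6 : 0 ≤ min x₀ ρs := (lt_min hx₀ hρs).le
    have h7 : min x₀ ρs ^ 2 ≤ min |x'| ρs ^ 2 := pow_le_pow_left₀ h6 h5 2
    have := mul_le_mul_of_nonneg_left h7 hc1.le
    linarith
  constructor
  · rw [Pool.Agent.W85.HT.stp_eq]
    refine (h1 (fun ψ => X N ψ * Pool.Agent.W711.HT.ker N ψ (x' + y' * Complex.I))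
      (Real.exp (N * (f + g + (2 * bet - c1 * min x₀ ρs ^ 2 + g))))
      ((hX N).continuous.mul (ker_diff N _).continuous) ?_).trans h4
    intro x y hx hy'
    rw [norm_mul, mul_add, Real.exp_add]
    exact mul_le_mul (h2 x y hx hy') ((h3 x y x' y' hx hy' hx2 hy).1.trans hm) (norm_nonneg _)
      (Real.exp_pos _).le
  · rw [stL_eq hε a X hX]
    refine (h1 (fun ψ => X N ψ * kerL ε N ψ (x' + y' * Complex.I))
      (Real.exp (N * (f + g + (2 * bet - c1 * min x₀ ρs ^ 2 + g))))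
      ((hX N).continuous.mul (kerL_cont ε N _)) ?_).trans h4
    intro x y hx hy'
    rw [norm_mul, mul_add, Real.exp_add]
    exact mul_le_mul (h2 x y hx hy') ((h3 x y x' y' hx hy' hx2 hy).2.trans hm) (norm_nonneg _)
      (Real.exp_pos _).le

theorem child_dec (hX : ∀ N, Differentiable ℂ (X N)) (hB : XB X f) (hH : S_HALF) {ε : ℝ}
    (hε : 0 < ε) : ∀ ε' : ℝ, 0 < ε' → ∀ᶠ N : ℕ in atTop, ∀ d : ℕ, cut ε N ≤ d → d < N →
      ‖Md a X N d‖ ≤ Sd N d ^ 2 * Real.exp (N * (f + ε')) := by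
  intro ε' hε'
  obtain ⟨C, hC, h⟩ := upp_all a
  obtain ⟨τ, hτ, hH⟩ := hH (ε' / 4) (by positivity)
  have hev : ∀ᶠ N : ℕ in atTop, (1 : ℝ) / N < τ := by
    have : Tendsto (fun N : ℕ => (1 : ℝ) / (N : ℝ)) atTop (𝓝 0) :=
      tendsto_const_div_atTop_nhds_zero_nat _
    exact this.eventually_lt_const hτ
  filter_upwards [h, hB (ε' / 4) (by positivity), hH, hev,
    ev_mul C (V := f + ε') (A := f + ε' / 4 + ε' / 4) (κ := ε' / 2) (by positivity)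
      (by linarith)] with N h1 h2 h3 h4 h5 d hd1 hd2
  have hS := Pool.Agent.W469.HT.Mwk.Sd_pos hd2
  have hd3 : (N : ℝ) / 2 ≤ d := by
    have k1 := cut_lb N d hd1
    have k2 : 0 ≤ ε * (N : ℝ) := by positivity
    linarith
  have e1 : Md a X N d = upp (1 / N) fun ψ => Ea a N ψ * (X N ψ * Rp N d ψ) * kr N ψ := by
    unfold Md
    congr 1
    funext ψ
    ring
  rw [e1]
  refine (h1 (fun ψ => X N ψ * Rp N d ψ)
    (Sd N d ^ 2 * Real.exp (N * (f + ε' / 4 + ε' / 4)))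
    ((hX N).continuous.mul (Pool.Agent.W398.HT.Rp_diff N d).continuous) ?_).trans ?_
  · intro x y hx hy
    have k1 := h2 x y hx hy
    have k2 := h3 d hd3 hd2 x y hx (by linarith)
    rw [norm_mul]
    refine (mul_le_mul k1 k2 (norm_nonneg _) (Real.exp_pos _).le).trans ?_
    apply le_of_eq
    have e2 : Real.exp (N * (f + ε' / 4 + ε' / 4)) =
        Real.exp (N * (f + ε' / 4)) * Real.exp (ε' / 4 * N) := by
      rw [← Real.exp_add]
      congr 1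
      ring
    rw [e2]
    ring
  · calc C * (Sd N d ^ 2 * Real.exp (N * (f + ε' / 4 + ε' / 4)))
        = Sd N d ^ 2 * (C * Real.exp (N * (f + ε' / 4 + ε' / 4))) := by ring
      _ ≤ Sd N d ^ 2 * Real.exp (N * (f + ε')) :=
        mul_le_mul_of_nonneg_left h5 (by positivity)

end

end Pool.Agent.TH563.Z
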