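import Pool.Agent.TH563.Z.ArbX
import Pool.Agent.TH563.Z.FinalX
import Pool.Agent.TH563.UV.ArbD

/-!
# Montesinos links and more general arborescent links which are mutants of their mirror images

If the children of the root are, up to their order, the mirror images of the children of the root
(and the weight of the root is `0`), the link is a mutant of its mirror image (for suitable orders it
is amphichiral), and its Kashaev invariants are real.
-/

set_option autoImplicit false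

namespace Pool.Agent.TH563.UV.Arb

/-- The children of the root, in their order. -/
def Tree.kids : Tree → List Tree
  | .single _ _ => []
  | .join t c => t.kids ++ [c]

end Pool.Agent.TH563.UV.Arb

namespace Pool.Agent.TH563.Z.Arb

open Finset Filter Topology
open Pool.Agent.TH563.UV.Arb
open Pool.Agent.TH563.UV (XX JT stpb Eb ngb kb)
open Pool.Agent.W711.HT (upp kr Ea vN)
open Pool.Agent.TH219.J139 (Ub Ub_conj Ub_even ngb_XX wt_ngb bl_ngb ne_ngb nb_ngb ws_ngb)
open Pool.Agent.W719.AX (EXY)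
open scoped Real

lemma kids_mirror (t : Tree) : t.mirror.kids = t.kids.map Tree.mirror := by
  induction t with
  | single b a => rfl
  | join t c iht _ => simp only [Tree.mirror, Tree.kids, iht, List.map_append, List.map_cons,
      List.map_nil]

lemma XX_kids (t : Tree) (N : ℕ) (ψ : ℂ) : XX (toTb t) N ψ =
    (t.kids.map fun c => stpb (toTb c).bl (toTb c).wt (XX (toTb c)) N ψ).prod := by
  induction t with
  | single b a => rfl
  | join t c iht _ =>
    show XX (toTb t) N ψ * stpb (toTb c).bl (toTb c).wt (XX (toTb c)) N ψ = _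
    rw [iht]
    simp only [Tree.kids, List.map_append, List.map_cons, List.map_nil, List.prod_append,
      List.prod_cons, List.prod_nil, mul_one]

lemma ws_kids (t : Tree) : (toTb t).ws = t.weight + (t.kids.map fun c => (toTb c).ws).sum := by
  induction t with
  | single b a => simp [toTb, Pool.Agent.TH563.UV.Tb.ws, Tree.weight, Tree.kids]
  | join t c iht _ =>
    show (toTb t).ws + (toTb c).ws = t.weight + ((t.kids ++ [c]).map fun c => (toTb c).ws).sum
    rw [iht]
    simp only [List.map_append, List.map_cons, List.map_nil, List.sum_append, List.sum_cons,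
      List.sum_nil]
    ring

lemma conj_JT (t : Pool.Agent.TH563.UV.Tb) (N : ℕ) :
    (starRingEnd ℂ) (JT t N) = (-1) ^ (t.ne + 1) * JT (ngb t) N := by
  have h0 : ∀ t : Pool.Agent.TH563.UV.Tb, JT t N =
      upp (1 / N) fun ψ => Ea t.wt N ψ * Ub t.bl N ψ * XX t N ψ * kr N ψ := by
    intro t
    unfold JT
    rfl
  rw [h0, h0, Pool.Agent.W366.AX.conj_upp]
  have h1 : (fun ψ => (starRingEnd ℂ) (Ea t.wt N (-(starRingEnd ℂ) ψ) *
      Ub t.bl N (-(starRingEnd ℂ) ψ) * XX t N (-(starRingEnd ℂ) ψ) *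
      kr N (-(starRingEnd ℂ) ψ))) = fun ψ => (-1) ^ (t.ne + 1) *
      (Ea (ngb t).wt N ψ * Ub (ngb t).bl N ψ * XX (ngb t) N ψ * kr N ψ) := by
    funext ψ
    rw [map_mul, map_mul, map_mul, Pool.Agent.W366.AX.conj_Ea, Pool.Agent.W366.AX.conj_kr, wt_ngb,
      bl_ngb, (Pool.Agent.TH219.J139.XX_diff t).2, Ub_even, Ub_conj, ngb_XX t N ψ, pow_succ]
    have h2 : ((-1 : ℂ) ^ t.ne) * (-1) ^ t.ne = 1 := by
      rw [← mul_pow]; norm_num
    linear_combination (-(Ea (-t.wt) N ψ * Ub t.bl N ψ *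
      (starRingEnd ℂ) (XX t N ((starRingEnd ℂ) ψ)) * kr N ψ)) * (1 - h2)
  rw [h1]
  unfold upp
  simp only [intervalIntegral.integral_const_mul]
  ring

lemma JT_mirror {t : Tree} (hb : t.circle = false) (hw : t.weight = 0)
    (hp : (t.kids.map Tree.mirror).Perm t.kids) (N : ℕ) :
    JT (ngb (toTb t)) N = JT (toTb t) N := by
  have hX : ∀ ψ, XX (ngb (toTb t)) N ψ = XX (toTb t) N ψ := by
    intro ψ
    rw [← mirror_toTb, XX_kids, XX_kids, kids_mirror]
    exact (hp.map _).prod_eq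
  have hwt : (ngb (toTb t)).wt = (toTb t).wt := by
    rw [wt_ngb, wt_to, hw, neg_zero]
  unfold JT
  rw [bl_ngb, hwt]
  congr 1
  funext ψ
  rw [hX]

lemma ws_mirror {t : Tree} (hw : t.weight = 0)
    (hp : (t.kids.map Tree.mirror).Perm t.kids) : (toTb t).ws = 0 := by
  have h1 := ws_ngb (toTb t)
  have hw' : t.mirror.weight = 0 := by
    rw [← wt_to, mirror_toTb, wt_ngb, wt_to, hw, neg_zero]
  have h2 : (ngb (toTb t)).ws = (toTb t).ws := by
    rw [← mirror_toTb, ws_kids, ws_kids, kids_mirror, hw, hw']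
    congr 1
    exact (hp.map fun c => (toTb c).ws).sum_eq
  omega

/-- The Kashaev invariants, with the framing corrected at the circles, are real. -/
theorem real_of_perm {t : Tree} (hb : t.circle = false) (hw : t.weight = 0)
    (hp : (t.kids.map Tree.mirror).Perm t.kids) (f : ℤ) (N : ℕ) (hN : 2 ≤ N) :
    ∃ r : ℝ, kashaev (2 * t.circles) f t N = r := by
  have hN0 : (N : ℂ) ≠ 0 := by exact_mod_cast (by omega : N ≠ 0)
  have h1 : jones t N (root N) = _ :=
    (jones_to t N ▸ (Pool.Agent.TH639.J28.rtb (toTb t) N hN).2 :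
      jones t N (vN N) = (-1) ^ ((N - 1) * (toTb t).ne) *
        (Complex.I * N ^ 2 / (2 * π)) ^ ((toTb t).ne + 1) *
        Pool.Agent.W719.AR.kp N ^ (toTb t).ws * kb N ^ (toTb t).nb * JT (toTb t) N)
  have h2 : kb N ^ (toTb t).nb * root N ^ ((2 * (t.circles : ℤ)) * ((N : ℤ) ^ 2 - 1)) = 1 := by
    rw [circles_to]
    unfold kb root
    rw [← Complex.exp_nat_mul, ← Complex.exp_int_mul, ← Complex.exp_add]
    have h3 : ((t.circles : ℂ) * (2 * π * Complex.I / N) +
        (((2 * (t.circles : ℤ)) * ((N : ℤ) ^ 2 - 1) : ℤ) : ℂ) * (π * Complex.I / N)) =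
        ((t.circles * N : ℤ) : ℂ) * (2 * π * Complex.I) := by
      push_cast
      field_simp
      ring
    rw [h3]
    exact Complex.exp_int_mul_two_pi_mul_I _
  obtain ⟨n, hn⟩ : ∃ n : ℕ, n = (toTb t).ne := ⟨_, rfl⟩
  obtain ⟨Z, hZ⟩ : ∃ Z : ℂ, Z = Complex.I ^ (n + 1) * JT (toTb t) N := ⟨_, rfl⟩
  have hZr : (starRingEnd ℂ) Z = Z := by
    rw [hZ, map_mul, conj_JT, JT_mirror hb hw hp, map_pow, Complex.conj_I, ← hn]
    have : (-Complex.I) ^ (n + 1) * ((-1) ^ (n + 1) * JT (toTb t) N) =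
        ((-Complex.I) * (-1)) ^ (n + 1) * JT (toTb t) N := by
      rw [mul_pow]
      ring
    rw [this]
    congr 2
    ring
  have hZ2 : Z = (Z.re : ℂ) := (Complex.conj_eq_iff_re.1 hZr).symm
  refine ⟨(-1) ^ (f * ((N : ℤ) - 1)) * ((-1) ^ ((N - 1) * n) *
    ((N : ℝ) ^ 2 / (2 * π)) ^ (n + 1)) * Z.re, ?_⟩
  unfold kashaev
  rw [h1, ws_mirror hw hp, zpow_zero, mul_one, ← hn]
  have h4 : (Complex.I * (N : ℂ) ^ 2 / (2 * π)) ^ (n + 1) =
      Complex.I ^ (n + 1) * ((N : ℂ) ^ 2 / (2 * π)) ^ (n + 1) := by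
    rw [mul_div_assoc, mul_pow]
  rw [h4]
  push_cast
  rw [← hZ2, hZ]
  linear_combination ((-1 : ℂ) ^ (f * ((N : ℤ) - 1)) * (-1) ^ ((N - 1) * n) *
    (Complex.I ^ (n + 1) * ((N : ℂ) ^ 2 / (2 * π)) ^ (n + 1)) * JT (toTb t) N) * h2

/-- expansions of real sequences -/
lemma exy_real {a : ℕ → ℂ} {v : ℝ} {y : ℕ → ℂ} (hy : y 0 ≠ 0) (h : EXY a (v : ℂ) y)
    (ha : ∀ᶠ N : ℕ in atTop, ∃ r : ℝ, a N = r) :
    ∃ x : ℕ → ℝ, x 0 ≠ 0 ∧ EXY a (v : ℂ) (fun k => (x k : ℂ)) := by
  have hre : ∀ᶠ N : ℕ in atTop, (a N / (((Real.sqrt N) ^ 3 : ℝ) * Complex.exp (N * (v : ℂ)))).im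
      = 0 := by
    filter_upwards [ha] with N hN
    obtain ⟨r, hr⟩ := hN
    rw [hr]
    have e : (r : ℂ) / (((Real.sqrt N) ^ 3 : ℝ) * Complex.exp (N * (v : ℂ))) =
        ((r / ((Real.sqrt N) ^ 3 * Real.exp (N * v)) : ℝ) : ℂ) := by
      push_cast
      rfl
    rw [e, Complex.ofReal_im]
  have hlim : Tendsto (fun N : ℕ => a N / (((Real.sqrt N) ^ 3 : ℝ) * Complex.exp (N * (v : ℂ))))
      atTop (𝓝 (y 0)) := by
    obtain ⟨C, hC⟩ := h 1
    rw [tendsto_iff_norm_sub_tendsto_zero]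
    refine squeeze_zero' (Eventually.of_forall fun _ => norm_nonneg _) (hC.mono fun N hN => ?_)
      (tendsto_const_div_atTop_nhds_zero_nat C)
    rw [Finset.sum_range_one, pow_zero, div_one, pow_one] at hN
    exact hN
  have him : (y 0).im = 0 := by
    have h1 := (Complex.continuous_im.tendsto (y 0)).comp hlim
    refine tendsto_nhds_unique h1 ?_
    refine tendsto_const_nhds.congr' ?_
    filter_upwards [hre] with N hN
    exact hN.symm
  refine ⟨fun k => (y k).re, ?_, ?_⟩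
  · intro h0
    exact hy (Complex.ext h0 him)
  · intro K
    obtain ⟨C, hC⟩ := h K
    refine ⟨C, ?_⟩
    filter_upwards [hC, hre] with N h1 h2
    refine le_trans ?_ h1
    obtain ⟨A, hA⟩ : ∃ A : ℂ, A = a N / (((Real.sqrt N) ^ 3 : ℝ) * Complex.exp (N * (v : ℂ))) :=
      ⟨_, rfl⟩
    rw [← hA] at h2 ⊢
    have e1 : A - ∑ k ∈ range K, ((y k).re : ℂ) / (N : ℂ) ^ k =
        (((A - ∑ k ∈ range K, y k / (N : ℂ) ^ k).re : ℝ) : ℂ) := by
      rw [Complex.sub_re, Complex.re_sum]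
      push_cast
      have e2 : A = (A.re : ℂ) := Complex.ext (by simp) (by simp [h2])
      rw [← e2]
      congr 1
      refine Finset.sum_congr rfl fun k _ => ?_
      have e3 : (N : ℂ) ^ k = (((N : ℝ) ^ k : ℝ) : ℂ) := by push_cast; rfl
      rw [e3, Complex.div_ofReal_re]
      push_cast
      rfl
    rw [e1, Complex.norm_real, Real.norm_eq_abs]
    exact Complex.abs_re_le_norm _

lemma div_eq_iff_help {s c a d : ℂ} (hs : s * s = 1) : c * s * a / d = c * (a / (s * d)) := by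
  have hs0 : s ≠ 0 := by
    rintro rfl
    simp at hs
  rcases eq_or_ne d 0 with rfl | hd
  · simp
  · field_simp
    linear_combination (c * a) * hs

/-- The expansion to all orders of the Kashaev invariants of arborescent links with a vertex of
weight `0` and at least three neighbours (the root), all other vertices being large; and its real
growth rate if the children of the root are, up to order, the mirror images of the children. -/
theorem mainXD : ∃ K : ℕ, ∀ t : Tree, t.circle = false →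
    t.weight = 0 → 3 ≤ t.children → t.LargeBelow K →
    (∀ N : ℕ, ContinuousAt (jones t N) (root N)) ∧
    ∃ V : ℝ, IsGreatest {W : ℝ | ∃ y : AngleTree, y.tree = t ∧ IsAngle y ∧ vol y = W} V ∧
      (∀ e f : ℤ, ∃ (v : ℂ) (y : ℕ → ℂ), 2 * Real.pi * v.re = V ∧ y 0 ≠ 0 ∧
        EXY (kashaev e f t) v y) ∧
      ((t.kids.map Tree.mirror).Perm t.kids → ∃ (f : ℤ) (x : ℕ → ℝ), x 0 ≠ 0 ∧
        (∀ N : ℕ, 2 ≤ N → ∃ r : ℝ, kashaev (2 * t.circles) f t N = r) ∧
        EXY (kashaev (2 * t.circles) f t) ((V / (2 * Real.pi) : ℝ) : ℂ)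
          (fun k => (x k : ℂ))) := by
  obtain ⟨K, hK⟩ := mainX Pool.Agent.TH563.Z.f_finjx
  refine ⟨K, fun t hb hw hc ht => ?_⟩
  obtain ⟨h1, V, h2, h3⟩ := hK t hb hw hc ht
  refine ⟨h1, V, h2, h3, fun hp => ?_⟩
  obtain ⟨v, y, hv, hy, h⟩ := h3 (2 * t.circles) 0
  have hreal := real_of_perm hb hw hp
  -- the ratios are real
  have hrat := (Pool.Agent.W460.AX.rat _ v y hy h).2.1
  have him : (Complex.exp v).im = 0 := by
    have g1 := (Complex.continuous_im.tendsto _).comp hrat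
    refine tendsto_nhds_unique g1 ?_
    refine tendsto_const_nhds.congr' ?_
    filter_upwards [eventually_ge_atTop 2] with N hN
    obtain ⟨r, hr⟩ := hreal 0 N hN
    obtain ⟨r', hr'⟩ := hreal 0 (N + 1) (by omega)
    show (0 : ℝ) = (kashaev (2 * t.circles) 0 t (N + 1) / kashaev (2 * t.circles) 0 t N).im
    rw [hr, hr', ← Complex.ofReal_div, Complex.ofReal_im]
  obtain ⟨m, hm⟩ : ∃ m : ℤ, (m : ℝ) * π = v.im := by
    rw [Complex.exp_im] at him
    have : Real.sin v.im = 0 := by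
      rcases mul_eq_zero.1 him with h0 | h0
      · exact absurd h0 (Real.exp_pos _).ne'
      · exact h0
    exact Real.sin_eq_zero_iff.1 this
  have hvre : v.re = V / (2 * π) := by
    rw [← hv]
    field_simp
  have hv2 : v = ((V / (2 * π) : ℝ) : ℂ) + π * Complex.I * m := by
    rw [← hvre]
    conv_lhs => rw [← Complex.re_add_im v, ← hm]
    push_cast
    ring
  -- correct the sign
  have hE : EXY (kashaev (2 * t.circles) m t) ((V / (2 * π) : ℝ) : ℂ)
      (fun k => (-1) ^ m * y k) := by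
    intro K
    obtain ⟨C, hC⟩ := h K
    refine ⟨C, ?_⟩
    filter_upwards [hC] with N hN
    have e1 : kashaev (2 * t.circles) m t N = (-1) ^ m * (-1) ^ (m * (N : ℤ)) *
        kashaev (2 * t.circles) 0 t N := by
      unfold kashaev
      rw [zero_mul, zpow_zero, one_mul, ← zpow_add₀ (by norm_num : (-1 : ℂ) ≠ 0)]
      have e2 : (-1 : ℂ) ^ (m * ((N : ℤ) - 1)) = (-1) ^ (m + m * (N : ℤ)) := by
        have e3 : m + m * (N : ℤ) = m * ((N : ℤ) - 1) + 2 * m := by ring
        rw [e3, zpow_add₀ (by norm_num : (-1 : ℂ) ≠ 0), _root_.zpow_mul (-1 : ℂ) 2 m]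
        norm_num
      rw [e2]
      ring
    have e4 : Complex.exp (N * v) = (-1) ^ (m * (N : ℤ)) *
        Complex.exp (N * ((V / (2 * π) : ℝ) : ℂ)) := by
      have e5 : (-1 : ℂ) ^ (m * (N : ℤ)) = Complex.exp (N * (π * Complex.I * m)) := by
        rw [← Complex.exp_pi_mul_I, ← Complex.exp_int_mul]
        congr 1
        push_cast
        ring
      rw [e5, ← Complex.exp_add]
      congr 1
      rw [hv2]
      ring
    have hs : ((-1 : ℂ) ^ (m * (N : ℤ))) * (-1) ^ (m * (N : ℤ)) = 1 := by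
      rw [← zpow_add₀ (by norm_num : (-1 : ℂ) ≠ 0), ← two_mul, _root_.zpow_mul (-1 : ℂ) 2]
      norm_num
    have hs0 : ((-1 : ℂ) ^ (m * (N : ℤ))) ≠ 0 := zpow_ne_zero _ (by norm_num)
    have e6 : kashaev (2 * t.circles) m t N / (((Real.sqrt N) ^ 3 : ℝ) *
        Complex.exp (N * ((V / (2 * π) : ℝ) : ℂ))) -
        ∑ k ∈ range K, (fun k => (-1 : ℂ) ^ m * y k) k / (N : ℂ) ^ k =
        (-1) ^ m * (kashaev (2 * t.circles) 0 t N / (((Real.sqrt N) ^ 3 : ℝ) *
          Complex.exp (N * v)) - ∑ k ∈ range K, y k / (N : ℂ) ^ k) := by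
      rw [e1, e4, mul_sub, Finset.mul_sum]
      congr 1
      · have e7 : (((Real.sqrt N) ^ 3 : ℝ) : ℂ) * ((-1) ^ (m * (N : ℤ)) *
            Complex.exp (N * ((V / (2 * π) : ℝ) : ℂ))) = (-1) ^ (m * (N : ℤ)) *
            ((((Real.sqrt N) ^ 3 : ℝ) : ℂ) * Complex.exp (N * ((V / (2 * π) : ℝ) : ℂ))) := by
          ring
        rw [e7, div_eq_iff_help hs]
      · refine Finset.sum_congr rfl fun k _ => ?_
        ring
    rw [e6, norm_mul, norm_zpow, norm_neg, norm_one, one_zpow, one_mul]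
    exact hN
  have hy' : (fun k => (-1 : ℂ) ^ m * y k) 0 ≠ 0 :=
    mul_ne_zero (zpow_ne_zero _ (by norm_num)) hy
  obtain ⟨x, hx0, hx⟩ := exy_real hy' hE (by
    filter_upwards [eventually_ge_atTop 2] with N hN
    exact hreal m N hN)
  exact ⟨m, x, hx0, hreal m, hx⟩

end Pool.Agent.TH563.Z.Arb
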