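import Pool.Agent.TH563.Z.MainZ
import Pool.Agent.TH563.UV.Final
import Pool.Agent.W460.AX.RAT
import Pool.Agent.TH596.J367

/-!
# Hubs of weight zero: the growth rate is the maximal volume
-/

set_option autoImplicit false

namespace Pool.Agent.TH563.Z

open Finset Filter Topology Metric
open Pool.Agent.W711.HT hiding XX
open Pool.Agent.TH563.UV
open scoped Real

lemma norm_kp {N : ℕ} (hN : 0 < N) : ‖Pool.Agent.W719.AR.kp N‖ = 1 := by
  unfold Pool.Agent.W719.AR.kp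
  have hN0 : (N : ℂ) ≠ 0 := by exact_mod_cast hN.ne'
  have e : -(Complex.I * π * N / 4) + 3 * π * Complex.I / (4 * N) =
      ((-(π * N / 4) + 3 * π / (4 * N) : ℝ) : ℂ) * Complex.I := by
    push_cast
    field_simp
  rw [e, norm_mul, Complex.norm_exp_ofReal_mul_I, norm_neg, Complex.norm_I, mul_one]

lemma norm_kb (N : ℕ) : ‖kb N‖ = 1 := by
  unfold kb
  have e : 2 * π * Complex.I / N = ((2 * π / N : ℝ) : ℂ) * Complex.I := by
    push_cast
    ring
  rw [e, Complex.norm_exp_ofReal_mul_I]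

lemma norm_jt (t : Tb) {N : ℕ} (hN : 2 ≤ N) :
    ‖jt t N (vN N)‖ = ((N : ℝ) ^ 2 / (2 * π)) ^ (t.ne + 1) * ‖JT t N‖ := by
  rw [(Pool.Agent.TH639.J28.rtb t N hN).2]
  have e1 : ‖Complex.I * (N : ℂ) ^ 2 / (2 * π)‖ = (N : ℝ) ^ 2 / (2 * π) := by
    rw [norm_div, norm_mul, Complex.norm_I, one_mul, norm_pow, Complex.norm_natCast]
    congr 1
    have : (2 * π : ℂ) = ((2 * π : ℝ) : ℂ) := by push_cast; rfl
    rw [this, Complex.norm_real, Real.norm_eq_abs, abs_of_pos Real.two_pi_pos]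
  rw [norm_mul, norm_mul, norm_mul, norm_mul, norm_pow, norm_neg, norm_one, one_pow, one_mul,
    norm_pow, e1, norm_zpow, norm_kp (by omega), one_zpow, norm_pow, norm_kb, one_pow, mul_one,
    mul_one]

/-- from the iterated integral to the invariant -/
theorem log_jt (t : Tb) {V : ℝ}
    (h : Tendsto (fun N : ℕ => 2 * π * (Real.log ‖JT t N‖ / N)) atTop (𝓝 V)) :
    Tendsto (fun N : ℕ => 2 * π * (Real.log ‖jt t N (vN N)‖ / N)) atTop (𝓝 V) := by
  have hlog : Tendsto (fun N : ℕ => Real.log N / N) atTop (𝓝 0) := by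
    have := (Real.isLittleO_log_id_atTop).tendsto_div_nhds_zero
    exact this.comp tendsto_natCast_atTop_atTop
  have hpi : (0 : ℝ) < 2 * π := Real.two_pi_pos
  obtain ⟨K, hK⟩ : ∃ K : ℝ, K = 2 * π * (t.ne + 1 : ℕ) := ⟨_, rfl⟩
  have hb : Tendsto (fun N : ℕ => K * ((2 * Real.log N + |Real.log (2 * π)|) / N)) atTop (𝓝 0) := by
    have e1 : (fun N : ℕ => K * ((2 * Real.log N + |Real.log (2 * π)|) / N)) =
        fun N : ℕ => K * (2 * (Real.log N / N) + |Real.log (2 * π)| * ((N : ℝ))⁻¹) := by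
      funext N
      ring
    rw [e1]
    have h0 : Tendsto (fun N : ℕ => ((N : ℝ))⁻¹) atTop (𝓝 0) := tendsto_inv_atTop_nhds_zero_nat
    simpa using ((hlog.const_mul 2).add (h0.const_mul _)).const_mul K
  have hd : Tendsto (fun N : ℕ => 2 * π * (Real.log ‖jt t N (vN N)‖ / N) -
      2 * π * (Real.log ‖JT t N‖ / N)) atTop (𝓝 0) := by
    refine squeeze_zero_norm' ?_ hb
    filter_upwards [eventually_ge_atTop 2] with N hN
    have hN1 : (2 : ℝ) ≤ N := by exact_mod_cast hN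
    have hN0 : (0 : ℝ) < N := by linarith
    rw [norm_jt t hN]
    have hlN : 0 ≤ Real.log N := Real.log_nonneg (by linarith)
    have hK0 : 0 ≤ K := by rw [hK]; positivity
    rcases eq_or_ne (‖JT t N‖) 0 with hz | hz
    · rw [hz, mul_zero]
      simp only [Real.log_zero, zero_div, mul_zero, sub_self, norm_zero]
      positivity
    · have hfac : ((N : ℝ) ^ 2 / (2 * π)) ≠ 0 := by positivity
      rw [Real.log_mul (pow_ne_zero _ hfac) hz, Real.log_pow, Real.log_div (by positivity) hpi.ne',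
        Real.log_pow]
      have e2 : 2 * π * ((((t.ne + 1 : ℕ) : ℝ) * ((2 : ℕ) * Real.log N - Real.log (2 * π)) +
          Real.log ‖JT t N‖) / N) - 2 * π * (Real.log ‖JT t N‖ / N) =
          K * ((2 * Real.log N - Real.log (2 * π)) / N) := by
        rw [hK]
        push_cast
        ring
      rw [e2, Real.norm_eq_abs, abs_mul, abs_div, abs_of_pos hN0, abs_of_nonneg hK0]
      apply mul_le_mul_of_nonneg_left _ hK0
      apply div_le_div_of_nonneg_right _ hN0.le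
      calc |2 * Real.log N - Real.log (2 * π)| ≤ |2 * Real.log N| + |Real.log (2 * π)| :=
            abs_sub _ _
        _ = _ := by rw [abs_of_nonneg (by positivity : (0 : ℝ) ≤ 2 * Real.log N)]
  have := h.add hd
  simpa using this

/-- the growth rate of the invariants is the maximal volume -/
def S_FINJ : Prop := ∃ K : ℝ, 0 < K ∧ ∀ t : Tb, t.Below K → t.bl = false → t.wt = 0 →
  3 ≤ t.nc → ∃ V : ℝ,
    IsGreatest {W : ℝ | ∃ y : AB, y.shape = t ∧ y.IsAng ∧ y.vol = W} V ∧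
    Tendsto (fun N : ℕ => 2 * π * (Real.log ‖jt t N (vN N)‖ / N)) atTop (𝓝 V)

theorem shape_nc (p : PB) : p.shape.nc = p.nc := by
  induction p with
  | vx b a z => rfl
  | br t c iht _ => simpa [PB.shape, Tb.nc, PB.nc] using iht

theorem finz (hM : S_MAINZ) (hG : S_GEOZ) : S_FINJ := by
  obtain ⟨ρ, τ, κ, c, s, dl, hKD, hM⟩ := hM
  obtain ⟨K₀, hK₀, hU⟩ := f_FINB
  -- every single `k`
  have hk : ∀ k : ℕ, 3 ≤ k → ∃ K : ℝ, 0 < K ∧ ∀ t : Tb, t.Below K → t.bl = false → t.wt = 0 →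
      t.nc = k → ∃ V : ℝ,
        IsGreatest {W : ℝ | ∃ y : AB, y.shape = t ∧ y.IsAng ∧ y.vol = W} V ∧
        Tendsto (fun N : ℕ => 2 * π * (Real.log ‖jt t N (vN N)‖ / N)) atTop (𝓝 V) := by
    intro k hk
    obtain ⟨r, c', C, s', dl', hS, hM⟩ := hM k hk
    by_cases hadm : Adm (et k)
    · obtain ⟨g, hg, hG⟩ := hG ρ τ κ c s dl hKD (et k) r c' C s' dl' hadm hS
      obtain ⟨K, hK, hM⟩ := hM g hg
      refine ⟨K, hK, fun t hB hb hw hn => ?_⟩
      obtain ⟨p, hp1, hp2, hp3, hp4, hp5, hlim⟩ := hM t hB hb hw hn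
      have hpb : p.bl = false := by rw [← pb_bl p, hp1, hb]
      have hpw : p.wt = 0 := by rw [← pb_wt p, hp1, hw]
      have hpn : 1 ≤ p.nc := by rw [← shape_nc p, hp1, hn]; omega
      have h1 := hG p hp2 hpb hpw hp3 hp4 hp5 hpn
      rw [hp1] at h1
      exact ⟨_, h1, log_jt t hlim⟩
    · exact absurd hadm (by
        intro h
        exact h (Pool.Agent.TH596.J367.ineq k hk).1)
  choose! Kf hKf using hk
  obtain ⟨n₀, hn₀⟩ := exists_nat_ge K₀
  refine ⟨K₀ + ∑ k ∈ Ico 3 n₀, Kf k, ?_, ?_⟩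
  · have : 0 ≤ ∑ k ∈ Ico 3 n₀, Kf k :=
      Finset.sum_nonneg fun k hk => (hKf k (Finset.mem_Ico.1 hk).1).1.le
    linarith
  · intro t hB hb hw hn
    rcases lt_or_ge t.nc n₀ with h | h
    · refine (hKf t.nc hn).2 t (below_mono (hKf t.nc hn).1.le ?_ t hB) hb hw rfl
      have h1 : Kf t.nc ≤ ∑ k ∈ Ico 3 n₀, Kf k :=
        Finset.single_le_sum (f := Kf) (fun k hk => (hKf k (Finset.mem_Ico.1 hk).1).1.le)
          (Finset.mem_Ico.2 ⟨hn, h⟩)
      linarith
    · have h0 : 0 ≤ ∑ k ∈ Ico 3 n₀, Kf k :=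
        Finset.sum_nonneg fun k hk => (hKf k (Finset.mem_Ico.1 hk).1).1.le
      have hbig : Tb.BigV K₀ t.bl t.nc t.wt := by
        intro _
        have h5 : K₀ ≤ t.nc := hn₀.trans (by exact_mod_cast h)
        have h6 : K₀ ^ 2 ≤ (t.nc : ℝ) ^ 2 := pow_le_pow_left₀ hK₀.le h5 2
        have h7 : (0 : ℝ) ≤ (t.wt : ℝ) ^ 2 := by positivity
        linarith
      obtain ⟨V, v, y, h1, h2, h3, h4⟩ := hU t ⟨below_mono hK₀.le (by linarith) t hB, hbig⟩
        (by omega)
      obtain ⟨-, -, -, r4, -⟩ := Pool.Agent.W460.AX.rat _ v y h3 h4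
      exact ⟨V, h1, by rw [← h2]; exact r4⟩

end Pool.Agent.TH563.Z
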