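import Pool.Agent.TH563.Z.MainX
import Pool.Agent.TH563.Z.FinZ
import Pool.Agent.TH563.UV.Arb

/-!
# Hubs of weight zero: the expansion of the invariants
-/

set_option autoImplicit false

namespace Pool.Agent.TH563.Z

open Finset Filter Topology Metric
open Pool.Agent.W711.HT hiding XX
open Pool.Agent.TH563.UV
open Pool.Agent.W719.AR (kp)
open Pool.Agent.W719.AX (UX EXY cv)
open scoped Real

/-- from the expansion of the iterated integral to the invariant -/
theorem exy_of_ux (t : Tb) {v' : ℂ} {y' : ℕ → ℂ} (hy0 : y' 0 ≠ 0)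
    (hux : UX (fun N (_ : Unit) => (N : ℂ) ^ (2 * t.ne) * (Real.sqrt N : ℂ) *
      (-1) ^ (N * (t.ne + 1)) * Complex.exp (-(N * v')) * JT t N) (fun k _ => y' k) Set.univ) :
    ∃ y : ℕ → ℂ, y 0 ≠ 0 ∧
      EXY (fun N : ℕ => jt t N (vN N)) (v' + Complex.I * π - Complex.I * π * t.ws / 4) y := by
  set w : ℤ := t.ws with hw
  set n : ℕ := t.ne with hn
  set c : ℂ := 3 * π * Complex.I * w / 4 + 2 * π * Complex.I * t.nb with hc
  set K0 : ℂ := (Complex.I / (2 * π)) ^ (n + 1) * (-1) ^ n * (-Complex.I) ^ w with hK0'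
  have hπ : (π : ℂ) ≠ 0 := by exact_mod_cast Real.pi_ne_zero
  have hK0n : K0 ≠ 0 := by
    rw [hK0']
    refine mul_ne_zero (mul_ne_zero (pow_ne_zero _ ?_) (pow_ne_zero _ (by norm_num)))
      (zpow_ne_zero _ (neg_ne_zero.2 Complex.I_ne_zero))
    exact div_ne_zero Complex.I_ne_zero (mul_ne_zero two_ne_zero hπ)
  have hprod := Pool.Agent.W303.AX.uxmul Unit _ _ _ _ _ hux (Pool.Agent.W962.AX.ux_exp c)
  refine ⟨fun k => K0 * cv (fun k (_ : Unit) => y' k) (fun k _ => c ^ k / (k.factorial : ℂ)) k (),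
    ?_, ?_⟩
  · refine mul_ne_zero hK0n ?_
    unfold cv
    simp only [zero_add, range_one, sum_singleton, Nat.sub_zero, pow_zero, Nat.factorial_zero,
      Nat.cast_one, div_one, mul_one]
    exact hy0
  · intro K
    obtain ⟨C, hC⟩ := hprod K
    refine ⟨‖K0‖ * C, ?_⟩
    filter_upwards [hC, eventually_ge_atTop 2] with N hN hN2
    have hN0 : (N : ℂ) ≠ 0 := by
      have : N ≠ 0 := by omega
      exact_mod_cast this
    have hNr : (0 : ℝ) < N := by
      have : 0 < N := by omega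
      exact_mod_cast this
    have hsq : ((Real.sqrt N : ℝ) : ℂ) ≠ 0 := by
      have : Real.sqrt N ≠ 0 := (Real.sqrt_pos.2 hNr).ne'
      exact_mod_cast this
    have hsq2 : ((Real.sqrt N : ℝ) : ℂ) ^ 2 = N := by
      rw [← Complex.ofReal_pow, Real.sq_sqrt hNr.le]
      simp
    have hb := hN () (Set.mem_univ _)
    -- the identity
    have key : jt t N (vN N) / (((Real.sqrt N) ^ 3 : ℝ) *
        Complex.exp (N * (v' + Complex.I * π - Complex.I * π * w / 4)))
        = K0 * ((N : ℂ) ^ (2 * n) * (Real.sqrt N : ℂ) * (-1) ^ (N * (n + 1)) *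
          Complex.exp (-(N * v')) * JT t N * Complex.exp (c / N)) := by
      have hex : Complex.exp (N * (v' + Complex.I * π - Complex.I * π * w / 4))
          = Complex.exp (N * v') * (-1) ^ N * Complex.exp (N * (-(Complex.I * π * w / 4))) := by
        have e1 : (-1 : ℂ) ^ N = Complex.exp (N * (Complex.I * π)) := by
          rw [← Complex.exp_pi_mul_I, ← Complex.exp_nat_mul]
          congr 1
          ring
        rw [e1, ← Complex.exp_add, ← Complex.exp_add]
        congr 1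
        ring
      have hcube : (((Real.sqrt N) ^ 3 : ℝ) : ℂ) = (N : ℂ) * (Real.sqrt N : ℂ) := by
        push_cast
        rw [pow_succ, hsq2]
      have hexp0 := Complex.exp_ne_zero (N * v')
      have hexp1 := Complex.exp_ne_zero (N * (-(Complex.I * π * w / 4)))
      have hm1 : ((-1 : ℂ)) ^ N ≠ 0 := pow_ne_zero _ (by norm_num)
      have hneg : Complex.exp (-(N * v')) = (Complex.exp (N * v'))⁻¹ := Complex.exp_neg _
      have hsgn : (-1 : ℂ) ^ ((N - 1) * n) = (-1) ^ n * (-1) ^ N * (-1) ^ (N * (n + 1)) := by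
        obtain ⟨N', rfl⟩ : ∃ N', N = N' + 1 := ⟨N - 1, by omega⟩
        rw [Nat.add_sub_cancel, ← pow_add, ← pow_add]
        have e2 : n + (N' + 1) + (N' + 1) * (n + 1) = N' * n + 2 * (n + N' + 1) := by ring
        rw [e2, pow_add, pow_mul (-1 : ℂ) 2]
        norm_num
      have hpow : (Complex.I * (N : ℂ) ^ 2 / (2 * π)) ^ (n + 1)
          = (Complex.I / (2 * π)) ^ (n + 1) * ((N : ℂ) ^ (2 * n) * (N : ℂ) ^ 2) := by
        rw [show Complex.I * (N : ℂ) ^ 2 / (2 * π) = Complex.I / (2 * π) * (N : ℂ) ^ 2 by ring,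
          mul_pow, ← pow_mul, ← pow_add]
        congr 2
      have hkb : kb N ^ t.nb = Complex.exp ((2 * π * Complex.I * t.nb) / N) := by
        unfold kb
        rw [← Complex.exp_nat_mul]
        congr 1
        ring
      have hcs : Complex.exp (c / N) = Complex.exp ((3 * π * Complex.I * w / 4) / N) *
          Complex.exp ((2 * π * Complex.I * t.nb) / N) := by
        rw [← Complex.exp_add, ← add_div, hc]
      rw [(Pool.Agent.TH639.J28.rtb t N hN2).2, hex, hcube, Pool.Agent.W962.AX.kp_zpow N _ (by omega), hkb, hneg,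
        ← hw, ← hn, hcs, hsgn, hpow, hK0']
      have hm2 : ((-1 : ℂ)) ^ N * (-1) ^ N = 1 := by
        rw [← mul_pow]
        norm_num
      rw [div_eq_iff (mul_ne_zero (mul_ne_zero hN0 hsq) (mul_ne_zero (mul_ne_zero hexp0 hm1) hexp1))]
      have hinv : (Complex.exp (N * v'))⁻¹ * Complex.exp (N * v') = 1 := inv_mul_cancel₀ hexp0
      have hN2' : (N : ℂ) ^ 2 = (N : ℂ) * ((Real.sqrt N : ℝ) : ℂ) ^ 2 := by rw [hsq2]; ring
      calc _ = (Complex.I / (2 * π)) ^ (n + 1) * (-1) ^ n * (-Complex.I) ^ w * (N : ℂ) ^ (2 * n) *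
            (-1) ^ (N * (n + 1)) * JT t N * (Complex.exp ((3 * π * Complex.I * w / 4) / N) *
          Complex.exp ((2 * π * Complex.I * t.nb) / N)) * (-1) ^ N
            * Complex.exp (N * (-(Complex.I * π * w / 4))) * (N : ℂ) ^ 2 := by ring
        _ = (Complex.I / (2 * π)) ^ (n + 1) * (-1) ^ n * (-Complex.I) ^ w * (N : ℂ) ^ (2 * n) *
            (-1) ^ (N * (n + 1)) * JT t N * (Complex.exp ((3 * π * Complex.I * w / 4) / N) *
          Complex.exp ((2 * π * Complex.I * t.nb) / N)) * (-1) ^ N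
            * Complex.exp (N * (-(Complex.I * π * w / 4))) * ((N : ℂ) * ((Real.sqrt N : ℝ) : ℂ) ^ 2)
            * ((Complex.exp (N * v'))⁻¹ * Complex.exp (N * v')) := by rw [hinv, ← hN2', mul_one]
        _ = _ := by ring
    rw [key]
    have e3 : ∑ k ∈ range K, K0 * cv (fun k (_ : Unit) => y' k)
          (fun k _ => c ^ k / (k.factorial : ℂ)) k () / (N : ℂ) ^ k
        = K0 * ∑ k ∈ range K, cv (fun k (_ : Unit) => y' k)
          (fun k _ => c ^ k / (k.factorial : ℂ)) k () / (N : ℂ) ^ k := by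
      rw [Finset.mul_sum]
      exact Finset.sum_congr rfl fun k _ => mul_div_assoc _ _ _
    rw [e3, ← mul_sub, norm_mul, mul_div_assoc]
    exact mul_le_mul_of_nonneg_left hb (norm_nonneg _)


lemma re_shift (v' : ℂ) (w : ℤ) :
    (v' + Complex.I * π - Complex.I * π * w / 4).re = v'.re := by
  have a1 : (Complex.I * π).re = 0 := by simp
  have a2 : (Complex.I * π * w / 4).re = 0 := by
    have : Complex.I * π * w / 4 = Complex.I * ((π * w / 4 : ℝ) : ℂ) := by
      push_cast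
      ring
    rw [this, Complex.re_mul_ofReal]
    simp
  rw [Complex.sub_re, Complex.add_re, a1, a2]
  ring

/-- the expansion of the invariants; the growth rate is the maximal volume -/
def S_FINJX : Prop := ∃ K : ℝ, 0 < K ∧ ∀ t : Tb, t.Below K → t.bl = false → t.wt = 0 →
  3 ≤ t.nc → ∃ (V : ℝ) (v : ℂ) (y : ℕ → ℂ),
    IsGreatest {W : ℝ | ∃ y : AB, y.shape = t ∧ y.IsAng ∧ y.vol = W} V ∧
    2 * π * v.re = V ∧ y 0 ≠ 0 ∧ EXY (fun N : ℕ => jt t N (vN N)) v y

theorem finjx (hM : S_MAINZX) (hG : S_GEOZ) : S_FINJX := by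
  obtain ⟨ρ, τ, κ, c, s, dl, hKD, hM⟩ := hM
  obtain ⟨K₀, hK₀, hU⟩ := f_FINB
  -- every single `k`
  have hk : ∀ k : ℕ, 3 ≤ k → ∃ K : ℝ, 0 < K ∧ ∀ t : Tb, t.Below K → t.bl = false → t.wt = 0 →
      t.nc = k → ∃ (V : ℝ) (v : ℂ) (y : ℕ → ℂ),
        IsGreatest {W : ℝ | ∃ y : AB, y.shape = t ∧ y.IsAng ∧ y.vol = W} V ∧
        2 * π * v.re = V ∧ y 0 ≠ 0 ∧ EXY (fun N : ℕ => jt t N (vN N)) v y := by
    intro k hk
    obtain ⟨r, c', C, s', dl', hS, hM⟩ := hM k hk
    by_cases hadm : Adm (et k)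
    · obtain ⟨g, hg, hG⟩ := hG ρ τ κ c s dl hKD (et k) r c' C s' dl' hadm hS
      obtain ⟨K, hK, hM⟩ := hM g hg
      refine ⟨K, hK, fun t hB hb hw hn => ?_⟩
      obtain ⟨p, y', hp1, hp2, hp3, hp4, hp5, hy', hux⟩ := hM t hB hb hw hn
      have hpb : p.bl = false := by rw [← pb_bl p, hp1, hb]
      have hpw : p.wt = 0 := by rw [← pb_wt p, hp1, hw]
      have hpn : 1 ≤ p.nc := by rw [← shape_nc p, hp1, hn]; omega
      have h1 := hG p hp2 hpb hpw hp3 hp4 hp5 hpn
      rw [hp1] at h1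
      obtain ⟨y, hy, h2⟩ := exy_of_ux t hy' hux
      refine ⟨_, _, y, h1, ?_, hy, h2⟩
      rw [re_shift]
    · exact absurd hadm (by
        intro h
        exact h (Pool.Agent.TH596.J367.ineq k hk).1)
  choose! Kf hKf using hk
  obtain ⟨n₀, hn₀⟩ := exists_nat_ge K₀
  refine ⟨K₀ + ∑ k ∈ Ico 3 n₀, Kf k, ?_, ?_⟩
  · have : 0 ≤ ∑ k ∈ Ico 3 n₀, Kf k :=
      Finset.sum_nonneg fun k hk => (hKf k (Finset.mem_Ico.1 hk).1).1.le
    linarith
  · intro t hB hb hw hn
    rcases lt_or_ge t.nc n₀ with h | h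
    · refine (hKf t.nc hn).2 t (below_mono (hKf t.nc hn).1.le ?_ t hB) hb hw rfl
      have h1 : Kf t.nc ≤ ∑ k ∈ Ico 3 n₀, Kf k :=
        Finset.single_le_sum (f := Kf) (fun k hk => (hKf k (Finset.mem_Ico.1 hk).1).1.le)
          (Finset.mem_Ico.2 ⟨hn, h⟩)
      linarith
    · have h0 : 0 ≤ ∑ k ∈ Ico 3 n₀, Kf k :=
        Finset.sum_nonneg fun k hk => (hKf k (Finset.mem_Ico.1 hk).1).1.le
      have hbig : Tb.BigV K₀ t.bl t.nc t.wt := by
        intro _
        have h5 : K₀ ≤ t.nc := hn₀.trans (by exact_mod_cast h)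
        have h6 : K₀ ^ 2 ≤ (t.nc : ℝ) ^ 2 := pow_le_pow_left₀ hK₀.le h5 2
        have h7 : (0 : ℝ) ≤ (t.wt : ℝ) ^ 2 := by positivity
        linarith
      exact hU t ⟨below_mono hK₀.le (by linarith) t hB, hbig⟩ (by omega)

end Pool.Agent.TH563.Z
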