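import Pool.Agent.TH563.Z.Child

/-!
# Hubs of weight zero: the children of the root, near the critical point of the hub
-/

set_option autoImplicit false
set_option maxHeartbeats 1000000

namespace Pool.Agent.TH563.Z

open Finset Filter Topology Metric
open Pool.Agent.W711.HT hiding XX
open Pool.Agent.TH563.UV
open Pool.Agent.W85.HT hiding Rc_mono
open Pool.Agent.W293.HT
open Pool.Agent.TH219.J139 (Ub Ub_diff Ub_even)
open Pool.Agent.TH929.J29 (nat_exp_ev UN_bd UN_diff locb lapB even_deriv_zero deriv2_le)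
open scoped Real

/-- closed rectangle centred at `i η` -/
def Kz (η ρ τ : ℝ) : Set ℂ := Set.Icc (-ρ) ρ ×ℂ Set.Icc (η - τ) (η + τ)

lemma Kz_mem {η ρ τ : ℝ} {w : ℂ} : w ∈ Kz η ρ τ ↔ |w.re| ≤ ρ ∧ |w.im - η| ≤ τ := by
  unfold Kz
  rw [Complex.mem_reProdIm, Set.mem_Icc, Set.mem_Icc, abs_le, abs_le]
  constructor
  · rintro ⟨h1, h2, h3⟩
    exact ⟨h1, by linarith, by linarith⟩
  · rintro ⟨h1, h2, h3⟩
    exact ⟨h1, by linarith, by linarith⟩

lemma Kz_compact (η ρ τ : ℝ) : IsCompact (Kz η ρ τ) := isCompact_Icc.reProdIm isCompact_Icc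

/-- uniform continuity in the second variable -/
lemma unif2 {s : ℂ → ℂ → ℂ} {K K' : Set ℂ} (hK : IsCompact K) (hK' : IsCompact K')
    (hs : ContinuousOn (fun p : ℂ × ℂ => s p.1 p.2) (K ×ˢ K')) {p : ℕ → ℂ} {p₀ : ℂ}
    (hp : ∀ N, p N ∈ K') (hp0 : p₀ ∈ K') (hlim : Tendsto p atTop (𝓝 p₀)) {ε : ℝ} (hε : 0 < ε) :
    ∀ᶠ N : ℕ in atTop, ∀ w ∈ K, ‖s w (p N) - s w p₀‖ < ε := by
  have huc := (hK.prod hK').uniformContinuousOn_of_continuous hs
  rw [Metric.uniformContinuousOn_iff] at huc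
  obtain ⟨δ, hδ, hδ2⟩ := huc ε hε
  rw [Metric.tendsto_atTop] at hlim
  obtain ⟨N0, hN0⟩ := hlim δ hδ
  filter_upwards [eventually_ge_atTop N0] with N hN w hw
  have h1 := hδ2 (w, p N) ⟨hw, hp N⟩ (w, p₀) ⟨hw, hp0⟩ (by
    rw [Prod.dist_eq, dist_self]
    exact max_lt hδ (hN0 N hN))
  rwa [dist_eq_norm] at h1

/-- bound of the first derivative -/
lemma gh_d1 {ρ τ c C : ℝ} {G : ℂ → ℂ} (hG : GH ρ τ c C G) (hρ : 0 < ρ) (hτ : 0 < τ) {w : ℂ}
    (hw : w ∈ Rc (2 * ρ) (2 * τ)) : ‖deriv G w‖ ≤ C * ‖w‖ := by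
  have hU := isOpen_Rc (3 * ρ) (3 * τ)
  have hsub : Rc (2 * ρ) (2 * τ) ⊆ Rc (3 * ρ) (3 * τ) := Rc_mono (by linarith) (by linarith)
  have h0 : (0 : ℂ) ∈ Rc (2 * ρ) (2 * τ) := zero_mem_Rc (by linarith) (by linarith)
  have h1 := Convex.norm_image_sub_le_of_norm_deriv_le (𝕜 := ℂ) (f := deriv G) (C := C)
    (s := Rc (2 * ρ) (2 * τ)) (x := 0) (y := w)
    (fun x hx => ((hG.an.deriv hU) x (hsub hx)).differentiableAt (hU.mem_nhds (hsub hx)))
    (fun x hx => hG.d2b x hx) (convex_Rc _ _) h0 hw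
  rw [hG.d0 hρ hτ, sub_zero, sub_zero] at h1
  exact h1

/-- in the imaginary direction -/
lemma gh_up {ρ τ c C : ℝ} {G : ℂ → ℂ} (hG : GH ρ τ c C G) (hρ : 0 < ρ) (hτ : 0 < τ) {x y : ℝ}
    (hC : 0 ≤ C) (hx : |x| ≤ ρ) (hy : 0 ≤ y) (hy' : y ≤ τ) :
    (G (x + y * Complex.I)).re ≤ (G x).re + C * ((|x| + y) * y) := by
  have hU := isOpen_Rc (3 * ρ) (3 * τ)
  have hm : ∀ v ∈ Set.Icc (0 : ℝ) y, (x : ℂ) + v * Complex.I ∈ Rc (2 * ρ) (2 * τ) := by
    intro v hv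
    refine ⟨?_, ?_⟩
    · rw [xy_re]; linarith
    · rw [xy_im, abs_of_nonneg hv.1]; linarith [hv.2]
  have hsub : Rc (2 * ρ) (2 * τ) ⊆ Rc (3 * ρ) (3 * τ) := Rc_mono (by linarith) (by linarith)
  have h1 := Convex.norm_image_sub_le_of_norm_hasDerivWithin_le
    (f := fun v : ℝ => G (x + v * Complex.I))
    (f' := fun v : ℝ => deriv G (x + v * Complex.I) * Complex.I) (C := C * (|x| + y))
    (s := Set.Icc (0 : ℝ) y) (x := 0) (y := y)
    (fun v hv => by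
      have h2 : HasDerivAt G (deriv G (x + v * Complex.I)) (x + v * Complex.I) :=
        ((hG.an _ (hsub (hm v hv))).differentiableAt (hU.mem_nhds (hsub (hm v hv)))).hasDerivAt
      have h3 : HasDerivAt (fun v : ℝ => (x : ℂ) + v * Complex.I) Complex.I v := by
        have h4 : HasDerivAt (fun v : ℝ => (v : ℂ)) 1 v := Complex.ofRealCLM.hasDerivAt
        simpa using (h4.mul_const Complex.I).const_add (x : ℂ)
      exact (HasDerivAt.comp v h2 h3).hasDerivWithinAt)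
    (fun v hv => by
      rw [norm_mul, Complex.norm_I, mul_one]
      refine (gh_d1 hG hρ hτ (hm v hv)).trans ?_
      apply mul_le_mul_of_nonneg_left _ hC
      refine (norm_add_le _ _).trans ?_
      rw [norm_mul, Complex.norm_I, mul_one, Complex.norm_real, Complex.norm_real,
        Real.norm_eq_abs, Real.norm_eq_abs, abs_of_nonneg hv.1]
      linarith [hv.2])
    (convex_Icc _ _) ⟨le_rfl, hy⟩ ⟨hy, le_rfl⟩
  have h2 := (Complex.re_le_norm _).trans h1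
  rw [Complex.sub_re, Real.norm_eq_abs, sub_zero, abs_of_nonneg hy] at h2
  have e1 : (x : ℂ) + ((0 : ℝ) : ℂ) * Complex.I = x := by simp
  rw [e1] at h2
  linarith

section

variable {ρ₀ τ₀ κ₀ c₀ ε₀ : ℝ} {s dl : ℂ → ℂ → ℂ} {η ε ρ τ ρ' τ' κ c' : ℝ} {s' dl' : ℂ → ℂ → ℂ}
  {t : ℕ} {X : ℕ → ℂ → ℂ} {F : ℂ → ℂ}

/-- bounds of the second derivative of the sum, for one function -/
theorem ghz1 (hK : KD ρ₀ τ₀ κ₀ c₀ s dl) (hε₁ : ε₀ ≤ 1) (hε₂ : ε₀ ≤ c₀ * τ₀ ^ 2 / 16)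
    {C'' : ℝ} (hE : EZ η ρ τ ρ' τ' c' C'' s') (hρρ : 3 * ρ ≤ ρ₀) (hττ : 3 * τ ≤ τ₀)
    (hF : DifferentiableOn ℂ F (Rc (3 * ρ₀) (3 * τ₀)))
    (hev : ∀ ψ ∈ Rc (3 * ρ₀) (3 * τ₀), F (-ψ) = F ψ)
    (hcl : ∀ ψ ∈ Rc (3 * ρ₀) (3 * τ₀), ‖F ψ - F 0 - t * (s 0 ψ - s 0 0)‖ ≤ t * ε₀) :
    ∃ C₁ : ℝ, 0 ≤ C₁ ∧ ∀ ψ ∈ Rz η (3 * ρ') (3 * τ'), GH ρ τ c' C₁ (fun w => F w + s' w ψ) := by
  obtain ⟨C₀, hC₀⟩ := hK.sbd
  have hρ00 := hK.hρ.1
  have hτ00 := hK.hτ.1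
  have hρ0 := hE.hρ.1
  have hτ0 := hE.hτ.1
  have hτρ := hE.hτ.2
  have hc00 := hK.hc
  have hc := hE.hc
  have hUc := isOpen_Rc (3 * ρ) (3 * τ)
  have h00 : (0 : ℂ) ∈ Rc (3 * ρ₀) (3 * τ₀) := zero_mem_Rc (by linarith) (by linarith)
  have hC00 : 0 ≤ C₀ := (norm_nonneg _).trans (hC₀ 0 h00 0 h00)
  have hsub : Rc (3 * ρ) (3 * τ) ⊆ Rc (3 * ρ₀) (3 * τ₀) := Rc_mono (by linarith) (by linarith)
  have hsub2 : Rc (2 * ρ) (2 * τ) ⊆ Rc (2 * ρ₀) (2 * τ₀) := Rc_mono (by linarith) (by linarith)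
  have hsub23 : Rc (2 * ρ) (2 * τ) ⊆ Rc (3 * ρ) (3 * τ) := Rc_mono (by linarith) (by linarith)
  have gF : GH ρ₀ τ₀ (c₀ / 2 * (t : ℝ)) (8 * (1 + 3 * C₀) / τ₀ ^ 2 * (t : ℝ)) F :=
    (gh_U (t := (t : ℝ)) hK hε₁ hε₂ hC₀ (Nat.cast_nonneg t) hF hev (by
      intro ψ hψ
      have := hcl ψ hψ
      rwa [Complex.ofReal_natCast])).2
  have ht0 : (0 : ℝ) ≤ t := Nat.cast_nonneg t
  have hFc : DifferentiableOn ℂ F (Rc (3 * ρ) (3 * τ)) := hF.mono hsub
  have hC1 := hE.hC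
  refine ⟨8 * (1 + 3 * C₀) / τ₀ ^ 2 * (t : ℝ) + 8 * C'' / τ ^ 2, by positivity, ?_⟩
  intro ψ hψ
  have hsd := s_diffZ hE.san hψ
  refine ⟨hFc.add hsd, ?_, ?_, ?_⟩
  · intro w hw
    show F (-w) + s' (-w) ψ = F w + s' w ψ
    rw [hev w (hsub hw), hE.ev w hw ψ hψ]
  · intro w hw
    rw [dd_add hUc hFc hsd (hsub23 hw), Complex.add_re]
    have e1 := gF.d2 w (hsub2 hw)
    have e2 := hE.conc1 w (hsub23 hw) ψ hψ
    have e3 : 0 ≤ c₀ / 2 * t := by positivity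
    linarith
  · intro w hw
    rw [dd_add hUc hFc hsd (hsub23 hw)]
    refine (norm_add_le _ _).trans ?_
    have e1 := gF.d2b w (hsub2 hw)
    have e2 := cauchy2 (g := fun w => s' w ψ) hτ0 hτρ hsd
      (fun z hz => hE.sbd z hz ψ hψ) hw
    linarith

/-- asymptotics of the product with the kernel -/
lemma mw_prod (hX : GoodU ρ₀ τ₀ κ₀ ε₀ s t X F)
    (hZ : KDZ η ε ρ τ ρ' τ' κ c' s' dl') (hρρ : 3 * ρ ≤ ρ₀) (hττ : 3 * τ ≤ τ₀) :
    ∀ ε' : ℝ, 0 < ε' → ∀ᶠ N : ℕ in atTop, ∀ w ∈ Rc (2 * ρ) (2 * τ),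
      ∀ p ∈ Kz η (2 * ρ') (2 * τ'), X N w * kerL ε N w p ≠ 0 ∧
        |Real.log ‖X N w * kerL ε N w p‖ - N * (F w + s' w p).re| ≤ ε' * N := by
  intro ε' hε'
  have hρ0 := hZ.hρ.1
  have hτ0 := hZ.hτ.1
  have hρ'0 := hZ.hρ'.1
  have hτ'0 := hZ.hτ'.1
  filter_upwards [hX.mw (ε' / 2) (by positivity), hZ.mw (ε' / 2) (by positivity)] with
    N h1 h2 w hw p hp
  obtain ⟨k1, k2⟩ := h1 w (Rc_mono (by linarith) (by linarith) hw)
  rw [Kz_mem] at hp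
  obtain ⟨k3, k4⟩ := h2 w (Rc_mono (by linarith) (by linarith) hw) p
    ⟨by linarith [hp.1], by linarith [hp.2]⟩
  refine ⟨mul_ne_zero k1 k3, ?_⟩
  rw [norm_mul, Real.log_mul (norm_ne_zero_iff.2 k1) (norm_ne_zero_iff.2 k3), Complex.add_re]
  rw [abs_le] at k2 k4 ⊢
  constructor
  · linarith [k2.1, k4.1]
  · linarith [k2.2, k4.2]

/-- far from `0` -/
lemma far_prod (hB : XB X (F 0).re) (hZ : KDZ η ε ρ τ ρ' τ' κ c' s' dl') :
    ∀ᶠ N : ℕ in atTop, ∀ p ∈ Kz η (2 * ρ') (2 * τ'), ∀ x y : ℝ, ρ ≤ |x| → |x| ≤ π → |y| ≤ 1 / N →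
      ‖X N (x + y * Complex.I) * kerL ε N (x + y * Complex.I) p‖ ≤
        Real.exp (N * ((F 0).re + (s' 0 p).re - 3 / 4 * κ)) := by
  have hρ'0 := hZ.hρ'.1
  have hτ'0 := hZ.hτ'.1
  have hκ := hZ.hκ.1
  filter_upwards [hB (κ / 4) (by positivity), hZ.far1] with N h1 h2 p hp x y hx1 hx2 hy
  rw [Kz_mem] at hp
  have k1 := h1 x y hx2 hy
  have k2 := h2 x y hx1 hx2 hy p ⟨by linarith [hp.1], by linarith [hp.2]⟩
  rw [norm_mul]
  refine (mul_le_mul k1 k2 (norm_nonneg _) (Real.exp_pos _).le).trans ?_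
  rw [← Real.exp_add, ← mul_add]
  apply Real.exp_le_exp.2
  apply mul_le_mul_of_nonneg_left _ (Nat.cast_nonneg N)
  linarith

/-- from limits along sequences to uniform asymptotics -/
lemma mw_seq {Z : ℕ → ℂ → ℂ} {G : ℂ → ℂ} {κ : ℝ} (hκ : 0 < κ)
    (hG : ContinuousOn G (Kz η (2 * ρ') (2 * τ')))
    (hpos : ∀ φ ∈ Kz η (2 * ρ') (2 * τ'), κ / 2 ≤ (G φ).re)
    (hseq : ∀ (p : ℕ → ℂ) (p₀ : ℂ), p₀ ∈ Kz η (2 * ρ') (2 * τ') →
      (∀ N, p N ∈ Kz η (2 * ρ') (2 * τ')) → Tendsto p atTop (𝓝 p₀) →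
      Tendsto (fun N => Real.log ‖Z N (p N)‖ / N) atTop (𝓝 (G p₀).re)) :
    MW Z G (Rz η (2 * ρ') (2 * τ')) := by
  have hunif := Pool.Agent.W583.HT.seq ℂ (Kz η (2 * ρ') (2 * τ')) (Kz_compact _ _ _)
    (fun N ψ' => Real.log ‖Z N ψ'‖ / N) (fun ψ' => (G ψ').re)
    (Complex.continuous_re.comp_continuousOn hG) hseq
  intro ε hε
  filter_upwards [hunif (min ε (κ / 4)) (lt_min hε (by positivity)), eventually_gt_atTop 0] with
    N h1 h2 ψ hψ
  have hN' : (0 : ℝ) < N := by exact_mod_cast h2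
  have hψ' : ψ ∈ Kz η (2 * ρ') (2 * τ') := by
    rw [Kz_mem]
    exact ⟨hψ.1.le, hψ.2.le⟩
  have k1 := h1 ψ hψ'
  refine ⟨?_, ?_⟩
  · intro h0
    rw [h0, norm_zero, Real.log_zero, zero_div, zero_sub, abs_neg] at k1
    have k2 := hpos ψ hψ'
    have k3 := (le_abs_self _).trans k1
    have k4 := min_le_right ε (κ / 4)
    linarith
  · have k2 : |Real.log ‖Z N ψ‖ / N - (G ψ).re| ≤ ε := k1.trans (min_le_left _ _)
    have k3 : Real.log ‖Z N ψ‖ - N * (G ψ).re =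
        N * (Real.log ‖Z N ψ‖ / N - (G ψ).re) := by
      field_simp
    rw [k3, abs_mul, abs_of_pos hN', mul_comm ε]
    exact mul_le_mul_of_nonneg_left k2 hN'.le

/-- asymptotics at a child without circle -/
theorem mwF (hK : KD ρ₀ τ₀ κ₀ c₀ s dl) (hX : GoodU ρ₀ τ₀ κ₀ ε₀ s t X F)
    (hB : XB X (F 0).re) (hZ : KDZ η ε ρ τ ρ' τ' κ c' s' dl') {C'' : ℝ}
    (hE : EZ η ρ τ ρ' τ' c' C'' s') (hρρ : 3 * ρ ≤ ρ₀) (hττ : 3 * τ ≤ τ₀) {a : ℤ} {r₀ : ℝ}
    {F' zs : ℂ → ℂ} (hF'd : DifferentiableOn ℂ F' (Rz η (3 * ρ') (3 * τ')))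
    (hF'n : ∀ φ ∈ Rz η (3 * ρ') (3 * τ'), ‖F' φ - F 0 - s' 0 φ‖ ≤ κ / 16)
    (hF'z : ∀ φ ∈ Rz η (3 * ρ') (3 * τ'), CPu ρ τ r₀ (zs φ) ∧
      SAD a (fun w => F w + s' w φ) ρ (zs φ) ∧ F' φ = qq a F (zs φ) + s' (zs φ) φ) :
    MW (stL ε a X) F' (Rz η (2 * ρ') (2 * τ')) := by
  have hρ0 := hZ.hρ.1
  have hρ1 := hZ.hρ.2
  have hτ0 := hZ.hτ.1
  have hρ'0 := hZ.hρ'.1
  have hτ'0 := hZ.hτ'.1
  have hκ := hZ.hκ.1
  have hκ1 := hZ.hκ.2
  have hπ := Real.pi_gt_three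
  have hKK : Kz η (2 * ρ') (2 * τ') ⊆ Rz η (3 * ρ') (3 * τ') := by
    intro w hw
    rw [Kz_mem] at hw
    exact ⟨by linarith [hw.1], by linarith [hw.2]⟩
  have hcc : Kc (2 * ρ) (2 * τ) ⊆ Rc (3 * ρ) (3 * τ) := by
    intro w hw
    rw [Kc_mem] at hw
    exact ⟨by linarith [hw.1], by linarith [hw.2]⟩
  have hlow : ∀ φ ∈ Rz η (3 * ρ') (3 * τ'), (F 0).re + (s' 0 φ).re - κ / 16 ≤ (F' φ).re := by
    intro φ hφ
    have h2 := (Complex.abs_re_le_norm _).trans (hF'n φ hφ)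
    rw [Complex.sub_re, Complex.sub_re] at h2
    linarith [(abs_le.1 h2).1]
  have hscont : ContinuousOn (fun p : ℂ × ℂ => s' p.1 p.2)
      (Kc (2 * ρ) (2 * τ) ×ˢ Kz η (2 * ρ') (2 * τ')) :=
    hE.san.continuousOn.mono (Set.prod_mono hcc hKK)
  have m0 : (0 : ℂ) ∈ Kc (2 * ρ) (2 * τ) := by
    rw [Kc_mem, Complex.zero_re, Complex.zero_im, abs_zero]
    constructor <;> linarith
  refine mw_seq hκ (hF'd.continuousOn.mono hKK) ?_ ?_
  · intro φ hφ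
    have h1 := hlow φ (hKK hφ)
    have h2 := hZ.slow φ (hKK hφ)
    have h3 := hX.pos
    linarith
  · intro p p₀ hp0 hp hlim
    obtain ⟨hz1, hz2, hz4⟩ := hF'z p₀ (hKK hp0)
    have z1 : |(zs p₀).re| < ρ := hz1.mem.1
    have z3 : (zs p₀).im < τ := by
      have := hz1.mem.2
      rwa [abs_of_pos hz1.im] at this
    have hsd := s_diffZ hE.san (hKK hp0)
    have hV : (qq a (fun w => F w + s' w p₀) (zs p₀)).re = (F' p₀).re := by
      have e : qq a (fun w => F w + s' w p₀) (zs p₀) = qq a F (zs p₀) + s' (zs p₀) p₀ := by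
        unfold qq; ring
      rw [e, hz4]
    have hun := fun (e : ℝ) (he : 0 < e) => unif2 (Kc_compact _ _) (Kz_compact _ _ _) hscont hp
      hp0 hlim he
    have hnear := lap_strong f_LAPINT (Y := fun N w => X N w * kerL ε N w (p N))
      (G := fun w => F w + s' w p₀) (a := a) (z := zs p₀) hρ0 hτ0 (by linarith)
      (by
        filter_upwards with N
        exact ((hX.an N).mul (kerL_diff ε N (p N))).differentiableOn)
      (((hX.Fan.mono (Rc_mono (by linarith) (by linarith))).add hsd).mono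
        (Rc_mono (by linarith) (by linarith)))
      (by
        intro e he
        filter_upwards [mw_prod hX hZ hρρ hττ (e / 2) (by positivity),
          hun (e / 2) (by positivity)] with N h1 h3 w hw
        obtain ⟨k1, k2⟩ := h1 w hw (p N) (hp N)
        have k5 := h3 w (by rw [Kc_mem]; exact ⟨hw.1.le, hw.2.le⟩)
        refine ⟨k1, ?_⟩
        have k6 := (Complex.abs_re_le_norm _).trans k5.le
        rw [Complex.sub_re] at k6
        have hN0 : (0 : ℝ) ≤ N := Nat.cast_nonneg N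
        have k7 : |N * ((s' w (p N)).re - (s' w p₀).re)| ≤ N * (e / 2) := by
          rw [abs_mul, abs_of_nonneg hN0]
          exact mul_le_mul_of_nonneg_left k6 hN0
        rw [Complex.add_re] at k2 ⊢
        rw [abs_le] at k2 k7 ⊢
        constructor
        · linarith [k2.1, k7.1]
        · linarith [k2.2, k7.2])
      z1 hz1.im z3 hz2
    rw [hV] at hnear
    have hfull := full_lim upb (a := a) hρ0 (by linarith : ρ ≤ π)
      (f := fun N w => X N w * kerL ε N w (p N))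
      (V := (F' p₀).re) (κ := κ / 4) (by positivity)
      (fun N => (hX.an N).continuous.mul (kerL_cont ε N _)) hnear
      (by
        filter_upwards [far_prod hB hZ, hun (κ / 16) (by positivity)] with N h1 h2 x y hx1 hx2 hy
        refine (h1 (p N) (hp N) x y hx1 hx2 hy).trans ?_
        apply Real.exp_le_exp.2
        apply mul_le_mul_of_nonneg_left _ (Nat.cast_nonneg N)
        have k3 := hlow p₀ (hKK hp0)
        have k4 := (Complex.re_le_norm _).trans (h2 0 m0).le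
        rw [Complex.sub_re] at k4
        linarith)
    refine hfull.congr fun N => ?_
    rw [stL_eq hZ.hε.2 a X hX.an]

/-- asymptotics at a child with a circle -/
theorem mwT (hK : KD ρ₀ τ₀ κ₀ c₀ s dl) (hε₁ : ε₀ ≤ 1) (hε₂ : ε₀ ≤ c₀ * τ₀ ^ 2 / 16)
    (hX : GoodU ρ₀ τ₀ κ₀ ε₀ s t X F)
    (hB : XB X (F 0).re) (hZ : KDZ η ε ρ τ ρ' τ' κ c' s' dl') {C'' : ℝ}
    (hE : EZ η ρ τ ρ' τ' c' C'' s') (hρρ : 3 * ρ ≤ ρ₀) (hττ : 3 * τ ≤ τ₀) {a : ℤ} :
    MW (stL ε a (fun N ψ => UN N ψ * X N ψ)) (fun φ => F 0 + π * Complex.I + s' 0 φ)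
      (Rz η (2 * ρ') (2 * τ')) := by
  have hρ0 := hZ.hρ.1
  have hρ1 := hZ.hρ.2
  have hτ0 := hZ.hτ.1
  have hτρ := hZ.hτ.2
  have hρ'0 := hZ.hρ'.1
  have hτ'0 := hZ.hτ'.1
  have hκ := hZ.hκ.1
  have hκ1 := hZ.hκ.2
  have hc := hE.hc
  have hπ := Real.pi_gt_three
  have hUc := isOpen_Rc (3 * ρ) (3 * τ)
  have h0c : (0 : ℂ) ∈ Rc (3 * ρ) (3 * τ) := zero_mem_Rc (by linarith) (by linarith)
  have hKK : Kz η (2 * ρ') (2 * τ') ⊆ Rz η (3 * ρ') (3 * τ') := by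
    intro w hw
    rw [Kz_mem] at hw
    exact ⟨by linarith [hw.1], by linarith [hw.2]⟩
  have hcc : Kc (2 * ρ) (2 * τ) ⊆ Rc (3 * ρ) (3 * τ) := by
    intro w hw
    rw [Kc_mem] at hw
    exact ⟨by linarith [hw.1], by linarith [hw.2]⟩
  have hre : ∀ φ : ℂ, (F 0 + π * Complex.I + s' 0 φ).re = (F 0 + s' 0 φ).re := by
    intro φ
    rw [Complex.add_re, Complex.add_re, Complex.add_re]
    simp
  have hscont : ContinuousOn (fun p : ℂ × ℂ => s' p.1 p.2)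
      (Kc (2 * ρ) (2 * τ) ×ˢ Kz η (2 * ρ') (2 * τ')) :=
    hE.san.continuousOn.mono (Set.prod_mono hcc hKK)
  have m0 : (0 : ℂ) ∈ Kc (2 * ρ) (2 * τ) := by
    rw [Kc_mem, Complex.zero_re, Complex.zero_im, abs_zero]
    constructor <;> linarith
  obtain ⟨L, hL, hgh⟩ := ghz1 hK hε₁ hε₂ hE hρρ hττ hX.Fan hX.Fev hX.Fcl
  obtain ⟨κ₁, hκ₁, hloc⟩ := locb upb (a := a) (K := Kz η (2 * ρ') (2 * τ'))
    (Y := fun N w p => X N w * kerL ε N w p) (G := fun w p => F w + s' w p)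
    (c₀ := c' / 2) (L := L) (τ₁ := τ) hρ0 (by linarith) hτ0 hτ0
    (fun N p _ => (hX.an N).mul (kerL_diff ε N p)) (mw_prod hX hZ hρρ hττ) (by positivity) hL
    (fun p hp x hx => real_axis (hgh p (hKK hp)) hτ0 hρ0 x hx)
    (fun p hp x y hx hy hy' => gh_up (hgh p (hKK hp)) hρ0 hτ0 hL hx hy hy')
    ⟨3 / 4 * κ, by positivity, by
      filter_upwards [far_prod hB hZ] with N h1 p hp x y hx1 hx2 hy
      rw [Complex.add_re]
      exact h1 p hp x y hx1 hx2 hy⟩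
  refine mw_seq hκ ?_ ?_ ?_
  · exact ((s_diff2Z hE.san h0c).continuousOn.mono hKK).const_add _ |>.congr fun φ _ => rfl
  · intro φ hφ
    rw [hre, Complex.add_re]
    have h2 := hZ.slow φ (hKK hφ)
    have h3 := hX.pos
    linarith
  · intro p p₀ hp0 hp hlim
    rw [hre]
    have hun : ∀ e : ℝ, 0 < e → ∀ᶠ N : ℕ in atTop, ∀ w ∈ Kc (2 * ρ) (2 * τ),
        |(s' w (p N)).re - (s' w p₀).re| ≤ e := by
      intro e he
      filter_upwards [unif2 (Kc_compact _ _) (Kz_compact _ _ _) hscont hp hp0 hlim he] with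
        N h1 w hw
      have k1 := (Complex.abs_re_le_norm _).trans (h1 w hw).le
      rwa [Complex.sub_re] at k1
    have hG := hgh p₀ (hKK hp0)
    have hG0 : deriv (fun w => F w + s' w p₀) 0 = 0 := hG.d0 hρ0 hτ0
    have hG2 := hG.d2 0 (zero_mem_Rc (by linarith) (by linarith))
    have hM := lapB Pool.Agent.W588.HT.lapc Pool.Agent.W930.HTLog.main
      (Y := fun N w => X N w * kerL ε N w (p N))
      (G := fun w => F w + s' w p₀) (a := a) hρ0 hτ0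
      (Eventually.of_forall fun N => ((hX.an N).mul (kerL_diff ε N (p N))).differentiableOn)
      (hG.an.mono (Rc_mono (by linarith) (by linarith)))
      (by
        intro e he
        filter_upwards [mw_prod hX hZ hρρ hττ (e / 2) (by positivity),
          hun (e / 2) (by positivity)] with N h1 h2 w hw
        obtain ⟨k1, k2⟩ := h1 w hw (p N) (hp N)
        refine ⟨k1, ?_⟩
        have k3 := h2 w (by rw [Kc_mem]; exact ⟨hw.1.le, hw.2.le⟩)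
        have hN0 : (0 : ℝ) ≤ N := Nat.cast_nonneg N
        have k4 : |N * ((s' w (p N)).re - (s' w p₀).re)| ≤ N * (e / 2) := by
          rw [abs_mul, abs_of_nonneg hN0]
          exact mul_le_mul_of_nonneg_left k3 hN0
        rw [Complex.add_re] at k2 ⊢
        rw [abs_le] at k2 k4 ⊢
        constructor
        · linarith [k2.1, k4.1]
        · linarith [k2.2, k4.2])
      hG0 (by linarith)
      (by
        intro x hx hx0
        have h1 := real_axis hG hτ0 hρ0 x hx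
        have h2 : 0 < c' / 2 * x ^ 2 := by positivity
        linarith)
    refine log_lim (M := fun N : ℕ => (-Complex.I) * ∫ x in (-ρ)..ρ, Ea a N x *
      (X N x * kerL ε N x (p N))) (T := fun N : ℕ => stL ε a (fun N ψ => UN N ψ * X N ψ) N (p N))
      (κ := κ₁ / 2) (C := 1) (by positivity) zero_le_one ?_ ?_
    · intro e he
      filter_upwards [hM e he] with N h1
      rw [norm_mul, norm_neg, Complex.norm_I, one_mul]
      exact h1
    · filter_upwards [hloc, hun (κ₁ / 2) (by positivity)] with N h1 h2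
      have k1 := h1 (p N) (hp N)
      have k2 := h2 0 m0
      have e1 : stL ε a (fun N ψ => UN N ψ * X N ψ) N (p N) =
          upp (1 / N) fun w => Ea a N w * (UN N w * (X N w * kerL ε N w (p N))) * kr N w := by
        rw [stL_eq hZ.hε.2 a (fun N ψ => UN N ψ * X N ψ) (fun N => (UN_diff N).mul (hX.an N))]
        congr 1
        funext w
        ring
      rw [e1, one_mul]
      refine k1.trans (Real.exp_le_exp.2 (mul_le_mul_of_nonneg_left ?_ (Nat.cast_nonneg N)))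
      rw [Complex.add_re, Complex.add_re]
      linarith [(abs_le.1 k2).2]

end

end Pool.Agent.TH563.Z
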