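import Pool.Agent.TH563.Z.Defs
import Pool.Agent.W719.AX.Ker

/-!
# Hubs of weight zero: asymptotic expansion of the lower part of the kernel

`kerL ε N ψ φ = N^(-3/2) e^(N s'(ψ, φ)) (A_0(ψ, φ) + A_1(ψ, φ) / N + …)` for `ψ` near `0` and `φ` near
`i η`.  First for real `ψ` and purely imaginary `φ` (everything is real there), then for complex
`ψ`, `φ` by `S_EXT` (with `φ = i (η + t)`, `t` near `0`).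
-/

set_option autoImplicit false

namespace Pool.Agent.TH563.Z

open Finset Filter Topology Metric
open Pool.Agent.W711.HT hiding XX
open Pool.Agent.W719.AX (UX Rl)
open scoped Real

/-- purely imaginary points near `i η` -/
def Il (η ρ : ℝ) : Set ℂ := {z : ℂ | z.re = 0 ∧ |z.im - η| < ρ}

/-- expansion of `R_d(ψ)`, `d = δ N`, `δ` near `δ₀ = dz η`, for `ψ` near `0` or near `i η` (as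
`S_EMR`); job Z-EMR -/
def S_EMRZ : Prop := ∀ η : ℝ, Adm η → ∃ ρ : ℝ, 0 < ρ ∧ ρ ≤ 1 / 16 ∧ ∃ u : ℕ → ℂ → ℂ → ℂ,
  (∀ k, ∀ ψ ∈ ball (0 : ℂ) ρ ∪ ball (η * Complex.I) ρ,
    DifferentiableOn ℂ (fun δ => u k δ ψ) (ball (dz η : ℂ) ρ)) ∧
  (∀ k, ∃ B : ℝ, ∀ δ ∈ ball (dz η : ℂ) ρ, ∀ ψ ∈ ball (0 : ℂ) ρ ∪ ball (η * Complex.I) ρ,
    ‖u k δ ψ‖ ≤ B) ∧
  ∀ K : ℕ, ∃ C : ℝ, ∀ᶠ N : ℕ in atTop, ∀ d : ℕ, |(d : ℝ) / N - dz η| < ρ →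
    ∀ ψ ∈ ball (0 : ℂ) ρ ∪ ball (η * Complex.I) ρ, ∃ e : ℂ, ‖e‖ ≤ C / (N : ℝ) ^ K ∧
      Rp N d ψ = Complex.exp (N * rrF ((d : ℂ) / N) ψ +
        ∑ k ∈ range K, u k ((d : ℂ) / N) ψ / (N : ℂ) ^ k + e)

/-- expansion of `S_d`, `d = δ N`, `δ` near `y₀` (as `S_EMS`); job Z-EMS -/
def S_EMSZ : Prop := ∀ y₀ : ℝ, 1 / 4 ≤ y₀ → y₀ ≤ 3 / 8 → ∃ ρ : ℝ, 0 < ρ ∧ ρ ≤ 1 / 16 ∧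
  ∃ v : ℕ → ℂ → ℂ,
  (∀ k, DifferentiableOn ℂ (v k) (ball (y₀ : ℂ) ρ)) ∧
  (∀ k, ∃ B : ℝ, ∀ δ ∈ ball (y₀ : ℂ) ρ, ‖v k δ‖ ≤ B) ∧
  ∀ K : ℕ, ∃ C : ℝ, ∀ᶠ N : ℕ in atTop, ∀ d : ℕ, |(d : ℝ) / N - y₀| < ρ →
    ∃ e : ℂ, ‖e‖ ≤ C / (N : ℝ) ^ K ∧
      (Sd N d : ℂ) ^ 2 = N * Complex.exp (2 * N * ssF ((d : ℂ) / N) +
        ∑ k ∈ range K, v k ((d : ℂ) / N) / (N : ℂ) ^ k + e)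

/-- the window of the sum: sum over `d` near `y₀ N`, uniformly in a parameter (as `S_WIN`);
job Z-WIN -/
def S_WINZ : Prop := ∀ y₀ : ℝ, 1 / 4 ≤ y₀ → y₀ ≤ 3 / 8 → ∀ (ρ c B : ℝ), 0 < ρ → ρ ≤ 1 / 16 →
  0 < c → ∀ (E : Type) (S : Set E) (Θ : E → ℂ → ℂ) (δs : E → ℝ) (w : ℕ → E × ℂ → ℂ)
    (T : ℕ → ℕ → E → ℂ),
  (∀ p ∈ S, DifferentiableOn ℂ (Θ p) (ball (y₀ : ℂ) ρ) ∧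
    (∀ δ ∈ ball (y₀ : ℂ) ρ, ‖Θ p δ‖ ≤ B) ∧
    |δs p - y₀| ≤ ρ / 4 ∧ deriv (Θ p) (δs p) = 0 ∧
    (∀ x : ℝ, |x - y₀| < ρ → (Θ p x).im = 0) ∧
    ∀ x : ℝ, |x - y₀| < ρ → (deriv (deriv (Θ p)) x).re ≤ -c) →
  (∀ k, ∀ p ∈ S, DifferentiableOn ℂ (fun δ => w k (p, δ)) (ball (y₀ : ℂ) ρ)) →
  (∀ k, ∃ B' : ℝ, ∀ p ∈ S, ∀ δ ∈ ball (y₀ : ℂ) ρ, ‖w k (p, δ)‖ ≤ B') →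
  (∀ K : ℕ, ∃ C : ℝ, ∀ᶠ N : ℕ in atTop, ∀ d : ℕ, |(d : ℝ) / N - y₀| < ρ → ∀ p ∈ S,
    ∃ e : ℂ, ‖e‖ ≤ C / (N : ℝ) ^ K ∧ T N d p = Complex.exp (N * Θ p ((d : ℂ) / N) +
      ∑ k ∈ range K, w k (p, (d : ℂ) / N) / (N : ℂ) ^ k + e)) →
  ∃ r : ℝ, 0 < r ∧ r < ρ ∧ ∃ A : ℕ → E → ℂ,
    UX (fun N p => ((Real.sqrt N : ℝ) : ℂ)⁻¹ * Complex.exp (-(N * Θ p (δs p))) *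
      ∑ d ∈ (range N).filter (fun d : ℕ => |(d : ℝ) / N - y₀| < r), T N d p) A S ∧
    ∀ p ∈ S, A 0 p = Complex.exp (w 0 (p, δs p)) *
      (2 * π / (-(deriv (deriv (Θ p)) (δs p)))) ^ (1 / 2 : ℂ)

/-- the normalised lower part of the kernel -/
noncomputable def kxz (ε : ℝ) (s : ℂ → ℂ → ℂ) (N : ℕ) (x : ℂ × ℂ) : ℂ :=
  ((Real.sqrt N) ^ 3 : ℝ) * Complex.exp (-(N * s x.1 x.2)) * kerL ε N x.1 x.2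

/-- the lower part of the kernel at real points (as `S_KXR`); job Z-KXR -/
def S_KXRZ : Prop := ∀ (η ε ρ τ ρ' τ' κ c : ℝ) (s dl : ℂ → ℂ → ℂ), Adm η → FDZ η ε →
  KDZ η ε ρ τ ρ' τ' κ c s dl →
  ∃ ρ₁ : ℝ, 0 < ρ₁ ∧ ρ₁ ≤ ρ ∧ ρ₁ ≤ τ' ∧ ∃ (a : ℕ → ℂ × ℂ → ℂ) (c₁ : ℝ), 0 < c₁ ∧
    UX (kxz ε s) a (Rl ρ₁ ×ˢ Il η ρ₁) ∧ ∀ x ∈ Rl ρ₁ ×ˢ Il η ρ₁, c₁ ≤ ‖a 0 x‖

/-- the expansion of the lower part of the kernel near `(0, i η)` (as `KXD`) -/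
structure KXZ (η ε ρ₂ τ₂ ρ₃ τ₃ : ℝ) (s : ℂ → ℂ → ℂ) (A : ℕ → ℂ × ℂ → ℂ) : Prop where
  hρ : 0 < ρ₂
  hτ : 0 < τ₂
  hρ' : 0 < ρ₃
  hτ' : 0 < τ₃
  ux : UX (kxz ε s) A (Rc ρ₂ τ₂ ×ˢ Rz η ρ₃ τ₃)
  d1 : ∀ k, ∀ φ ∈ Rz η ρ₃ τ₃, DifferentiableOn ℂ (fun ψ => A k (ψ, φ)) (Rc ρ₂ τ₂)
  d2 : ∀ k, ∀ ψ ∈ Rc ρ₂ τ₂, DifferentiableOn ℂ (fun φ => A k (ψ, φ)) (Rz η ρ₃ τ₃)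
  nz : ∀ x ∈ Rc ρ₂ τ₂ ×ˢ Rz η ρ₃ τ₃, A 0 x ≠ 0

/-- job Z-KXC: from real to complex points (as `S_KXC`) -/
def S_KXCZ : Prop := ∀ (η ε ρ τ ρ' τ' κ c : ℝ) (s dl : ℂ → ℂ → ℂ), Adm η → FDZ η ε →
  KDZ η ε ρ τ ρ' τ' κ c s dl →
  ∃ ρ₂ τ₂ ρ₃ τ₃ : ℝ, ρ₂ ≤ ρ ∧ τ₂ ≤ τ ∧ ρ₃ ≤ ρ' ∧ τ₃ ≤ τ' ∧ ∃ A : ℕ → ℂ × ℂ → ℂ,
    KXZ η ε ρ₂ τ₂ ρ₃ τ₃ s A

end Pool.Agent.TH563.Z
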