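import Pool.Agent.TH563.Z.MainZ
import Pool.Agent.TH563.Z.Kx

/-!
# Hubs of weight zero: asymptotic expansions at the children of the hub
-/

set_option autoImplicit false
set_option maxHeartbeats 1000000

namespace Pool.Agent.TH563.Z

open Finset Filter Topology Metric
open Pool.Agent.W711.HT hiding XX
open Pool.Agent.TH563.UV
open Pool.Agent.W719.AX (UX GX Rl ig S_LOCX)
open Pool.Agent.W85.HT hiding Rc_mono
open Pool.Agent.W293.HT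
open Pool.Agent.W688.AX (isOpen_Rcx cont2 unif_neg sq3_ev sqrt4 nbhd)
open Pool.Agent.TH929.J29 (UN_diff locb locxb even_deriv_zero)
open scoped Real

/-- the functions of the children have asymptotic expansions near `i η` (as `GX`) -/
structure GXZ (η ρ₃ τ₃ : ℝ) (m : ℕ) (Y : ℕ → ℂ → ℂ) (F : ℂ → ℂ) (A : ℕ → ℂ → ℂ) : Prop where
  ux : UX (fun N z => (N : ℂ) ^ (2 * m) * (-1) ^ (N * m) * Complex.exp (-(N * F z)) * Y N z) A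
    (Rz η ρ₃ τ₃)
  an : ∀ k, DifferentiableOn ℂ (A k) (Rz η ρ₃ τ₃)
  nz : ∀ z ∈ Rz η ρ₃ τ₃, A 0 z ≠ 0

lemma ux_mono {E : Type} {Y : ℕ → E → ℂ} {A : ℕ → E → ℂ} {S S' : Set E} (h : UX Y A S)
    (hS : S' ⊆ S) : UX Y A S' := by
  intro K
  obtain ⟨C, hC⟩ := h K
  exact ⟨C, hC.mono fun N hN p hp => hN p (hS hp)⟩

lemma gx_mono {ρ τ ρ' τ' : ℝ} {m : ℕ} {X : ℕ → ℂ → ℂ} {F : ℂ → ℂ} {A : ℕ → ℂ → ℂ}
    (h : GX ρ τ m X F A) (h1 : ρ' ≤ ρ) (h2 : τ' ≤ τ) : GX ρ' τ' m X F A := by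
  have hs : Rc ρ' τ' ⊆ Rc ρ τ := Rc_mono h1 h2
  exact ⟨ux_mono h.ux hs, fun k => (h.an k).mono hs, fun z hz => h.nz z (hs hz)⟩

lemma kxz_mono {η ε ρ₂ τ₂ ρ₃ τ₃ ρ₂' τ₂' : ℝ} {s : ℂ → ℂ → ℂ} {A : ℕ → ℂ × ℂ → ℂ}
    (h : KXZ η ε ρ₂ τ₂ ρ₃ τ₃ s A) (h1 : ρ₂' ≤ ρ₂) (h2 : τ₂' ≤ τ₂) (h3 : 0 < ρ₂') (h4 : 0 < τ₂') :
    KXZ η ε ρ₂' τ₂' ρ₃ τ₃ s A := by
  have hs : Rc ρ₂' τ₂' ⊆ Rc ρ₂ τ₂ := Rc_mono h1 h2
  exact ⟨h3, h4, h.hρ', h.hτ', ux_mono h.ux (Set.prod_mono hs subset_rfl),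
    fun k φ hφ => (h.d1 k φ hφ).mono hs, fun k ψ hψ => h.d2 k ψ (hs hψ),
    fun x hx => h.nz x ⟨hs hx.1, hx.2⟩⟩

section

variable {ρ₀ τ₀ κ₀ c₀ ε₀ : ℝ} {s dl : ℂ → ℂ → ℂ} {η ε ρ τ ρ' τ' κ c' : ℝ} {s' dl' : ℂ → ℂ → ℂ}
  {t m : ℕ} {X : ℕ → ℂ → ℂ} {F : ℂ → ℂ} {A : ℕ → ℂ → ℂ} {ρ₂ τ₂ ρ₃ τ₃ : ℝ} {Ak : ℕ → ℂ × ℂ → ℂ}

/-- expansions at a child without circle -/
theorem gxF (hX : GoodU ρ₀ τ₀ κ₀ ε₀ s t X F) (hA : GX ρ₂ τ₂ m X F A)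
    (hB : XB X (F 0).re) (hZ : KDZ η ε ρ τ ρ' τ' κ c' s' dl') {C'' : ℝ}
    (hE : EZ η ρ τ ρ' τ' c' C'' s') (hρρ : 3 * ρ ≤ ρ₀) (hττ : 3 * τ ≤ τ₀)
    (hAk : KXZ η ε ρ₂ τ₂ ρ₃ τ₃ s' Ak) (hρ₂ : ρ₂ ≤ ρ) (hτ₂ : τ₂ ≤ τ) (hρ₃ : ρ₃ ≤ ρ') (hτ₃ : τ₃ ≤ τ')
    {a : ℤ} {r₀ : ℝ} (hr₀ : r₀ < min ρ₂ τ₂ / 4)
    {F' zs : ℂ → ℂ} (hF'd : DifferentiableOn ℂ F' (Rz η (3 * ρ') (3 * τ')))
    (hzd : DifferentiableOn ℂ zs (Rz η (3 * ρ') (3 * τ')))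
    (hF'n : ∀ φ ∈ Rz η (3 * ρ') (3 * τ'), ‖F' φ - F 0 - s' 0 φ‖ ≤ κ / 16)
    (hF'z : ∀ φ ∈ Rz η (3 * ρ') (3 * τ'), CPu ρ τ r₀ (zs φ) ∧
      SAD a (fun w => F w + s' w φ) ρ (zs φ) ∧ F' φ = qq a F (zs φ) + s' (zs φ) φ) :
    ∃ A' : ℕ → ℂ → ℂ, GXZ η ρ₃ τ₃ (m + 1) (stL ε a X) F' A' := by
  have hLG : S_LOCU := locu Pool.Agent.W711.HT.upb
  have hLX : S_LOCX := Pool.Agent.W21.AX.locx Pool.Agent.W719.AX.f_LX Pool.Agent.W303.AX.uxmul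
  have hρ0 := hZ.hρ.1
  have hρ1 := hZ.hρ.2
  have hτ0 := hZ.hτ.1
  have hρ'0 := hZ.hρ'.1
  have hτ'0 := hZ.hτ'.1
  have hκ := hZ.hκ.1
  have hρ20 := hAk.hρ
  have hτ20 := hAk.hτ
  have hρ30 := hAk.hρ'
  have hτ30 := hAk.hτ'
  have hm0 : 0 < min ρ₂ τ₂ := lt_min hρ20 hτ20
  have hzn : ∀ φ ∈ Rz η (3 * ρ') (3 * τ'), ‖zs φ‖ < min ρ₂ τ₂ / 4 := fun φ hφ =>
    ((hF'z φ hφ).1.sm).trans_lt hr₀
  have hKc : Kz η ρ₃ τ₃ ⊆ Rz η (3 * ρ') (3 * τ') := by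
    intro w hw
    rw [Kz_mem] at hw
    exact ⟨by linarith [hw.1], by linarith [hw.2]⟩
  have hSK : Rz η ρ₃ τ₃ ⊆ Kz η ρ₃ τ₃ := by
    intro w hw
    rw [Kz_mem]
    exact ⟨hw.1.le, hw.2.le⟩
  have hRr : Rz η ρ₃ τ₃ ⊆ Rz η (3 * ρ') (3 * τ') := hSK.trans hKc
  have hR0 : Rc (2 * ρ) (2 * τ) ⊆ Rc (3 * ρ₀) (3 * τ₀) := Rc_mono (by linarith) (by linarith)
  have hR23 : Rc (2 * ρ) (2 * τ) ⊆ Rc (3 * ρ) (3 * τ) := Rc_mono (by linarith) (by linarith)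
  have hR2 : Rc ρ₂ τ₂ ⊆ Rc (3 * ρ) (3 * τ) := Rc_mono (by linarith) (by linarith)
  have hR20 : Rc ρ₂ τ₂ ⊆ Rc (3 * ρ₀) (3 * τ₀) := Rc_mono (by linarith) (by linarith)
  have hV : ∀ p ∈ Rz η (3 * ρ') (3 * τ'), qq a (fun w => F w + s' w p) (zs p) = F' p := by
    intro p hp
    have e : qq a (fun w => F w + s' w p) (zs p) = qq a F (zs p) + s' (zs p) p := by
      unfold qq; ring
    rw [e, (hF'z p hp).2.2]
  have hsd : ∀ p ∈ Rz η (3 * ρ') (3 * τ'),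
      DifferentiableOn ℂ (fun w => s' w p) (Rc (3 * ρ) (3 * τ)) := fun p hp => s_diffZ hE.san hp
  have hlow : ∀ φ ∈ Rz η (3 * ρ') (3 * τ'), (F 0).re + (s' 0 φ).re - κ / 16 ≤ (F' φ).re := by
    intro φ hφ
    have h2 := (Complex.abs_re_le_norm _).trans (hF'n φ hφ)
    rw [Complex.sub_re, Complex.sub_re] at h2
    linarith [(abs_le.1 h2).1]
  -- the constant of the second derivative
  have hc2 : ContinuousOn (fun p => deriv (deriv (qq a (fun w => F w + s' w p))) (zs p))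
      (Kz η ρ₃ τ₃) := by
    have hKK : Kc (2 * ρ) (2 * τ) ⊆ Rc (3 * ρ) (3 * τ) := by
      intro w hw
      rw [Kc_mem] at hw
      exact ⟨by linarith [hw.1], by linarith [hw.2]⟩
    refine cont2 (isOpen_Rcx (2 * ρ) (2 * τ)) (Kc_compact (2 * ρ) (2 * τ)) ?_ (hX.Fan.mono hR0)
      (fun p hp => (hsd p (hKc hp)).mono hR23) (hE.san.continuousOn.mono (Set.prod_mono hKK hKc))
      (Kz_compact _ _ _) (hzd.continuousOn.mono hKc) ?_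
    · intro w hw
      rw [Kc_mem]
      exact ⟨hw.1.le, hw.2.le⟩
    · intro p hp
      exact Rc_mono (by linarith) (by linarith) (hF'z p (hKc hp)).1.mem
  have m0 : (η : ℂ) * Complex.I ∈ Kz η ρ₃ τ₃ := by
    rw [Kz_mem]
    have a1 : ((η : ℂ) * Complex.I).re = 0 := by simp
    have a2 : ((η : ℂ) * Complex.I).im = η := by simp
    rw [a1, a2, sub_self, abs_zero]
    exact ⟨hρ30.le, hτ30.le⟩
  obtain ⟨c₁, hc₁0, hc₁⟩ := unif_neg (Kz_compact η ρ₃ τ₃) ⟨_, m0⟩ hc2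
    (fun p hp => (hF'z p (hKc hp)).2.1.neg)
  obtain ⟨ci, hci0, hci⟩ := im_low (Kz_compact η ρ₃ τ₃) (hzd.continuousOn.mono hKc)
    (fun p hp => (hF'z p (hKc hp)).1.im)
  have hmwp := mw_prod hX hZ hρρ hττ
  have hfarp := far_prod hB hZ
  have hKK2 : Kz η ρ₃ τ₃ ⊆ Kz η (2 * ρ') (2 * τ') := by
    intro w hw
    rw [Kz_mem] at hw ⊢
    exact ⟨by linarith [hw.1], by linarith [hw.2]⟩
  -- localisation
  have hloc := hLG ρ τ ci a ℂ (Kz η ρ₃ τ₃) (fun N w p => X N w * kerL ε N w p)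
    (fun w p => F w + s' w p) zs hρ0 hρ1 hτ0 hci0 (Kz_compact _ _ _)
    (fun N p _ => (hX.an N).mul (kerL_diff ε N p))
    (fun p hp => (hX.Fan.mono hR0).add ((hsd p (hKc hp)).mono hR23))
    ((hX.Fan.continuousOn.comp continuousOn_fst (fun x hx => hR0 hx.1)).add
      (hE.san.continuousOn.mono (Set.prod_mono hR23 hKc)))
    (hzd.continuousOn.mono hKc)
    (by
      intro e he
      filter_upwards [hmwp e he] with N h1 w hw p hp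
      exact h1 w hw p (hKK2 hp))
    (fun p hp => ⟨⟨(hF'z p (hKc hp)).1.mem, hci p hp⟩, (hF'z p (hKc hp)).2.1⟩)
    ⟨κ / 4, by positivity, by
      filter_upwards [hfarp] with N h1 p hp x y hx1 hx2 hy
      have k1 := h1 p (hKK2 hp) x y hx1 hx2 hy
      rw [hV p (hKc hp)]
      refine k1.trans ?_
      apply Real.exp_le_exp.2
      apply mul_le_mul_of_nonneg_left _ (Nat.cast_nonneg N)
      have k3 := hlow p (hKc hp)
      linarith⟩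
  obtain ⟨BF, hBF⟩ := (Kc_compact ρ₂ τ₂).exists_bound_of_continuousOn
    (hX.Fan.continuousOn.mono (show Kc ρ₂ τ₂ ⊆ Rc (3 * ρ₀) (3 * τ₀) from by
      intro w hw
      rw [Kc_mem] at hw
      exact ⟨by linarith [hw.1], by linarith [hw.2]⟩))
  have hSKc : Rc ρ₂ τ₂ ⊆ Kc ρ₂ τ₂ := by
    intro w hw
    rw [Kc_mem]
    exact ⟨hw.1.le, hw.2.le⟩
  obtain ⟨B, hB', hB0⟩ := hLX ρ₂ τ₂ (min ρ₂ τ₂ / 2) c₁ m a ℂ (Rz η ρ₃ τ₃) X F A
    (fun N w p => kxz ε s' N (w, p)) Ak s' zs F'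
    (fun N p => ((Real.sqrt N : ℝ) : ℂ) ^ 3 * stL ε a X N p)
    (by positivity) hc₁0 hA hX.an (hX.Fan.mono hR20)
    (fun p hp u hu => nbhd (hzn p (hRr hp)) hu)
    ⟨max BF C'', fun w hw => ⟨(hBF w (hSKc hw)).trans (le_max_left _ _), fun p hp =>
      (hE.sbd w (hR2 hw) p (hRr hp)).trans (le_max_right _ _)⟩⟩
    (by
      intro N p hp
      have h1 : ContinuousOn (fun w => s' w p) (Rc ρ₂ τ₂) :=
        ((hsd p (hRr hp)).mono hR2).continuousOn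
      have h2 : ContinuousOn (fun w => kerL ε N w p) (Rc ρ₂ τ₂) :=
        (kerL_diff ε N p).continuous.continuousOn
      unfold kxz
      exact (continuousOn_const.mul
        (Complex.continuous_exp.comp_continuousOn (continuousOn_const.mul h1).neg)).mul h2)
    (fun p hp => (hsd p (hRr hp)).mono hR2) hAk.ux (fun n p hp => hAk.d1 n p hp) hAk.nz
    (fun p hp => ⟨(hF'z p (hRr hp)).2.1.sn, (hV p (hRr hp)).symm, (hF'z p (hRr hp)).2.1.crit,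
      hc₁ p (hSK hp)⟩)
    (by
      intro δ' hδ'0 hδ'
      obtain ⟨κ', hκ', h⟩ := hloc δ' hδ'0 (fun p hp => by
        have h1 := hzn p (hKc hp)
        have h2 := Complex.abs_re_le_norm (zs p)
        have h3 := min_le_left ρ₂ τ₂
        linarith)
      refine ⟨κ' / 2, by positivity, ?_⟩
      filter_upwards [h, sq3_ev (κ := κ' / 2) (by positivity)] with N h1 h2 p hp
      have h3 := h1 p (hSK hp)
      rw [hV p (hRr hp)] at h3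
      have e1 : (∫ x in (-δ')..δ', ig a N (zs p + x) *
          (X N (zs p + x) * (Complex.exp (N * s' (zs p + x) p) * kxz ε s' N (zs p + x, p)))) =
          ((Real.sqrt N : ℝ) : ℂ) ^ 3 * ∫ x in (-δ')..δ', ig a N (zs p + x) *
            (X N (zs p + x) * kerL ε N (zs p + x) p) := by
        rw [← intervalIntegral.integral_const_mul]
        congr 1
        funext x
        unfold kxz
        have e2 : Complex.exp (N * s' (zs p + x) p) * Complex.exp (-(N * s' (zs p + x) p)) = 1 := by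
          rw [← Complex.exp_add, add_neg_cancel, Complex.exp_zero]
        push_cast
        linear_combination (ig a N (zs p + x) * X N (zs p + x) * ((Real.sqrt N : ℝ) : ℂ) ^ 3 *
          kerL ε N (zs p + x) p) * e2
      rw [e1, stL_eq hZ.hε.2 a X hX.an, ← mul_sub, norm_mul]
      have h4 : ‖((Real.sqrt N : ℝ) : ℂ) ^ 3‖ = (Real.sqrt N) ^ 3 := by
        rw [norm_pow, Complex.norm_real, Real.norm_eq_abs, abs_of_nonneg (Real.sqrt_nonneg _)]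
      rw [h4]
      refine (mul_le_mul h2 h3 (norm_nonneg _) (Real.exp_pos _).le).trans ?_
      rw [← Real.exp_add]
      apply le_of_eq
      congr 1
      ring)
  have hfun : (fun (N : ℕ) (z : ℂ) => (N : ℂ) ^ (2 * (m + 1)) * (-1) ^ (N * (m + 1)) *
      Complex.exp (-(N * F' z)) * stL ε a X N z) = (fun (N : ℕ) (p : ℂ) => (N : ℂ) ^ (2 * m) *
      (Real.sqrt N : ℂ) * (-1) ^ (N * (m + 1)) *
      Complex.exp (-(N * F' p)) * (((Real.sqrt N : ℝ) : ℂ) ^ 3 * stL ε a X N p)) := by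
    funext N p
    have e := sqrt4 N
    have e3 : (N : ℂ) ^ (2 * (m + 1)) = (N : ℂ) ^ (2 * m) * (N : ℂ) ^ 2 := by ring
    rw [e3, ← e]
    ring
  have hux : UX (fun (N : ℕ) (z : ℂ) => (N : ℂ) ^ (2 * (m + 1)) * (-1) ^ (N * (m + 1)) *
      Complex.exp (-(N * F' z)) * stL ε a X N z) B (Rz η ρ₃ τ₃) := by
    rw [hfun]
    exact hB'
  refine ⟨B, hux, ?_, hB0⟩
  refine Pool.Agent.W303.AX.uxan _ B (Rz η ρ₃ τ₃) (isOpen_Rz _ _ _) ?_ hux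
  filter_upwards with N
  have h1 : DifferentiableOn ℂ (fun z => Complex.exp (-((N : ℂ) * F' z))) (Rz η ρ₃ τ₃) :=
    (((hF'd.mono hRr).const_mul (N : ℂ)).neg).cexp
  exact (h1.const_mul ((N : ℂ) ^ (2 * (m + 1)) * (-1) ^ (N * (m + 1)))).mul
    (stL_diff ε a X N).differentiableOn

end

end Pool.Agent.TH563.Z
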