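import Pool.Agent.TH563.Z.OutX

/-!
# Hubs of weight zero: asymptotic expansion of the outer integral
-/

set_option autoImplicit false
set_option maxHeartbeats 1000000

namespace Pool.Agent.TH563.Z

open Finset Filter Topology Metric
open Pool.Agent.W711.HT hiding XX
open Pool.Agent.TH563.UV
open Pool.Agent.W719.AX (UX cv)
open Pool.Agent.W85.HT hiding Rc_mono
open Pool.Agent.W293.HT
open Pool.Agent.W21.AX (ux_comp ux_cst ux_small exp_small)
open scoped Real

/-- expansion of the outer integral -/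
theorem outer_ux {η ρ τ : ℝ} (hρ : 0 < ρ) (hρ1 : ρ ≤ 1 / 4) (hτ : 0 < τ) (hητ : 3 * τ < η)
    {P PL : ℕ → ℂ → ℂ} (hP : ∀ N, Differentiable ℂ (P N)) (hPL : ∀ N, Differentiable ℂ (PL N))
    (hper : ∀ N φ, PL N (φ + 2 * π) = PL N φ) {Φ : ℂ → ℂ}
    (hΦ : DifferentiableOn ℂ Φ (Rz η (3 * ρ) (3 * τ))) (hmw : MW PL Φ (Rz η (2 * ρ) (2 * τ)))
    {z : ℂ} (hz : z ∈ Rz η ρ τ) (hcrit : deriv (qz Φ) z = 0) (hneg : (deriv (deriv (qz Φ)) z).re < 0)
    (hline : ∀ x : ℝ, |x| ≤ ρ → x ≠ z.re → (qz Φ (x + z.im * Complex.I)).re < (qz Φ z).re)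
    {κ : ℝ} (hκ : 0 < κ)
    (hfar : ∀ᶠ N : ℕ in atTop, ∀ x : ℝ, ρ ≤ |x| → |x| ≤ π →
      ‖PL N (x + z.im * Complex.I)‖ ≤ Real.exp (N * ((qz Φ z).re + z.im - κ)))
    (hrem : ∀ᶠ N : ℕ in atTop, ‖upp (1 / N) fun φ => (P N φ - PL N φ) * kr N φ‖ ≤
      Real.exp (N * ((qz Φ z).re - κ))) {ρ₃ τ₃ : ℝ} {m : ℕ} {A : ℕ → ℂ → ℂ}
    (hA : GXZ η ρ₃ τ₃ m PL Φ A) (hz3 : z ∈ Rz η ρ₃ τ₃) :
    ∃ y : ℕ → ℂ, y 0 ≠ 0 ∧ UX (fun N (_ : Unit) => (N : ℂ) ^ (2 * m) * (Real.sqrt N : ℂ) *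
      (-1) ^ (N * (m + 1)) * Complex.exp (-(N * qz Φ z)) * upp (1 / N) fun φ => P N φ * kr N φ)
      (fun k _ => y k) Set.univ := by
  have hU3 := isOpen_Rz η (3 * ρ) (3 * τ)
  have hz0 : 0 < z.im := by
    have := (abs_lt.1 hz.2).1
    linarith
  have hqd : DifferentiableOn ℂ (qz Φ) (Rz η (3 * ρ) (3 * τ)) := by
    unfold qz
    exact (differentiable_id.const_mul Complex.I).differentiableOn.add hΦ
  obtain ⟨δ, hδ⟩ : ∃ δ : ℝ, δ = min (min (ρ - |z.re|) (τ - |z.im - η|))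
    (min (ρ₃ - |z.re|) (τ₃ - |z.im - η|)) := ⟨_, rfl⟩
  have hδ0 : 0 < δ := by
    rw [hδ]
    exact lt_min (lt_min (by linarith [hz.1]) (by linarith [hz.2]))
      (lt_min (by linarith [hz3.1]) (by linarith [hz3.2]))
  have hδ1 : |z.re| + δ ≤ ρ := by
    have : δ ≤ ρ - |z.re| := by rw [hδ]; exact (min_le_left _ _).trans (min_le_left _ _)
    linarith
  have hδ2 : |z.im - η| + δ ≤ τ := by
    have : δ ≤ τ - |z.im - η| := by rw [hδ]; exact (min_le_left _ _).trans (min_le_right _ _)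
    linarith
  have hδ3 : |z.re| + δ ≤ ρ₃ := by
    have : δ ≤ ρ₃ - |z.re| := by rw [hδ]; exact (min_le_right _ _).trans (min_le_left _ _)
    linarith
  have hδ4 : |z.im - η| + δ ≤ τ₃ := by
    have : δ ≤ τ₃ - |z.im - η| := by rw [hδ]; exact (min_le_right _ _).trans (min_le_right _ _)
    linarith
  have hball : ∀ u ∈ ball (0 : ℂ) δ, z + u ∈ Rz η ρ τ ∧ z + u ∈ Rz η ρ₃ τ₃ := by
    intro u hu
    rw [mem_ball, dist_zero_right] at hu
    have h1 := (Complex.abs_re_le_norm u).trans_lt hu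
    have h2 := (Complex.abs_im_le_norm u).trans_lt hu
    have h3 : |(z + u).re| ≤ |z.re| + |u.re| := by
      rw [Complex.add_re]; exact abs_add_le _ _
    have h4 : |(z + u).im - η| ≤ |z.im - η| + |u.im| := by
      rw [Complex.add_im]
      have := abs_add_le (z.im - η) u.im
      rwa [show z.im - η + u.im = z.im + u.im - η by ring] at this
    exact ⟨⟨by linarith, by linarith⟩, ⟨by linarith, by linarith⟩⟩
  have hR13 : Rz η ρ τ ⊆ Rz η (3 * ρ) (3 * τ) := Rz_mono (by linarith) (by linarith)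
  -- bounds
  obtain ⟨B, hB⟩ := (Kz_compact η ρ τ).exists_bound_of_continuousOn
    (hqd.continuousOn.mono (show Kz η ρ τ ⊆ Rz η (3 * ρ) (3 * τ) from by
      intro w hw
      rw [Kz_mem] at hw
      exact ⟨by linarith [hw.1], by linarith [hw.2]⟩))
  have hBR : ∀ w ∈ Rz η ρ τ, ‖qz Φ w‖ ≤ B := by
    intro w hw
    exact hB w (by rw [Kz_mem]; exact ⟨hw.1.le, hw.2.le⟩)
  obtain ⟨c, hc⟩ : ∃ c : ℝ, c = -(deriv (deriv (qz Φ)) z).re := ⟨_, rfl⟩
  have hc0 : 0 < c := by rw [hc]; linarith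
  obtain ⟨q, hq⟩ : ∃ q : Unit → ℂ → ℂ, q = fun _ u => qz Φ (z + u) - qz Φ z := ⟨_, rfl⟩
  have hd1 : deriv (q ()) = fun u => deriv (qz Φ) (z + u) := by
    funext u
    rw [hq]
    show deriv (fun u => qz Φ (z + u) - qz Φ z) u = _
    rw [deriv_sub_const, deriv_comp_const_add]
  have hd2 : deriv (deriv (q ())) 0 = deriv (deriv (qz Φ)) z := by
    rw [hd1, deriv_comp_const_add, add_zero]
  have hcond : ∀ p ∈ (Set.univ : Set Unit), DifferentiableOn ℂ (q p) (ball 0 δ) ∧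
      (∀ u ∈ ball (0 : ℂ) δ, ‖q p u‖ ≤ 2 * B) ∧
      q p 0 = 0 ∧ deriv (q p) 0 = 0 ∧ (deriv (deriv (q p)) 0).re ≤ -c := by
    rintro ⟨⟩ _
    refine ⟨?_, ?_, ?_, ?_, ?_⟩
    · rw [hq]
      refine DifferentiableOn.sub_const ?_ _
      exact hqd.comp (by fun_prop) (fun u hu => hR13 (hball u hu).1)
    · intro u hu
      rw [hq]
      show ‖qz Φ (z + u) - qz Φ z‖ ≤ 2 * B
      have := norm_sub_le (qz Φ (z + u)) (qz Φ z)
      have h1 := hBR _ (hball u hu).1
      have h2 := hBR _ hz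
      linarith
    · rw [hq]
      show qz Φ (z + 0) - qz Φ z = 0
      rw [add_zero, sub_self]
    · rw [hd1]
      show deriv (qz Φ) (z + 0) = 0
      rw [add_zero, hcrit]
    · rw [hd2, hc]
      linarith
  obtain ⟨δ', hδ', hδδ, hLap⟩ := Pool.Agent.W719.AX.f_LX δ (2 * B) c hδ0 hc0
  obtain ⟨δ'', hδ''⟩ : ∃ δ'' : ℝ, δ'' = min δ' (δ / 2) := ⟨_, rfl⟩
  have hδ''0 : 0 < δ'' := by rw [hδ'']; exact lt_min hδ' (by linarith)
  have hδ''1 : δ'' ≤ δ' := by rw [hδ'']; exact min_le_left _ _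
  have hδ''2 : δ'' ≤ δ / 2 := by rw [hδ'']; exact min_le_right _ _
  -- the amplitude
  obtain ⟨H, hH⟩ : ∃ H : ℕ → Unit × ℂ → ℂ, H = fun (N : ℕ) (x : Unit × ℂ) =>
    ((N : ℂ) ^ (2 * m) * (-1) ^ (N * m) *
    Complex.exp (-(N * Φ (z + x.2))) * PL N (z + x.2)) * (2 * Complex.sin (z + x.2)) := ⟨_, rfl⟩
  obtain ⟨h, hh⟩ : ∃ h : ℕ → Unit × ℂ → ℂ, h = cv (fun n (x : Unit × ℂ) => A n (z + x.2))
    (fun n x => if n = 0 then 2 * Complex.sin (z + x.2) else 0) := ⟨_, rfl⟩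
  obtain ⟨Bs, hBs⟩ := (Kz_compact η ρ τ).exists_bound_of_continuousOn
    (show ContinuousOn (fun w : ℂ => 2 * Complex.sin w) (Kz η ρ τ) from by fun_prop)
  have hHh : UX H h (Set.univ ×ˢ ball (0 : ℂ) δ) := by
    rw [hH, hh]
    have u1 := ux_comp hA.ux (fun x : Unit × ℂ => z + x.2) (Set.univ ×ˢ ball (0 : ℂ) δ)
      (fun x hx => (hball x.2 hx.2).2)
    have u2 := ux_cst (fun x : Unit × ℂ => 2 * Complex.sin (z + x.2))
      (Set.univ ×ˢ ball (0 : ℂ) δ) Bs (fun x hx => by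
        have h1 := (hball x.2 hx.2).1
        exact hBs _ (by rw [Kz_mem]; exact ⟨h1.1.le, h1.2.le⟩))
    exact Pool.Agent.W303.AX.uxmul _ _ _ _ _ _ u1 u2
  have hcont : ∀ᶠ N : ℕ in atTop, ∀ p ∈ (Set.univ : Set Unit),
      ContinuousOn (fun u => H N (p, u)) (ball 0 δ) := by
    refine Eventually.of_forall fun N p _ => ?_
    rw [hH]
    have c1 : ContinuousOn (fun u : ℂ => z + u) (ball 0 δ) := by fun_prop
    have c2 : ContinuousOn (fun u : ℂ => Φ (z + u)) (ball 0 δ) :=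
      hΦ.continuousOn.comp c1 (fun u hu => hR13 (hball u hu).1)
    have c3 : ContinuousOn (fun u : ℂ => PL N (z + u)) (ball 0 δ) :=
      (hPL N).continuous.comp_continuousOn c1
    have c4 : ContinuousOn (fun u : ℂ => Complex.sin (z + u)) (ball 0 δ) :=
      Complex.continuous_sin.comp_continuousOn c1
    exact ((continuousOn_const.mul (continuousOn_const.mul c2).neg.cexp).mul c3).mul
      (continuousOn_const.mul c4)
  have hdiff : ∀ n, ∀ p ∈ (Set.univ : Set Unit),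
      DifferentiableOn ℂ (fun u => h n (p, u)) (ball 0 δ) := by
    intro n p _
    have c1 : DifferentiableOn ℂ (fun u : ℂ => z + u) (ball 0 δ) := by fun_prop
    have d2 : ∀ i : ℕ, DifferentiableOn ℂ (fun u : ℂ => A i (z + u)) (ball 0 δ) :=
      fun i => (hA.an i).comp c1 (fun u hu => (hball u hu).2)
    have d3 : ∀ i : ℕ, DifferentiableOn ℂ (fun u : ℂ =>
        if i = 0 then 2 * Complex.sin (z + u) else 0) (ball 0 δ) := by
      intro i
      by_cases hi : i = 0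
      · simp only [hi, if_true]
        fun_prop
      · simp only [hi, if_false]
        exact differentiableOn_const _
    rw [hh]
    simp only [cv]
    exact DifferentiableOn.fun_sum fun j _ => (d2 j).mul (d3 _)
  obtain ⟨A', hA', hA'0⟩ := hLap δ'' hδ''0 hδ''1 Unit Set.univ q H h hcond hcont hdiff hHh
  obtain ⟨κ', hκ', hW⟩ := loc_z hρ hρ1 hτ hητ hP hPL hper hΦ hmw hz hline hκ hfar hrem hδ''0
    (by linarith)
  refine ⟨fun k => A' k (), ?_, ux_small hA' (fun K => ⟨1, ?_⟩)⟩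
  · show A' 0 () ≠ 0
    rw [hA'0 () (Set.mem_univ _), hd2]
    have hh0 : h 0 ((), 0) = A 0 z * (2 * Complex.sin z) := by
      rw [hh]
      simp [cv]
    rw [hh0]
    have hsin : Complex.sin z ≠ 0 := by
      intro h0
      obtain ⟨k, hk⟩ := Complex.sin_eq_zero_iff.1 h0
      have : z.im = 0 := by
        rw [hk]
        have : (k : ℂ) * π = ((k * π : ℝ) : ℂ) := by push_cast; ring
        rw [this, Complex.ofReal_im]
      linarith
    refine mul_ne_zero (mul_ne_zero (hA.nz z hz3) (mul_ne_zero two_ne_zero hsin)) ?_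
    rw [Ne, Complex.cpow_eq_zero_iff]
    rintro ⟨h5, -⟩
    have h6 : deriv (deriv (qz Φ)) z ≠ 0 := by
      intro h7
      rw [h7] at hneg
      simp at hneg
    have h8 : (2 * (π : ℂ)) ≠ 0 := by
      have := Complex.ofReal_ne_zero.2 Real.pi_ne_zero
      exact mul_ne_zero two_ne_zero this
    exact (div_ne_zero h8 (neg_ne_zero.2 h6)) h5
  · filter_upwards [hW, exp_small κ' hκ' (2 * m + 1) K, eventually_ge_atTop 1] with N h1 h2 h3 p _
    have hN1 : (1 : ℝ) ≤ N := by exact_mod_cast h3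
    have e1 : (Real.sqrt N : ℂ) * ∫ x in (-δ'')..δ'', Complex.exp (N * q p x) * H N (p, x) =
        (N : ℂ) ^ (2 * m) * (Real.sqrt N : ℂ) * (-1) ^ (N * (m + 1)) *
          Complex.exp (-(N * qz Φ z)) * ((-1) ^ N * ∫ x in (-δ'')..δ'',
            2 * Complex.sin (z + x) * Complex.exp (Complex.I * N * (z + x)) * PL N (z + x)) := by
      have hsgn : (-1 : ℂ) ^ (N * (m + 1)) * (-1) ^ N = (-1) ^ (N * m) := by
        rw [Nat.mul_add, mul_one, pow_add, mul_assoc, ← pow_add, ← two_mul, pow_mul]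
        norm_num
      have e2 : (N : ℂ) ^ (2 * m) * (Real.sqrt N : ℂ) * (-1) ^ (N * (m + 1)) *
          Complex.exp (-(N * qz Φ z)) * ((-1) ^ N * ∫ x in (-δ'')..δ'',
            2 * Complex.sin (z + x) * Complex.exp (Complex.I * N * (z + x)) * PL N (z + x)) =
          (Real.sqrt N : ℂ) * (((N : ℂ) ^ (2 * m) * (-1) ^ (N * m) * Complex.exp (-(N * qz Φ z))) *
            ∫ x in (-δ'')..δ'',
            2 * Complex.sin (z + x) * Complex.exp (Complex.I * N * (z + x)) * PL N (z + x)) := by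
        rw [← hsgn]
        ring
      rw [e2]
      congr 1
      rw [← intervalIntegral.integral_const_mul]
      apply intervalIntegral.integral_congr
      intro x _
      show Complex.exp (N * q p x) * H N (p, x) = _
      rw [hq, hH]
      show Complex.exp (N * (qz Φ (z + x) - qz Φ z)) * (((N : ℂ) ^ (2 * m) * (-1) ^ (N * m) *
        Complex.exp (-(N * Φ (z + x))) * PL N (z + x)) * (2 * Complex.sin (z + x))) =
        ((N : ℂ) ^ (2 * m) * (-1) ^ (N * m) * Complex.exp (-(N * qz Φ z))) *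
          (2 * Complex.sin (z + x) * Complex.exp (Complex.I * N * (z + x)) * PL N (z + x))
      have e3 : Complex.exp (N * (qz Φ (z + x) - qz Φ z)) * Complex.exp (-(N * Φ (z + x))) =
          Complex.exp (-(N * qz Φ z)) * Complex.exp (Complex.I * N * (z + x)) := by
        rw [← Complex.exp_add, ← Complex.exp_add]
        congr 1
        unfold qz
        ring
      linear_combination ((N : ℂ) ^ (2 * m) * (-1) ^ (N * m) * PL N (z + x) *
        (2 * Complex.sin (z + x))) * e3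
    rw [e1, ← mul_sub, norm_mul]
    have e7 : ‖(N : ℂ) ^ (2 * m) * (Real.sqrt N : ℂ) * (-1) ^ (N * (m + 1)) *
        Complex.exp (-(N * qz Φ z))‖ = (N : ℝ) ^ (2 * m) * Real.sqrt N *
          Real.exp (-(N * (qz Φ z).re)) := by
      rw [norm_mul, norm_mul, norm_mul, norm_pow, norm_pow, norm_neg, norm_one, one_pow, mul_one,
        Complex.norm_natCast, Complex.norm_real, Real.norm_of_nonneg (Real.sqrt_nonneg _),
        Complex.norm_exp]
      congr 2
      simp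
    rw [e7]
    have e8 : Real.sqrt N ≤ N := by
      rw [Real.sqrt_le_left (by positivity)]
      nlinarith
    calc (N : ℝ) ^ (2 * m) * Real.sqrt N * Real.exp (-(N * (qz Φ z).re)) * _
        ≤ (N : ℝ) ^ (2 * m) * N * Real.exp (-(N * (qz Φ z).re)) *
          Real.exp (N * ((qz Φ z).re - κ')) := by
          gcongr
      _ = (N : ℝ) ^ (2 * m + 1) * Real.exp (-(κ' * N)) := by
          rw [mul_assoc, ← Real.exp_add, pow_succ]
          congr 2
          ring
      _ ≤ 1 / (N : ℝ) ^ K := h2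

end Pool.Agent.TH563.Z
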