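import Pool.Agent.TH563.Z.Kid
import Pool.Agent.TH563.Z.OutX2

/-!
# Hubs of weight zero: one child of the root, with expansions
-/

set_option autoImplicit false
set_option maxHeartbeats 1000000

namespace Pool.Agent.TH563.Z

open Finset Filter Topology Metric
open Pool.Agent.W711.HT hiding XX
open Pool.Agent.TH563.UV
open Pool.Agent.W719.AX (UX GX cv)
open Pool.Agent.W293.HT
open Pool.Agent.TH219.J139 (Ub Ub_diff Ub_even)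
open Pool.Agent.TH929.J29 (UN_diff)
open scoped Real

/-- the constant one -/
theorem gxz_one (η ρ₃ τ₃ : ℝ) :
    ∃ A : ℕ → ℂ → ℂ, GXZ η ρ₃ τ₃ 0 (fun _ _ => 1) (fun _ => 0) A := by
  refine ⟨fun k _ => if k = 0 then 1 else 0, ?_, ?_, ?_⟩
  · have e : (fun (N : ℕ) (z : ℂ) => (N : ℂ) ^ (2 * 0) * (-1) ^ (N * 0) *
        Complex.exp (-((N : ℂ) * 0)) * 1) = fun _ _ => 1 := by
      funext N z
      simp
    rw [e]
    exact Pool.Agent.W21.AX.ux_cst (fun _ : ℂ => (1 : ℂ)) _ 1 (fun p _ => by simp)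
  · intro k
    exact differentiableOn_const _
  · intro z _
    simp

/-- products -/
theorem gxz_mul {η ρ₃ τ₃ : ℝ} {m m' : ℕ} {X Y : ℕ → ℂ → ℂ} {F G : ℂ → ℂ} {A B : ℕ → ℂ → ℂ}
    (h1 : GXZ η ρ₃ τ₃ m X F A) (h2 : GXZ η ρ₃ τ₃ m' Y G B) :
    ∃ C : ℕ → ℂ → ℂ, GXZ η ρ₃ τ₃ (m + m') (fun N ψ => X N ψ * Y N ψ) (fun ψ => F ψ + G ψ) C := by
  refine ⟨cv A B, ?_, ?_, ?_⟩
  · have h := Pool.Agent.W303.AX.uxmul _ _ _ _ _ _ h1.ux h2.ux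
    have e : (fun (N : ℕ) (z : ℂ) => (N : ℂ) ^ (2 * (m + m')) * (-1) ^ (N * (m + m')) *
        Complex.exp (-(N * (F z + G z))) * (X N z * Y N z)) = fun (N : ℕ) (z : ℂ) =>
        ((N : ℂ) ^ (2 * m) * (-1) ^ (N * m) * Complex.exp (-(N * F z)) * X N z) *
        ((N : ℂ) ^ (2 * m') * (-1) ^ (N * m') * Complex.exp (-(N * G z)) * Y N z) := by
      funext N z
      have e1 : Complex.exp (-(N * (F z + G z))) =
          Complex.exp (-(N * F z)) * Complex.exp (-(N * G z)) := by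
        rw [← Complex.exp_add]
        congr 1
        ring
      rw [e1, Nat.mul_add, Nat.mul_add, pow_add, pow_add]
      ring
    rw [e]
    exact h
  · intro k
    unfold cv
    exact DifferentiableOn.fun_sum fun i _ => (h1.an i).mul (h2.an _)
  · intro z hz
    have e : cv A B 0 z = A 0 z * B 0 z := by simp [cv]
    rw [e]
    exact mul_ne_zero (h1.nz z hz) (h2.nz z hz)

/-- a child of the hub, with expansions -/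
theorem kidx {ρ₀ τ₀ κ₀ c₀ ε₀ : ℝ} {s dl : ℂ → ℂ → ℂ} (hK : KD ρ₀ τ₀ κ₀ c₀ s dl)
    (hε₁ : ε₀ ≤ 1) (hε₂ : ε₀ ≤ c₀ * τ₀ ^ 2 / 16)
    (hreal : ∀ (t : ℕ) (F : ℂ → ℂ), 1 ≤ t → DifferentiableOn ℂ F (Rc (3 * ρ₀) (3 * τ₀)) →
      (∀ ψ ∈ Rc (3 * ρ₀) (3 * τ₀), F (-ψ) = F ψ) →
      (∀ ψ ∈ Rc (3 * ρ₀) (3 * τ₀), ‖F ψ - F 0 - t * (s 0 ψ - s 0 0)‖ ≤ t * ε₀) →
      ∀ x : ℝ, |x| ≤ ρ₀ → (F x).re ≤ (F 0).re - c₀ / 4 * x ^ 2)
    (hH : S_HALF) {ρs : ℝ} (hρs : 0 < ρs)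
    (hbnd : ∀ ε : ℝ, 0 < ε → ∃ τ : ℝ, 0 < τ ∧ ∀ᶠ N : ℕ in atTop, ∀ d < N, ∀ x y : ℝ, |x| ≤ π →
      |y| ≤ τ → ‖Rp N d (x + y * Complex.I)‖ ≤
        Sd N d ^ 2 * Real.exp (N * (bet - c1 * min |x| ρs ^ 2 + ε)))
    {η ε ρ τ ρ' τ' κ c' : ℝ} {s' dl' : ℂ → ℂ → ℂ}
    (hZ : KDZ η ε ρ τ ρ' τ' κ c' s' dl') (hρρ : 3 * ρ ≤ ρ₀) (hττ : 3 * τ ≤ τ₀)
    {r₀ ε₁ x₀ δ : ℝ} (hr₀ : 0 < r₀) (hr₀' : r₀ ≤ 1 / 10) (hε10 : 0 < ε₁) (hε1κ : ε₁ ≤ κ / 16)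
    (hx₀ : 0 < x₀) (hδ : δ < c1 * min x₀ ρs ^ 2)
    {ρ₂ τ₂ ρ₃ τ₃ : ℝ} {Ak : ℕ → ℂ × ℂ → ℂ} (hAk : KXZ η ε ρ₂ τ₂ ρ₃ τ₃ s' Ak) (hρ₂ : ρ₂ ≤ ρ)
    (hτ₂ : τ₂ ≤ τ) (hρ₃ : ρ₃ ≤ ρ') (hτ₃ : τ₃ ≤ τ') (hr₀'' : r₀ < min ρ₂ τ₂ / 4) :
    ∃ K : ℝ, 0 < K ∧ ∀ (t m : ℕ) (X : ℕ → ℂ → ℂ) (F : ℂ → ℂ) (A : ℕ → ℂ → ℂ),
      GoodU ρ₀ τ₀ κ₀ ε₀ s t X F → GX ρ₂ τ₂ m X F A →
      ∀ (b : Bool) (a : ℤ), (b = false → K ^ 2 ≤ ((t + 1 : ℕ) : ℝ) ^ 2 + (a : ℝ) ^ 2) →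
      ∃ (YL : ℕ → ℂ → ℂ) (f₀ : ℂ) (F' zs : ℂ → ℂ) (A' : ℕ → ℂ → ℂ),
        ChZ η ε ρ' τ' κ x₀ δ ε₁ s' (stpb b a X) YL f₀ F' ∧ GXZ η ρ₃ τ₃ (m + 1) YL F' A' ∧
        ∀ φ ∈ Rz η (3 * ρ') (3 * τ'), zs φ ∈ Rc (3 * ρ₀) (3 * τ₀) ∧ ‖zs φ‖ ≤ r₀ ∧
          (b = true → zs φ = 0) ∧
          (b = false → CPu ρ₀ τ₀ (1 / 10) (zs φ) ∧ Complex.I * a * zs φ / (2 * π) + Complex.I +
            deriv F (zs φ) + deriv (fun w => s' w φ) (zs φ) = 0) ∧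
          F' φ = vt b a (zs φ) + F (zs φ) + s' (zs φ) φ ∧
          HasDerivAt F' (deriv (fun w => s' (zs φ) w) φ) φ := by
  obtain ⟨C'', hE⟩ := ez_of hZ
  obtain ⟨K, hK0, hcp⟩ := cpz Pool.Agent.W19.HTFix.task hK hε₁ hε₂ hE hρρ hττ hr₀ hε10
  have hρ00 := hK.hρ.1
  have hτ00 := hK.hτ.1
  have hρ0 := hE.hρ.1
  have hτ0 := hE.hτ.1
  have hρ'0 := hE.hρ'.1
  have hτ'0 := hE.hτ'.1
  refine ⟨K, hK0, ?_⟩
  intro t m X F A hX hA b a hbig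
  have hre : ∀ x : ℝ, |x| ≤ ρ₀ → (F x).re ≤ (F 0).re := by
    intro x hx
    rcases Nat.eq_zero_or_pos t with ht | ht
    · have hm : (x : ℂ) ∈ Rc (3 * ρ₀) (3 * τ₀) := by
        refine ⟨?_, ?_⟩
        · rw [Complex.ofReal_re]; linarith
        · rw [Complex.ofReal_im, abs_zero]; linarith
      have h1 := hX.Fcl x hm
      rw [ht] at h1
      simp only [Nat.cast_zero, zero_mul, sub_zero] at h1
      have h2 : F x - F 0 = 0 := norm_le_zero_iff.1 h1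
      rw [sub_eq_zero.1 h2]
    · have h1 := hreal t F ht hX.Fan hX.Fev hX.Fcl x hx
      have h2 : 0 ≤ c₀ / 4 * x ^ 2 := by have := hK.hc; positivity
      linarith
  have hB : XB X (F 0).re := xb_of hK hX hre
  have hY : stpb b a X = stp a (fun N ψ => Ub b N ψ * X N ψ) := by
    funext N ψ
    exact Pool.Agent.TH219.J139.stpb_eq b a X N ψ
  obtain ⟨X', hX'⟩ : ∃ X' : ℕ → ℂ → ℂ, X' = fun N ψ => Ub b N ψ * X N ψ := ⟨_, rfl⟩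
  have hB' : XB X' (F 0).re := by rw [hX']; exact xb_ub b hB
  have hXd : ∀ N, Differentiable ℂ (X' N) := by
    intro N
    rw [hX']
    exact (Ub_diff b N).mul (hX.an N)
  obtain ⟨st1, st2⟩ := Pool.Agent.W398.HT.t_STPE a X' hXd
  have hfar := child_far (a := a) hXd hB' hZ
  have hout := child_out (a := a) hXd hB' hρs hbnd hZ.hε.2 hx₀ hδ
  have hdec := child_dec (a := a) hXd hB' hH hZ.hε.1
  rw [hY, ← hX']
  have hsplit : ∀ N φ, stp a X' N φ = stL ε a X' N φ +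
      ∑ d ∈ Ico (cut ε N) N, Rp N d φ / (Sd N d : ℂ) ^ 4 * Md a X' N d :=
    fun N φ => stp_split hZ.hε.2 a X' hXd N φ
  -- the constant
  cases b with
  | false =>
    have hXX : X' = X := by
      rw [hX']
      funext N ψ
      show (1 : ℂ) * X N ψ = X N ψ
      rw [one_mul]
    obtain ⟨F', zs, hF1, hz1, hF2, hF3⟩ := hcp t F hX.Fan hX.Fev hX.Fcl a (hbig rfl)
    obtain ⟨A', hA'⟩ := gxF (a := a) hX hA hB hZ hE hρρ hττ hAk hρ₂ hτ₂ hρ₃ hτ₃ hr₀'' hF1 hz1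
      (fun φ hφ => (hF2 φ hφ).trans hε1κ)
      (fun φ hφ => ⟨(hF3 φ hφ).1, (hF3 φ hφ).2.1, (hF3 φ hφ).2.2.2.1⟩)
    refine ⟨stL ε a X', F 0, F', zs, A', ?_, by rw [hXX]; exact hA', ?_⟩
    · refine ⟨st1, stL_diff ε a X', st2, stL_even ε a X', stp_per a X' hXd, stL_per ε a X', hF1,
        hF2, ?_, hfar, hout, ⟨Md a X', hsplit, hdec⟩⟩
      rw [hXX]
      exact mwF hK hX hB hZ hE hρρ hττ hF1 (fun φ hφ => (hF2 φ hφ).trans hε1κ)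
        (fun φ hφ => ⟨(hF3 φ hφ).1, (hF3 φ hφ).2.1, (hF3 φ hφ).2.2.2.1⟩)
    · intro φ hφ
      obtain ⟨p1, p2, p3, p4, p5⟩ := hF3 φ hφ
      have hm : zs φ ∈ Rc ρ₀ τ₀ := Rc_mono (by linarith) (by linarith) p1.mem
      refine ⟨Rc_mono (by linarith) (by linarith) hm, p1.sm, fun h => absurd h (by simp),
        fun _ => ⟨⟨hm, p1.im, p1.sm.trans hr₀'⟩, p3⟩, ?_, p5⟩
      rw [p4]
      simp [vt, qq]
  | true =>
    have hXX : X' = fun N ψ => UN N ψ * X N ψ := by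
      rw [hX']
      rfl
    have h00 : (0 : ℂ) ∈ Rc (3 * ρ) (3 * τ) := zero_mem_Rc (by linarith) (by linarith)
    have hf0 : (F 0 + π * Complex.I).re = (F 0).re := by
      rw [Complex.add_re]
      simp
    obtain ⟨A', hA'⟩ := gxT (a := a) hK hε₁ hε₂ hX hA hB hZ hE hρρ hττ hAk hρ₂ hτ₂ hρ₃ hτ₃
    refine ⟨stL ε a X', F 0 + π * Complex.I, fun φ => F 0 + π * Complex.I + s' 0 φ, fun _ => 0,
      A', ?_, by rw [hXX]; exact hA', ?_⟩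
    · refine ⟨st1, stL_diff ε a X', st2, stL_even ε a X', stp_per a X' hXd, stL_per ε a X', ?_,
        ?_, ?_, ?_, ?_, ⟨Md a X', hsplit, ?_⟩⟩
      · exact (differentiableOn_const _).add (s_diff2Z hE.san h00)
      · intro φ _
        have e : F 0 + π * Complex.I + s' 0 φ - (F 0 + π * Complex.I) - s' 0 φ = 0 := by ring
        rw [e, norm_zero]
        exact hε10.le
      · rw [hXX]
        exact mwT hK hε₁ hε₂ hX hB hZ hE hρρ hττ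
      · rw [hf0]
        exact hfar
      · rw [hf0]
        exact hout
      · rw [hf0]
        exact hdec
    · intro φ hφ
      refine ⟨zero_mem_Rc (by linarith) (by linarith), by rw [norm_zero]; exact hr₀.le,
        fun _ => rfl, fun h => absurd h (by simp), ?_, ?_⟩
      · show F 0 + π * Complex.I + s' 0 φ = vt true a 0 + F 0 + s' 0 φ
        simp only [vt, if_true]
        ring
      · have h1 : HasDerivAt (fun w => s' 0 w) (deriv (fun w => s' 0 w) φ) φ :=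
          ((s_diff2Z hE.san h00).differentiableAt ((isOpen_Rz _ _ _).mem_nhds hφ)).hasDerivAt
        exact h1.const_add _

end Pool.Agent.TH563.Z
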