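import Pool.Agent.TH563.Z.MainZ
import Pool.Agent.TH563.Z.KidX
import Pool.Agent.TH563.Z.KerX

/-!
# Hubs of weight zero: the analytic main theorem, with expansions
-/

set_option autoImplicit false
set_option maxHeartbeats 1000000

namespace Pool.Agent.TH563.Z

open Finset Filter Topology Metric
open Pool.Agent.W711.HT hiding XX
open Pool.Agent.TH563.UV
open Pool.Agent.W293.HT
open Pool.Agent.W719.AX (UX GX KXD S_KXC S_PRDX)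
open scoped Real

/-- induction over the children of the root, with expansions -/
theorem hub_indx (hR : S_REM) {ρ₀ τ₀ κ₀ ε₀ K₁ K₂ K : ℝ} {s s' : ℂ → ℂ → ℂ}
    {η ε ρ' τ' κ x₀ δ ε₁ r₀ ρ₂ τ₂ ρ₃ τ₃ : ℝ} (hε : 0 < ε ∧ ε < 1 / 4) (hx₀ : 0 < x₀) (hx : x₀ < 2 * π * ε)
    (htree : ∀ c : Tb, c.Below K₁ → ∃ (F : ℂ → ℂ) (A : ℕ → ℂ → ℂ),
      GoodU ρ₀ τ₀ κ₀ ε₀ s c.nc (XX c) F ∧ GX ρ₂ τ₂ c.ne (XX c) F A ∧
      ∀ ψ ∈ Rc (3 * ρ₀) (3 * τ₀), ∃ p : PB, p.shape = c ∧ p.rz = ψ ∧ p.Crt s ρ₀ τ₀ ∧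
        F ψ = p.vl s ∧ HasDerivAt F (p.gs s) ψ)
    (hkid : ∀ (t m : ℕ) (X : ℕ → ℂ → ℂ) (F : ℂ → ℂ) (A : ℕ → ℂ → ℂ),
      GoodU ρ₀ τ₀ κ₀ ε₀ s t X F → GX ρ₂ τ₂ m X F A →
      ∀ (b : Bool) (a : ℤ), (b = false → K₂ ^ 2 ≤ ((t + 1 : ℕ) : ℝ) ^ 2 + (a : ℝ) ^ 2) →
      ∃ (YL : ℕ → ℂ → ℂ) (f₀ : ℂ) (F' zs : ℂ → ℂ) (A' : ℕ → ℂ → ℂ),
        ChZ η ε ρ' τ' κ x₀ δ ε₁ s' (stpb b a X) YL f₀ F' ∧ GXZ η ρ₃ τ₃ (m + 1) YL F' A' ∧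
        ∀ φ ∈ Rz η (3 * ρ') (3 * τ'), zs φ ∈ Rc (3 * ρ₀) (3 * τ₀) ∧ ‖zs φ‖ ≤ r₀ ∧
          (b = true → zs φ = 0) ∧
          (b = false → CPu ρ₀ τ₀ (1 / 10) (zs φ) ∧ Complex.I * a * zs φ / (2 * π) + Complex.I +
            deriv F (zs φ) + deriv (fun w => s' w φ) (zs φ) = 0) ∧
          F' φ = vt b a (zs φ) + F (zs φ) + s' (zs φ) φ ∧
          HasDerivAt F' (deriv (fun w => s' (zs φ) w) φ) φ)
    (hK₁ : 0 ≤ K₁) (hK₂ : 0 ≤ K₂) (h1 : K₁ ≤ K) (h2 : K₂ ≤ K) (t : Tb) :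
    t.Below K → ∃ (PL : ℕ → ℂ → ℂ) (f : ℂ) (Φ : ℂ → ℂ) (A : ℕ → ℂ → ℂ),
      HubZ η ε ρ' τ' κ x₀ δ ε₁ s' t.nc (XX t) PL f Φ ∧ GXZ η ρ₃ τ₃ t.ne PL Φ A ∧
      ∀ φ ∈ Rz η (3 * ρ') (3 * τ'), ∃ p : PB, p.shape = t ∧ p.rz = φ ∧ HCrt s s' ρ₀ τ₀ p ∧
        nearc r₀ p ∧ Φ φ = hvl s s' p ∧ HasDerivAt Φ (hgs s' p) φ := by
  induction t with
  | vx b a =>
    intro _
    obtain ⟨A, hA⟩ := gxz_one η ρ₃ τ₃
    refine ⟨fun _ _ => 1, 0, fun _ => 0, A, hub_zero η ε ρ' τ' κ x₀ δ ε₁ s', hA, ?_⟩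
    intro φ _
    exact ⟨.vx b a φ, rfl, rfl, trivial, trivial, rfl, hasDerivAt_const φ (0 : ℂ)⟩
  | br t c iht _ =>
    rintro ⟨hBt, hBc, hbig⟩
    obtain ⟨PL, f, Φ, A, hH, hA, hcr⟩ := iht hBt
    obtain ⟨F, Ac, hF, hAc, hcrc⟩ := htree c (below_mono hK₁ h1 c hBc)
    obtain ⟨YL, f₀, F', zs, A', hC, hA', hz⟩ := hkid c.nc c.ne (XX c) F Ac hF hAc c.bl c.wt
      (fun hb => (pow_le_pow_left₀ hK₂ h2 2).trans (hbig hb))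
    obtain ⟨A'', hA''⟩ := gxz_mul hA hA'
    refine ⟨_, _, _, A'', hub_succ hR hε hx₀ hx hH hC, ?_, ?_⟩
    · have h3 : (Tb.br t c).ne = t.ne + (c.ne + 1) := by simp only [Tb.ne]; ring
      rw [h3]
      exact hA''
    intro φ hφ
    obtain ⟨p, hp1, hp2, hp3, hp4, hp5, hp6⟩ := hcr φ hφ
    obtain ⟨z1, z2, z3, z4, z5, z6⟩ := hz φ hφ
    obtain ⟨q, hq1, hq2, hq3, hq4, hq5⟩ := hcrc (zs φ) z1
    have hw : q.wt = c.wt := by rw [← pb_wt q, hq1]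
    have hbq : q.bl = c.bl := by rw [← pb_bl q, hq1]
    refine ⟨.br p q, ?_, hp2, ⟨hp3, hq3, ?_, ?_⟩, ⟨hp4, ?_⟩, ?_, ?_⟩
    · simp [PB.shape, hp1, hq1]
    · intro hb
      rw [hq2]
      exact z3 (hbq ▸ hb)
    · intro hb
      obtain ⟨a1, a2⟩ := z4 (hbq ▸ hb)
      refine ⟨by rw [hq2]; exact a1, ?_⟩
      rw [hw, hq2, hp2, ← add_assoc, ← hq5.deriv]
      exact a2
    · rw [hq2]
      exact z2
    · show Φ φ + F' φ = hvl s s' p + (vt q.bl q.wt q.rz + q.vl s + s' q.rz p.rz)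
      rw [hq2, hp2, hw, hbq, hp5, z5, hq4]
    · show HasDerivAt (fun φ => Φ φ + F' φ) (hgs s' p + deriv (fun w => s' q.rz w) p.rz) φ
      rw [hq2, hp2]
      exact hp6.add z6

/-- lower bound of the value at the critical point -/
lemma hub_low {η r' C' c' : ℝ} {s' dl' : ℂ → ℂ → ℂ} (hS' : SDZ η r' c' C' s' dl') {k : ℕ}
    (hineq : (k - 1 : ℝ) * (2 * bet) ≤ k * AA η - η) {f : ℂ} {Φ : ℂ → ℂ} {z : ℂ} {r₁ ε₁ m : ℝ}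
    (hz1 : ‖z - η * Complex.I‖ ≤ r₁) (hzr : z ∈ Rz η r' r')
    (hcl : ‖Φ z - f - k * s' 0 z‖ ≤ k * ε₁) (hε₁d : k * ε₁ ≤ m) (hr₁0 : 0 < r₁)
    (hr₁c : k * C' * r₁ + r₁ ≤ m) :
    f.re + k * AA η - m - m ≤ (Φ z).re ∧
    f.re + (k - 1) * (2 * bet) - m - m - r₁ ≤ (qz Φ z).re := by
  have hC' := hS'.hC
  have hk0 : (0 : ℝ) ≤ k := Nat.cast_nonneg k
  have h00 : (0 : ℂ) ∈ Rc r' r' := zero_mem_Rc hS'.hr.1 hS'.hr.1
  have hVe : (qz Φ z).re + z.im = (Φ z).re := by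
    unfold qz
    rw [Complex.add_re]
    simp
  have hlow : f.re + k * AA η - m - m ≤ (Φ z).re := by
    have e1 := (Complex.abs_re_le_norm _).trans hcl
    have e2 := (Complex.abs_re_le_norm _).trans (hS'.lip 0 h00 z hzr)
    rw [norm_zero, zero_add, Complex.sub_re, Complex.ofReal_re] at e2
    have e3 : (Φ z - f - k * s' 0 z).re = (Φ z).re - f.re - k * (s' 0 z).re := by
      rw [Complex.sub_re, Complex.sub_re, ← Complex.ofReal_natCast, Complex.re_ofReal_mul]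
    rw [e3] at e1
    have e4 : C' * ‖z - η * Complex.I‖ ≤ C' * r₁ := mul_le_mul_of_nonneg_left hz1 hC'.le
    have e5 := (abs_le.1 e1).1
    have e6 := (abs_le.1 e2).1
    have e7 : k * (AA η - C' * r₁) ≤ k * (s' 0 z).re :=
      mul_le_mul_of_nonneg_left (by linarith) hk0
    have e8 : k * C' * r₁ ≤ m := by linarith
    linarith
  have hzim : z.im ≤ η + r₁ := by
    have h1 := (Complex.abs_im_le_norm _).trans hz1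
    have h2 : (z - η * Complex.I).im = z.im - η := by simp
    rw [h2] at h1
    linarith [(abs_le.1 h1).2]
  exact ⟨hlow, by linarith⟩

/-- the expansion of the outer integral, for the product over the children -/
lemma hub_ux {η ε ρ' τ' κ x₀ δ ε₁ : ℝ} {s' : ℂ → ℂ → ℂ} {k m' : ℕ} {P PL : ℕ → ℂ → ℂ} {f : ℂ}
    {Φ : ℂ → ℂ} (H : HubZ η ε ρ' τ' κ x₀ δ ε₁ s' k P PL f Φ) (hk : (3 : ℝ) ≤ k)
    {ρ₃ τ₃ : ℝ} {A : ℕ → ℂ → ℂ} (hA : GXZ η ρ₃ τ₃ m' PL Φ A) (hρ' : 0 < ρ') (hρ'1 : ρ' ≤ 1 / 4)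
    (hτ' : 0 < τ') (hτη : 3 * τ' < η) (hκ : 0 < κ) (hδ : 0 < δ) {z : ℂ} (hz2 : z ∈ Rz η ρ' τ')
    (hz3 : deriv (qz Φ) z = 0) (hz4 : (deriv (deriv (qz Φ)) z).re < 0)
    (hz5 : ∀ x : ℝ, |x| ≤ ρ' → x ≠ z.re → (qz Φ (x + z.im * Complex.I)).re < (qz Φ z).re)
    (hz6 : z ∈ Rz η ρ₃ τ₃) {m r₁ : ℝ} (hm1 : m ≤ δ / 4) (hm2 : m ≤ κ / 8) (hr₁ : r₁ ≤ m)
    (h1 : f.re + k * AA η - m - m ≤ (Φ z).re)
    (h2 : f.re + (k - 1) * (2 * bet) - m - m - r₁ ≤ (qz Φ z).re) :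
    ∃ y : ℕ → ℂ, y 0 ≠ 0 ∧ UX (fun N (_ : Unit) => (N : ℂ) ^ (2 * m') * (Real.sqrt N : ℂ) *
      (-1) ^ (N * (m' + 1)) * Complex.exp (-(N * qz Φ z)) * upp (1 / N) fun φ => P N φ * kr N φ)
      (fun k _ => y k) Set.univ := by
  have hVe : (qz Φ z).re + z.im = (Φ z).re := by
    unfold qz
    rw [Complex.add_re]
    simp
  refine outer_ux (κ := min (κ / 4) (δ / 4)) hρ' hρ'1 hτ' hτη H.an H.anL H.perL H.Fan H.mw hz2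
    hz3 hz4 hz5 (lt_min (by positivity) (by positivity)) ?_ ?_ hA hz6
  · filter_upwards [H.far] with N h3 x hx hx'
    refine (h3 x z.im hx hx' ?_).trans (Real.exp_le_exp.2 ?_)
    · have := hz2.2
      linarith
    · apply mul_le_mul_of_nonneg_left _ (Nat.cast_nonneg N)
      have e1 := min_le_left (κ / 4) (δ / 4)
      have e2 : 3 * (κ / 2) ≤ k * (κ / 2) := mul_le_mul_of_nonneg_right hk (by positivity)
      have e3 : (k : ℝ) * (AA η - κ / 2) = k * AA η - k * (κ / 2) := by ring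
      rw [e3]
      linarith
  · filter_upwards [H.rem (min (κ / 4) (δ / 4)) (lt_min (by positivity) (by positivity))]
      with N h3
    have h4 := h3 (fun _ => 1) 1 (differentiable_const _) (fun _ => rfl) (fun _ => rfl)
      zero_le_one (fun x y _ _ _ _ => by simp)
    simp only [mul_one, one_mul] at h4
    refine h4.trans (Real.exp_le_exp.2 ?_)
    apply mul_le_mul_of_nonneg_left _ (Nat.cast_nonneg N)
    have e1 := min_le_right (κ / 4) (δ / 4)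
    have e2 : 2 * δ ≤ (k - 1) * δ := mul_le_mul_of_nonneg_right (by linarith) hδ.le
    have e3 : ((k : ℝ) - 1) * (2 * bet - δ) = (k - 1) * (2 * bet) - (k - 1) * δ := by ring
    rw [e3]
    linarith

/-- the expansion of the invariants is given by a critical configuration -/
def S_MAINZX : Prop := ∃ (ρ τ κ c : ℝ) (s dl : ℂ → ℂ → ℂ), KD ρ τ κ c s dl ∧ ∀ k : ℕ, 3 ≤ k →
  ∃ (r c' C : ℝ) (s' dl' : ℂ → ℂ → ℂ), SDZ (et k) r c' C s' dl' ∧ ∀ g : ℝ, 0 < g →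
  ∃ K : ℝ, 0 < K ∧ ∀ t : Tb, t.Below K → t.bl = false → t.wt = 0 → t.nc = k →
    ∃ (p : PB) (y : ℕ → ℂ), p.shape = t ∧ HCrt s s' ρ τ p ∧ ‖p.rz - et k * Complex.I‖ ≤ g ∧
      nearc g p ∧ Complex.I + hgs s' p = 0 ∧ y 0 ≠ 0 ∧
      UX (fun N (_ : Unit) => (N : ℂ) ^ (2 * t.ne) * (Real.sqrt N : ℂ) * (-1) ^ (N * (t.ne + 1)) *
        Complex.exp (-(N * (Complex.I * p.rz + hvl s s' p))) * JT t N) (fun k _ => y k) Set.univ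

/-- the analytic main theorem, with expansions -/
theorem mainzx (hSD : S_SDZ) (hKER : S_KERZX) (hKX : S_KXCZ) (hR : S_REM) (hH : S_HALF)
    (hI : S_INEQ) : S_MAINZX := by
  have hπ := Real.pi_pos
  obtain ⟨ρ₀, τ₀, κ₁, c₀, s, dl, hK1⟩ := Pool.Agent.W719.AR.f_KER
  obtain ⟨κ₀, hκ₀⟩ : ∃ κ₀ : ℝ, κ₀ = min κ₁ (min (c₀ * τ₀ ^ 2) 1) := ⟨_, rfl⟩
  have hρ₀ := hK1.hρ.1
  have hτ₀ := hK1.hτ.1
  have hc₀ := hK1.hc
  have hκ₀0 : 0 < κ₀ := by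
    rw [hκ₀]
    exact lt_min hK1.hκ.1 (lt_min (by positivity) one_pos)
  have hκa : κ₀ ≤ κ₁ := by rw [hκ₀]; exact min_le_left _ _
  have hκb : κ₀ ≤ c₀ * τ₀ ^ 2 := by
    rw [hκ₀]; exact (min_le_right _ _).trans (min_le_left _ _)
  have hκc : κ₀ ≤ 1 := by rw [hκ₀]; exact (min_le_right _ _).trans (min_le_right _ _)
  have hK := kd_kappa hK1 hκ₀0 hκa
  -- the large vertices
  obtain ⟨ρa, τa, hρa, hτa, Ak, hAk⟩ :=
    Pool.Agent.W719.AX.f_KXC Pool.Agent.W719.AX.f_WIN ρ₀ τ₀ κ₀ c₀ s dl hK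
  obtain ⟨ε₀, K₁, hε₀, hε₀1, hK₁0, hreal, h1, -⟩ :=
    f_STEPU ρ₀ τ₀ κ₀ c₀ s dl hK ρa τa Ak hρa hτa hAk
  obtain ⟨b1, -⟩ := Pool.Agent.TH929.stepb ρ₀ τ₀ κ₀ c₀ s dl hK ρa τa Ak hρa hτa hAk ε₀ hε₀ hε₀1
    hreal
  obtain ⟨p0, p1⟩ := f_PRU ρ₀ τ₀ κ₀ c₀ s dl hK ε₀ hε₀
  obtain ⟨p0x, p1x⟩ := (Pool.Agent.W52.AX.prdx Pool.Agent.W303.AX.uxmul) ρa τa
  have htree : ∀ c : Tb, c.Below K₁ → ∃ (F : ℂ → ℂ) (A : ℕ → ℂ → ℂ),
      GoodU ρ₀ τ₀ κ₀ ε₀ s c.nc (XX c) F ∧ GX ρa τa c.ne (XX c) F A ∧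
      ∀ ψ ∈ Rc (3 * ρ₀) (3 * τ₀), ∃ p : PB, p.shape = c ∧ p.rz = ψ ∧ p.Crt s ρ₀ τ₀ ∧
        F ψ = p.vl s ∧ HasDerivAt F (p.gs s) ψ := by
    intro c hc
    exact mainu_ind hK p0 p1 p0x p1x h1 b1 c hc
  refine ⟨ρ₀, τ₀, κ₀, c₀, s, dl, hK, ?_⟩
  intro k hk
  obtain ⟨hadm, hgd, hineq⟩ := hI k hk
  obtain ⟨r, c', C, s', dl', hS⟩ := hSD (et k) hadm
  refine ⟨r, c', C, s', dl', hS, ?_⟩
  intro g hg
  obtain ⟨ε, hFD, hker⟩ := hKER (et k) hadm r c' C s' dl' hS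
  obtain ⟨ρ, τ, ρ', τ', κ, hZ, hg1, -⟩ := hker (min ρ₀ τ₀) (lt_min hρ₀ hτ₀)
  obtain ⟨ρb, τb, ρ₃, τ₃, hρb, hτb, hρ₃, hτ₃, Az, hAz⟩ :=
    hKX (et k) ε ρ τ ρ' τ' κ c' s' dl' hadm hFD hZ
  obtain ⟨ρ₂, hρ₂⟩ : ∃ ρ₂ : ℝ, ρ₂ = min ρa ρb := ⟨_, rfl⟩
  obtain ⟨τ₂, hτ₂⟩ : ∃ τ₂ : ℝ, τ₂ = min τa τb := ⟨_, rfl⟩
  have hρ₂a : ρ₂ ≤ ρa := by rw [hρ₂]; exact min_le_left _ _
  have hρ₂b : ρ₂ ≤ ρb := by rw [hρ₂]; exact min_le_right _ _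
  have hτ₂a : τ₂ ≤ τa := by rw [hτ₂]; exact min_le_left _ _
  have hτ₂b : τ₂ ≤ τb := by rw [hτ₂]; exact min_le_right _ _
  have hρ₂0 : 0 < ρ₂ := by rw [hρ₂]; exact lt_min hAk.hρ hAz.hρ
  have hτ₂0 : 0 < τ₂ := by rw [hτ₂]; exact lt_min hAk.hτ hAz.hτ
  have hAz2 := kxz_mono hAz hρ₂b hτ₂b hρ₂0 hτ₂0
  have hρ₃0 := hAz.hρ'
  have hτ₃0 := hAz.hτ'
  have htree2 : ∀ c : Tb, c.Below K₁ → ∃ (F : ℂ → ℂ) (A : ℕ → ℂ → ℂ),
      GoodU ρ₀ τ₀ κ₀ ε₀ s c.nc (XX c) F ∧ GX ρ₂ τ₂ c.ne (XX c) F A ∧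
      ∀ ψ ∈ Rc (3 * ρ₀) (3 * τ₀), ∃ p : PB, p.shape = c ∧ p.rz = ψ ∧ p.Crt s ρ₀ τ₀ ∧
        F ψ = p.vl s ∧ HasDerivAt F (p.gs s) ψ := by
    intro c hc
    obtain ⟨F, A, q1, q2, q3⟩ := htree c hc
    exact ⟨F, A, q1, gx_mono q2 hρ₂a hτ₂a, q3⟩
  obtain ⟨r', C', hS', hr1, hr2⟩ := hZ.sdz
  obtain ⟨ρs, hρs, -, hbnd⟩ := Pool.Agent.W711.HT.f_BND
  have hκ := hZ.hκ.1
  have hc' := hZ.hc
  have hC' := hS'.hC
  have hε := hZ.hε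
  have hρ := hZ.hρ.1
  have hτ := hZ.hτ.1
  have hτρ := hZ.hτ.2
  have hρ' := hZ.hρ'.1
  have hρ'1 := hZ.hρ'.2
  obtain ⟨hτ', hτρ', hτη⟩ := hZ.hτ'
  have hη := hadm.1
  have hk3 : (3 : ℝ) ≤ k := by exact_mod_cast hk
  have hk0 : (0 : ℝ) < k := by linarith
  -- the sizes
  obtain ⟨x₀, hx₀⟩ : ∃ x₀ : ℝ, x₀ = π * ε := ⟨_, rfl⟩
  have hx₀0 : 0 < x₀ := by rw [hx₀]; exact mul_pos hπ hε.1
  have hx₀1 : x₀ < 2 * π * ε := by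
    rw [hx₀]
    have := mul_pos hπ hε.1
    linarith
  have hc1 : 0 < c1 := by unfold c1; positivity
  obtain ⟨δ, hδ⟩ : ∃ δ : ℝ, δ = c1 * min x₀ ρs ^ 2 / 2 := ⟨_, rfl⟩
  have hm0 : 0 < c1 * min x₀ ρs ^ 2 := by
    have := lt_min hx₀0 hρs
    positivity
  have hδ0 : 0 < δ := by rw [hδ]; linarith
  have hδ1 : δ < c1 * min x₀ ρs ^ 2 := by rw [hδ]; linarith
  obtain ⟨m, hm⟩ : ∃ m : ℝ, m = min (δ / 4) (κ / 8) := ⟨_, rfl⟩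
  have hm0 : 0 < m := by rw [hm]; exact lt_min (by positivity) (by positivity)
  have hm1 : m ≤ δ / 4 := by rw [hm]; exact min_le_left _ _
  have hm2 : m ≤ κ / 8 := by rw [hm]; exact min_le_right _ _
  obtain ⟨r₁, hr₁0, hr₁a, hr₁b, hr₁d, hr₁e, hr₁f⟩ : ∃ r₁ : ℝ, 0 < r₁ ∧ r₁ < τ' ∧ r₁ ≤ g ∧
      r₁ < ρ₃ ∧ r₁ < τ₃ ∧ r₁ ≤ m / (k * C' + 1) := by
    refine ⟨min (τ' / 2) (min g (min (ρ₃ / 2) (min (τ₃ / 2) (m / (k * C' + 1))))), ?_, ?_, ?_, ?_,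
      ?_, ?_⟩
    · exact lt_min (by positivity) (lt_min hg (lt_min (by positivity) (lt_min (by positivity)
        (by positivity))))
    · exact (min_le_left _ _).trans_lt (by linarith)
    · exact (min_le_right _ _).trans (min_le_left _ _)
    · exact ((min_le_right _ _).trans ((min_le_right _ _).trans (min_le_left _ _))).trans_lt
        (by linarith)
    · exact ((min_le_right _ _).trans ((min_le_right _ _).trans ((min_le_right _ _).trans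
        (min_le_left _ _)))).trans_lt (by linarith)
    · exact (min_le_right _ _).trans ((min_le_right _ _).trans ((min_le_right _ _).trans
        (min_le_right _ _)))
  have hr₁c : k * C' * r₁ + r₁ ≤ m := by
    rw [le_div_iff₀ (by positivity)] at hr₁f
    linarith
  obtain ⟨ε₁, hε₁⟩ : ∃ ε₁ : ℝ, ε₁ = min (κ / 16) (min (c' * τ' ^ 2 / 16)
    (min (c' * r₁ * τ' / 16) (m / k))) := ⟨_, rfl⟩
  have hε₁0 : 0 < ε₁ := by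
    rw [hε₁]
    exact lt_min (by positivity) (lt_min (by positivity) (lt_min (by positivity) (by positivity)))
  have hε₁a : ε₁ ≤ κ / 16 := by rw [hε₁]; exact min_le_left _ _
  have hε₁b : ε₁ ≤ c' * τ' ^ 2 / 16 := by
    rw [hε₁]; exact (min_le_right _ _).trans (min_le_left _ _)
  have hε₁c : ε₁ ≤ c' * r₁ * τ' / 16 := by
    rw [hε₁]; exact (min_le_right _ _).trans ((min_le_right _ _).trans (min_le_left _ _))
  have hε₁d : k * ε₁ ≤ m := by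
    have h1 : ε₁ ≤ m / k := by
      rw [hε₁]; exact (min_le_right _ _).trans ((min_le_right _ _).trans (min_le_right _ _))
    rw [le_div_iff₀ hk0] at h1
    linarith
  obtain ⟨r₀, hr₀⟩ : ∃ r₀ : ℝ, r₀ = min (1 / 10) (min g (min ρ₂ τ₂ / 8)) := ⟨_, rfl⟩
  have hmin0 : 0 < min ρ₂ τ₂ := lt_min hρ₂0 hτ₂0
  have hr₀0 : 0 < r₀ := by rw [hr₀]; exact lt_min (by norm_num) (lt_min hg (by positivity))
  have hr₀a : r₀ ≤ 1 / 10 := by rw [hr₀]; exact min_le_left _ _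
  have hr₀b : r₀ ≤ g := by rw [hr₀]; exact (min_le_right _ _).trans (min_le_left _ _)
  have hr₀c : r₀ < min ρ₂ τ₂ / 4 := by
    have : r₀ ≤ min ρ₂ τ₂ / 8 := by rw [hr₀]; exact (min_le_right _ _).trans (min_le_right _ _)
    linarith
  -- the children
  obtain ⟨K₂, hK₂0, hkid⟩ := kidx hK (by linarith) (by linarith) hreal hH hρs hbnd hZ
    (hg1.trans (min_le_left _ _)) (by
      have := hg1.trans (min_le_right _ _)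
      linarith) hr₀0 hr₀a hε₁0 hε₁a hx₀0 hδ1 hAz2 (hρ₂b.trans hρb) (hτ₂b.trans hτb) hρ₃ hτ₃ hr₀c
  refine ⟨max K₁ K₂, lt_max_of_lt_left hK₁0, ?_⟩
  intro t hB hbl hwt hnc
  obtain ⟨PL, f, Φ, A, hHub, hGX, hcr⟩ := hub_indx hR hε hx₀0 hx₀1 htree2 hkid hK₁0.le hK₂0.le
    (le_max_left _ _) (le_max_right _ _) t hB
  rw [hnc] at hHub
  obtain ⟨z, hz1, hz2, hz3, hz4, hz5⟩ := crit_z hS' hτ' hτρ' hr2 (by omega : 1 ≤ k) hgd hr₁0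
    hr₁a hε₁b hε₁c hHub.Fan hHub.Fcl
  have hρ3 : ρ' ≤ 3 * ρ' := by linarith only [hρ']
  have hτ3 : τ' ≤ 3 * τ' := by linarith only [hτ']
  have hτρ3 : 3 * τ' ≤ 3 * ρ' := by linarith only [hτρ']
  have hr₁m : r₁ ≤ m := by
    have e3 : 0 ≤ k * C' * r₁ := by positivity
    linarith only [e3, hr₁c]
  have hzm : z ∈ Rz (et k) (3 * ρ') (3 * τ') := Rz_mono hρ3 hτ3 hz2
  obtain ⟨p, hp1, hp2, hp3, hp4, hp5, hp6⟩ := hcr z hzm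
  -- the value at the critical point
  have hzr : z ∈ Rz (et k) r' r' := Rz_mono hr2 (hτρ3.trans hr2) hzm
  obtain ⟨hlow, hVlow⟩ := hub_low hS' hineq hz1 hzr (hHub.Fcl z hzm) hε₁d hr₁0 hr₁c
  have hz3' : z ∈ Rz (et k) ρ₃ τ₃ := by
    have h1 := (Complex.abs_re_le_norm _).trans hz1
    have h2 := (Complex.abs_im_le_norm _).trans hz1
    have a1 : (z - et k * Complex.I).re = z.re := by simp
    have a2 : (z - et k * Complex.I).im = z.im - et k := by simp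
    rw [a1] at h1
    rw [a2] at h2
    exact ⟨h1.trans_lt hr₁d, h2.trans_lt hr₁e⟩
  obtain ⟨y, hy0, hux⟩ := hub_ux hHub hk3 hGX hρ' hρ'1 hτ' hτη hκ hδ0 hz2 hz3 hz4 hz5 hz3' hm1 hm2
    hr₁m hlow hVlow
  refine ⟨p, y, hp1, hp3, by rw [hp2]; exact hz1.trans hr₁b, near_mono hr₀b p hp4, ?_, hy0, ?_⟩
  · have h1 : HasDerivAt (qz Φ) (Complex.I + hgs s' p) z := by
      unfold qz
      have h2 : HasDerivAt (fun w : ℂ => Complex.I * w) Complex.I z := by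
        simpa using (hasDerivAt_id z).const_mul Complex.I
      exact h2.add hp6
    rw [← h1.deriv]
    exact hz3
  · have hval : (Complex.I * p.rz + hvl s s' p) = qz Φ z := by
      rw [hp2, ← hp5]
      rfl
    rw [hval]
    have hJT : ∀ N, JT t N = upp (1 / N) fun φ => XX t N φ * kr N φ := by
      intro N
      unfold JT
      rw [hbl, hwt]
      congr 1
      funext φ
      have e1 : Eb false 0 N φ = 1 := by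
        unfold Eb Ea
        simp
      rw [e1, one_mul]
    simp only [hJT]
    exact hux

end Pool.Agent.TH563.Z
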