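import Pool.Agent.TH563.Z.FinZ
import Pool.Agent.TH563.UV.Arb

/-!
# Montesinos links and more general arborescent links: the growth rate
-/

set_option autoImplicit false

namespace Pool.Agent.TH563.Z.Arb

open Finset Filter Topology
open Pool.Agent.TH563.UV.Arb

lemma norm_root (N : ℕ) : ‖root N‖ = 1 := by
  unfold root
  have e : (Real.pi : ℂ) * Complex.I / N = ((Real.pi / N : ℝ) : ℂ) * Complex.I := by
    push_cast
    ring
  rw [e, Complex.norm_exp_ofReal_mul_I]

lemma norm_kashaev (e f : ℤ) (t : Tree) (N : ℕ) : ‖kashaev e f t N‖ = ‖jones t N (root N)‖ := by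
  unfold kashaev
  rw [norm_mul, norm_mul, norm_zpow, norm_zpow, norm_neg, norm_one, one_zpow, norm_root, one_zpow,
    one_mul, one_mul]

/-- The growth rate of the Kashaev invariants of arborescent links with a vertex of weight `0` and at
least three neighbours (the root), all other vertices being large. -/
theorem main (hF : Pool.Agent.TH563.Z.S_FINJ) : ∃ K : ℕ, ∀ t : Tree, t.circle = false →
    t.weight = 0 → 3 ≤ t.children → t.LargeBelow K →
    (∀ N : ℕ, ContinuousAt (jones t N) (root N)) ∧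
    ∃ V : ℝ, IsGreatest {W : ℝ | ∃ y : AngleTree, y.tree = t ∧ IsAngle y ∧ vol y = W} V ∧
      ∀ e f : ℤ,
        Tendsto (fun N : ℕ => 2 * Real.pi * (Real.log ‖kashaev e f t N‖ / N)) atTop (𝓝 V) := by
  obtain ⟨K, hK0, hM⟩ := hF
  refine ⟨⌈K⌉₊, fun t hb hw hc ht => ?_⟩
  have hl := Pool.Agent.TH563.Z.below_mono hK0.le (Nat.le_ceil K) (toTb t) (below_tb _ t ht)
  obtain ⟨V, h1, h2⟩ := hM (toTb t) hl (by rw [bl_to, hb]) (by rw [wt_to, hw])
    (by rw [nc_to]; exact hc)
  have hj : ∀ N, jones t N = Pool.Agent.TH563.UV.jt (toTb t) N := fun N => jones_to t N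
  have hroot : ∀ N : ℕ, root N = Pool.Agent.W711.HT.vN N := fun N => rfl
  refine ⟨fun N => ?_, V, ?_, fun e f => ?_⟩
  · rw [hj]
    exact Pool.Agent.TH639.J28.cnt _ _
  · rw [volume_eq]
    exact h1
  · refine h2.congr fun N => ?_
    rw [norm_kashaev, hj, hroot]

end Pool.Agent.TH563.Z.Arb
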