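import Pool.Agent.TH563.Z.FinX
import Pool.Agent.TH563.Z.ArbZ

/-!
# Montesinos links and more general arborescent links: the expansion
-/

set_option autoImplicit false

namespace Pool.Agent.TH563.Z.Arb

open Finset Filter Topology
open Pool.Agent.TH563.UV.Arb
open Pool.Agent.W719.AX (EXY)

/-- The expansion to all orders of the Kashaev invariants of arborescent links with a vertex of
weight `0` and at least three neighbours (the root), all other vertices being large. -/
theorem mainX (hF : Pool.Agent.TH563.Z.S_FINJX) : ∃ K : ℕ, ∀ t : Tree, t.circle = false →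
    t.weight = 0 → 3 ≤ t.children → t.LargeBelow K →
    (∀ N : ℕ, ContinuousAt (jones t N) (root N)) ∧
    ∃ V : ℝ, IsGreatest {W : ℝ | ∃ y : AngleTree, y.tree = t ∧ IsAngle y ∧ vol y = W} V ∧
      ∀ e f : ℤ, ∃ (v : ℂ) (y : ℕ → ℂ), 2 * Real.pi * v.re = V ∧ y 0 ≠ 0 ∧
        EXY (kashaev e f t) v y := by
  obtain ⟨K, hK0, hM⟩ := hF
  refine ⟨⌈K⌉₊, fun t hb hw hc ht => ?_⟩
  have hl := Pool.Agent.TH563.Z.below_mono hK0.le (Nat.le_ceil K) (toTb t) (below_tb _ t ht)
  obtain ⟨V, v, y, h2, hv, hy, hexp⟩ := hM (toTb t) hl (by rw [bl_to, hb]) (by rw [wt_to, hw])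
    (by rw [nc_to]; exact hc)
  have hj : ∀ N, jones t N = Pool.Agent.TH563.UV.jt (toTb t) N := fun N => jones_to t N
  have hroot : ∀ N : ℕ, root N = Pool.Agent.W711.HT.vN N := fun N => rfl
  have hE : EXY (fun N : ℕ => jones t N (root N)) v y := by
    intro K
    obtain ⟨C, hC⟩ := hexp K
    refine ⟨C, hC.mono fun N hN => ?_⟩
    beta_reduce
    rw [hj, hroot]
    exact hN
  refine ⟨fun N => ?_, V, ?_, ?_⟩
  · rw [hj]
    exact Pool.Agent.TH639.J28.cnt _ _
  · rw [volume_eq]
    exact h2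
  · intro e f
    obtain ⟨y', hy', h⟩ := hE.frame hy e f
    refine ⟨_, y', ?_, hy', h⟩
    have e1 : (v + Real.pi * Complex.I * (e + f)).re = v.re := by
      have : (Real.pi : ℂ) * Complex.I * (e + f) = ((Real.pi * (e + f) : ℝ) : ℂ) * Complex.I := by
        push_cast
        ring
      rw [this, Complex.add_re, Complex.re_ofReal_mul, Complex.I_re, mul_zero, add_zero]
    rw [e1]
    exact hv

end Pool.Agent.TH563.Z.Arb
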