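import Pool.Agent.TH563.Z.Stm
import Pool.Agent.TH563.UV.Crit3

/-!
# Hubs of weight zero: the critical points at the children of the root
-/

set_option autoImplicit false

namespace Pool.Agent.TH563.Z

open Filter Topology Metric Set
open Pool.Agent.W711.HT hiding XX
open Pool.Agent.W293.HT
open Pool.Agent.TH563.UV
open scoped Real

theorem isOpen_Rz (η ρ τ : ℝ) : IsOpen (Rz η ρ τ) := by
  have h1 : IsOpen {z : ℂ | |z.re| < ρ} :=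
    isOpen_lt (continuous_abs.comp Complex.continuous_re) continuous_const
  have h2 : IsOpen {z : ℂ | |z.im - η| < τ} :=
    isOpen_lt (continuous_abs.comp (Complex.continuous_im.sub continuous_const)) continuous_const
  exact h1.inter h2

theorem Rz_mono {η a b c d : ℝ} (h1 : a ≤ c) (h2 : b ≤ d) : Rz η a b ⊆ Rz η c d :=
  fun _ hw => ⟨lt_of_lt_of_le hw.1 h1, lt_of_lt_of_le hw.2 h2⟩

section

variable {η ρ τ ρ' τ' c' C' r : ℝ} {s' : ℂ → ℂ → ℂ}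

theorem ds_jointZ (hs : DifferentiableOn ℂ (fun p : ℂ × ℂ => s' p.1 p.2)
    (Rc (3 * ρ) (3 * τ) ×ˢ Rz η (3 * ρ') (3 * τ'))) :
    DifferentiableOn ℂ (fun p : ℂ × ℂ => deriv (fun w => s' w p.2) p.1)
      (Rc (3 * ρ) (3 * τ) ×ˢ Rz η (3 * ρ') (3 * τ')) := by
  have hU := (isOpen_Rc (3 * ρ) (3 * τ)).prod (isOpen_Rz η (3 * ρ') (3 * τ'))
  have h1 := Pool.Agent.Helper540.differentiableOn_fderiv_apply hU hs ((1 : ℂ), (0 : ℂ))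
  refine h1.congr ?_
  rintro ⟨w, ψ⟩ hp
  have h2 : DifferentiableAt ℂ (fun p : ℂ × ℂ => s' p.1 p.2) (w, ψ) :=
    hs.differentiableAt (hU.mem_nhds hp)
  have h3 : HasDerivAt (fun w : ℂ => (w, ψ)) ((1 : ℂ), (0 : ℂ)) w :=
    (hasDerivAt_id w).prodMk (hasDerivAt_const w ψ)
  exact (h2.hasFDerivAt.comp_hasDerivAt w h3).deriv

theorem dds_diffZ (hρ0 : 0 < ρ) (hτ0 : 0 < τ)
    (hs : DifferentiableOn ℂ (fun p : ℂ × ℂ => s' p.1 p.2)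
      (Rc (3 * ρ) (3 * τ) ×ˢ Rz η (3 * ρ') (3 * τ'))) :
    DifferentiableOn ℂ (fun ψ => deriv (deriv (fun w => s' w ψ)) 0) (Rz η (3 * ρ') (3 * τ')) := by
  have hU := (isOpen_Rc (3 * ρ) (3 * τ)).prod (isOpen_Rz η (3 * ρ') (3 * τ'))
  have h0 : (0 : ℂ) ∈ Rc (3 * ρ) (3 * τ) := zero_mem_Rc (by linarith) (by linarith)
  have h1 := Pool.Agent.Helper540.differentiableOn_fderiv_apply hU (ds_jointZ hs)
    ((1 : ℂ), (0 : ℂ))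
  have h2 : DifferentiableOn ℂ (fun ψ : ℂ => ((0 : ℂ), ψ)) (Rz η (3 * ρ') (3 * τ')) :=
    ((differentiable_const (0 : ℂ)).prodMk differentiable_id).differentiableOn
  have h3 := h1.comp h2 (fun ψ hψ => ⟨h0, hψ⟩)
  refine h3.congr ?_
  intro ψ hψ
  have h4 : DifferentiableAt ℂ (fun p : ℂ × ℂ => deriv (fun w => s' w p.2) p.1) (0, ψ) :=
    (ds_jointZ hs).differentiableAt (hU.mem_nhds ⟨h0, hψ⟩)
  have h5 : HasDerivAt (fun w : ℂ => (w, ψ)) ((1 : ℂ), (0 : ℂ)) 0 :=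
    (hasDerivAt_id _).prodMk (hasDerivAt_const _ ψ)
  exact (h4.hasFDerivAt.comp_hasDerivAt (0 : ℂ) h5).deriv

theorem s_diffZ (hs : DifferentiableOn ℂ (fun p : ℂ × ℂ => s' p.1 p.2)
    (Rc (3 * ρ) (3 * τ) ×ˢ Rz η (3 * ρ') (3 * τ'))) {ψ : ℂ} (hψ : ψ ∈ Rz η (3 * ρ') (3 * τ')) :
    DifferentiableOn ℂ (fun w => s' w ψ) (Rc (3 * ρ) (3 * τ)) := by
  have : DifferentiableOn ℂ (fun w : ℂ => (w, ψ)) (Rc (3 * ρ) (3 * τ)) :=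
    (differentiable_id.prodMk (differentiable_const ψ)).differentiableOn
  exact hs.comp this (fun w hw => ⟨hw, hψ⟩)

theorem s_diff2Z (hs : DifferentiableOn ℂ (fun p : ℂ × ℂ => s' p.1 p.2)
    (Rc (3 * ρ) (3 * τ) ×ˢ Rz η (3 * ρ') (3 * τ'))) {w : ℂ} (hw : w ∈ Rc (3 * ρ) (3 * τ)) :
    DifferentiableOn ℂ (fun ψ => s' w ψ) (Rz η (3 * ρ') (3 * τ')) := by
  have : DifferentiableOn ℂ (fun ψ : ℂ => (w, ψ)) (Rz η (3 * ρ') (3 * τ')) :=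
    ((differentiable_const w).prodMk differentiable_id).differentiableOn
  exact hs.comp this (fun ψ hψ => ⟨hw, hψ⟩)

end

/-- the potential of an edge at the hub, on the small rectangles -/
structure EZ (η ρ τ ρ' τ' c' C' : ℝ) (s' : ℂ → ℂ → ℂ) : Prop where
  hρ : 0 < ρ ∧ ρ ≤ 1 / 4
  hτ : 0 < τ ∧ τ ≤ ρ
  hρ' : 0 < ρ' ∧ ρ' ≤ 1 / 4
  hτ' : 0 < τ' ∧ τ' ≤ ρ' ∧ 3 * τ' < η
  hc : 0 < c'
  hC : 0 < C'
  san : DifferentiableOn ℂ (fun p : ℂ × ℂ => s' p.1 p.2)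
    (Rc (3 * ρ) (3 * τ) ×ˢ Rz η (3 * ρ') (3 * τ'))
  sbd : ∀ ψ ∈ Rc (3 * ρ) (3 * τ), ∀ φ ∈ Rz η (3 * ρ') (3 * τ'), ‖s' ψ φ‖ ≤ C'
  ev : ∀ ψ ∈ Rc (3 * ρ) (3 * τ), ∀ φ ∈ Rz η (3 * ρ') (3 * τ'), s' (-ψ) φ = s' ψ φ
  conc1 : ∀ ψ ∈ Rc (3 * ρ) (3 * τ), ∀ φ ∈ Rz η (3 * ρ') (3 * τ'),
    (deriv (deriv fun z => s' z φ) ψ).re ≤ -c'

theorem ez_of {η ε ρ τ ρ' τ' κ c' : ℝ} {s' dl' : ℂ → ℂ → ℂ} (h : KDZ η ε ρ τ ρ' τ' κ c' s' dl') :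
    ∃ C' : ℝ, EZ η ρ τ ρ' τ' c' C' s' := by
  obtain ⟨r, C, hS, h1, h2⟩ := h.sdz
  obtain ⟨a1, a2⟩ := h.hρ
  obtain ⟨b1, b2⟩ := h.hτ
  obtain ⟨d1, d2⟩ := h.hρ'
  obtain ⟨e1, e2, e3⟩ := h.hτ'
  have m1 : Rc (3 * ρ) (3 * τ) ⊆ Rc r r := Rc_mono h1 (by linarith)
  have m2 : Rz η (3 * ρ') (3 * τ') ⊆ Rz η r r := Rz_mono h2 (by linarith)
  exact ⟨C, ⟨h.hρ, h.hτ, h.hρ', h.hτ', h.hc, hS.hC, hS.san.mono (Set.prod_mono m1 m2),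
    fun ψ hψ φ hφ => hS.sbd ψ (m1 hψ) φ (m2 hφ), fun ψ hψ φ hφ => hS.ev ψ (m1 hψ) φ (m2 hφ),
    fun ψ hψ φ hφ => hS.conc1 ψ (m1 hψ) φ (m2 hφ)⟩⟩

/-- the critical points at the children of the hub -/
theorem cpz (hFIX : S_FIX) {ρ₀ τ₀ κ₀ c₀ ε₀ : ℝ} {s dl : ℂ → ℂ → ℂ} (hK : KD ρ₀ τ₀ κ₀ c₀ s dl)
    (hε₁ : ε₀ ≤ 1) (hε₂ : ε₀ ≤ c₀ * τ₀ ^ 2 / 16) {η ρ τ ρ' τ' c' C'' : ℝ} {s' : ℂ → ℂ → ℂ}
    (hE : EZ η ρ τ ρ' τ' c' C'' s') (hρρ : 3 * ρ ≤ ρ₀) (hττ : 3 * τ ≤ τ₀) {r₀ ε₁ : ℝ}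
    (hr₀ : 0 < r₀) (hε10 : 0 < ε₁) :
    ∃ K : ℝ, 0 < K ∧ ∀ (t : ℕ) (F : ℂ → ℂ), DifferentiableOn ℂ F (Rc (3 * ρ₀) (3 * τ₀)) →
      (∀ ψ ∈ Rc (3 * ρ₀) (3 * τ₀), F (-ψ) = F ψ) →
      (∀ ψ ∈ Rc (3 * ρ₀) (3 * τ₀), ‖F ψ - F 0 - t * (s 0 ψ - s 0 0)‖ ≤ t * ε₀) →
      ∀ a : ℤ, K ^ 2 ≤ ((t + 1 : ℕ) : ℝ) ^ 2 + (a : ℝ) ^ 2 →
        ∃ (F' : ℂ → ℂ) (zs : ℂ → ℂ), DifferentiableOn ℂ F' (Rz η (3 * ρ') (3 * τ')) ∧
        DifferentiableOn ℂ zs (Rz η (3 * ρ') (3 * τ')) ∧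
        (∀ ψ ∈ Rz η (3 * ρ') (3 * τ'), ‖F' ψ - F 0 - s' 0 ψ‖ ≤ ε₁) ∧
        ∀ ψ' ∈ Rz η (3 * ρ') (3 * τ'), CPu ρ τ r₀ (zs ψ') ∧
          SAD a (fun w => F w + s' w ψ') ρ (zs ψ') ∧
          Complex.I * a * zs ψ' / (2 * π) + Complex.I + deriv F (zs ψ') +
            deriv (fun w => s' w ψ') (zs ψ') = 0 ∧
          F' ψ' = qq a F (zs ψ') + s' (zs ψ') ψ' ∧
          HasDerivAt F' (deriv (fun w => s' (zs ψ') w) ψ') ψ' := by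
  obtain ⟨C₀, hC₀⟩ := hK.sbd
  have hρ00 := hK.hρ.1
  have hτ00 := hK.hτ.1
  have hρ0 := hE.hρ.1
  have hρ1 := hE.hρ.2
  have hτ0 := hE.hτ.1
  have hτρ := hE.hτ.2
  have hc00 := hK.hc
  have hc := hE.hc
  have hpi := Real.pi_pos
  have hUc := isOpen_Rc (3 * ρ) (3 * τ)
  have hUz := isOpen_Rz η (3 * ρ') (3 * τ')
  have h0 : (0 : ℂ) ∈ Rc (3 * ρ) (3 * τ) := zero_mem_Rc (by linarith) (by linarith)
  have h00 : (0 : ℂ) ∈ Rc (3 * ρ₀) (3 * τ₀) := zero_mem_Rc (by linarith) (by linarith)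
  have hC00 : 0 ≤ C₀ := (norm_nonneg _).trans (hC₀ 0 h00 0 h00)
  have hsub : Rc (3 * ρ) (3 * τ) ⊆ Rc (3 * ρ₀) (3 * τ₀) := Rc_mono (by linarith) (by linarith)
  have hsub2 : Rc (2 * ρ) (2 * τ) ⊆ Rc (2 * ρ₀) (2 * τ₀) := Rc_mono (by linarith) (by linarith)
  have hsub23 : Rc (2 * ρ) (2 * τ) ⊆ Rc (3 * ρ) (3 * τ) := Rc_mono (by linarith) (by linarith)
  obtain ⟨c₁, hc₁⟩ : ∃ c₁ : ℝ, c₁ = min (c₀ / 2) c' := ⟨_, rfl⟩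
  have hc₁0 : 0 < c₁ := by rw [hc₁]; exact lt_min (by positivity) hc
  have hc₁a : c₁ ≤ c₀ / 2 := by rw [hc₁]; exact min_le_left _ _
  have hc₁b : c₁ ≤ c' := by rw [hc₁]; exact min_le_right _ _
  obtain ⟨C', hC'⟩ : ∃ C' : ℝ, C' = 8 * (1 + 3 * C₀) / τ₀ ^ 2 + 8 * C'' / τ ^ 2 + 1 := ⟨_, rfl⟩
  have hCa : 0 ≤ 8 * (1 + 3 * C₀) / τ₀ ^ 2 := by positivity
  have hCb : 0 ≤ 8 * C'' / τ ^ 2 := by have := hE.hC; positivity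
  have hC'1 : 1 ≤ C' := by rw [hC']; linarith
  have hC'0 : 0 < C' := by linarith
  obtain ⟨R, hR, L₀, hL₀, hex⟩ := exU hFIX hτ0 hτρ hc₁0 hC'1 hUz
  obtain ⟨R', hR'⟩ : ∃ R' : ℝ, R' = R ^ 2 / 2 + R + C' * R ^ 2 := ⟨_, rfl⟩
  have hR'0 : 0 < R' := by rw [hR']; positivity
  obtain ⟨S, hS⟩ : ∃ S : ℝ, S = 2 * (C' * R ^ 2 / 4 + C' ^ 2 * R ^ 2 + R') := ⟨_, rfl⟩
  have hS0 : 0 < S := by rw [hS]; positivity
  obtain ⟨L₁, hL₁⟩ : ∃ L₁ : ℝ, L₁ = L₀ + (R / τ + 1) + (S / (c₁ * ρ ^ 2) + 1) +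
    R' / ε₁ + R / r₀ := ⟨_, rfl⟩
  have v1 : 0 < R / τ := by positivity
  have v2 : 0 < S / (c₁ * ρ ^ 2) := by positivity
  have v4 : 0 < R' / ε₁ := by positivity
  have v5 : 0 < R / r₀ := by positivity
  have hL₁0 : 0 < L₁ := by linarith
  refine ⟨2 * π * L₁, by positivity, ?_⟩
  intro t F hF hev hcl a hbg
  -- second derivatives
  have gF : GH ρ₀ τ₀ (c₀ / 2 * (t : ℝ)) (8 * (1 + 3 * C₀) / τ₀ ^ 2 * (t : ℝ)) F :=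
    (gh_U (t := (t : ℝ)) hK hε₁ hε₂ hC₀ (Nat.cast_nonneg t) hF hev (by
      intro ψ hψ
      have := hcl ψ hψ
      rwa [Complex.ofReal_natCast])).2
  have ht0 : (0 : ℝ) ≤ t := Nat.cast_nonneg t
  have hFc : DifferentiableOn ℂ F (Rc (3 * ρ) (3 * τ)) := hF.mono hsub
  have gh1 : ∀ ψ ∈ Rz η (3 * ρ') (3 * τ'),
      GH ρ τ (c₁ * ((t : ℝ) + 1)) (C' * ((t : ℝ) + 1)) (fun w => F w + s' w ψ) := by
    intro ψ hψ
    have hsd := s_diffZ hE.san hψ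
    refine ⟨hFc.add hsd, ?_, ?_, ?_⟩
    · intro w hw
      show F (-w) + s' (-w) ψ = F w + s' w ψ
      rw [hev w (hsub hw), hE.ev w hw ψ hψ]
    · intro w hw
      rw [dd_add hUc hFc hsd (hsub23 hw), Complex.add_re]
      have e1 := gF.d2 w (hsub2 hw)
      have e2 := hE.conc1 w (hsub23 hw) ψ hψ
      have e3 : c₁ * t ≤ c₀ / 2 * t := mul_le_mul_of_nonneg_right hc₁a ht0
      linarith
    · intro w hw
      rw [dd_add hUc hFc hsd (hsub23 hw)]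
      refine (norm_add_le _ _).trans ?_
      have e1 := gF.d2b w (hsub2 hw)
      have e2 := cauchy2 (g := fun w => s' w ψ) hτ0 hτρ hsd
        (fun z hz => hE.sbd z hz ψ hψ) hw
      have e3 : 0 ≤ 8 * C'' / τ ^ 2 * t := by positivity
      have e4 : C' * ((t : ℝ) + 1) = 8 * (1 + 3 * C₀) / τ₀ ^ 2 * t + 8 * C'' / τ ^ 2 +
          (8 * (1 + 3 * C₀) / τ₀ ^ 2 + 8 * C'' / τ ^ 2 * t + t + 1) := by
        rw [hC']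
        ring
      rw [e4]
      have e5 : 8 * C'' / τ ^ 2 = 8 * C'' / τ ^ 2 := rfl
      linarith
  obtain ⟨A, hA⟩ : ∃ A : ℝ, A = a / (2 * π) := ⟨_, rfl⟩
  have hL : L₁ ≤ |A| + ((t : ℝ) + 1) := by
    have h1 : (2 * π * L₁) ^ 2 ≤ (((t + 1 : ℕ) : ℝ) + |(a : ℝ)|) ^ 2 := by
      have : (a : ℝ) ^ 2 = |(a : ℝ)| ^ 2 := (sq_abs _).symm
      rw [this] at hbg
      have : 0 ≤ ((t + 1 : ℕ) : ℝ) * |(a : ℝ)| := by positivity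
      nlinarith
    have h2 : 2 * π * L₁ ≤ ((t + 1 : ℕ) : ℝ) + |(a : ℝ)| := by
      apply le_of_sq_le_sq h1
      positivity
    have h3 : |A| = |(a : ℝ)| / (2 * π) := by
      rw [hA, abs_div, abs_of_pos (by positivity : (0 : ℝ) < 2 * π)]
    have h4 : ((t + 1 : ℕ) : ℝ) ≤ 2 * π * ((t + 1 : ℕ) : ℝ) := by
      have : (1 : ℝ) ≤ 2 * π := by linarith [Real.pi_gt_three]
      have h5 : (0 : ℝ) ≤ ((t + 1 : ℕ) : ℝ) := Nat.cast_nonneg _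
      nlinarith
    have h5 : 2 * π * (|A| + ((t + 1 : ℕ) : ℝ)) = |(a : ℝ)| + 2 * π * ((t + 1 : ℕ) : ℝ) := by
      rw [h3]; field_simp
    have h6 : 2 * π * L₁ ≤ 2 * π * (|A| + ((t + 1 : ℕ) : ℝ)) := by linarith
    have h7 := le_of_mul_le_mul_left h6 (by positivity)
    rw [Nat.cast_add, Nat.cast_one] at h7
    exact h7
  obtain ⟨L, hLe⟩ : ∃ L : ℝ, L = |A| + ((t : ℝ) + 1) := ⟨_, rfl⟩
  rw [← hLe] at hL
  have hLp : 0 < L := by linarith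
  have k0 : L₀ ≤ L := by linarith
  have k1 : R / L < τ := by
    have h1 : R / τ < L := by linarith
    rw [div_lt_iff₀ hτ0] at h1
    rw [div_lt_iff₀ hLp]
    linarith
  have k2 : 2 * (C' * R ^ 2 / 4 + C' ^ 2 * R ^ 2 + (R ^ 2 / 2 + R + C' * R ^ 2)) / L <
      c₁ * ρ ^ 2 := by
    rw [← hR', ← hS]
    have h1 : S / (c₁ * ρ ^ 2) < L := by linarith
    rw [div_lt_iff₀ (by positivity)] at h1
    rw [div_lt_iff₀ hLp]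
    linarith
  have k4 : R' / L ≤ ε₁ := by
    have h1 : R' / ε₁ ≤ L := by linarith
    rw [div_le_iff₀ hε10] at h1
    rw [div_le_iff₀ hLp]
    linarith
  have k5 : R / L ≤ r₀ := by
    have h1 : R / r₀ ≤ L := by linarith
    rw [div_le_iff₀ hr₀] at h1
    rw [div_le_iff₀ hLp]
    linarith
  have ht1 : (1 : ℝ) ≤ (t : ℝ) + 1 := by linarith
  have hsum : ∀ ψ ∈ Rz η (3 * ρ') (3 * τ'), ∀ w ∈ Rc (3 * ρ) (3 * τ),
      deriv (fun w => F w + s' w ψ) w = deriv F w + deriv (fun w => s' w ψ) w := by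
    intro ψ hψ w hw
    exact deriv_fun_add (hFc.differentiableAt (hUc.mem_nhds hw))
      ((s_diffZ hE.san hψ).differentiableAt (hUc.mem_nhds hw))
  have hballsub : ball (0 : ℂ) τ ⊆ Rc (3 * ρ) (3 * τ) := fun w hw =>
    Rc_mono (by linarith) (by linarith) (mem_Rc_of_norm hτρ (by rwa [mem_ball_zero_iff] at hw))
  obtain ⟨zs, hzd, hz⟩ := hex ((t : ℝ) + 1) (fun ψ w => F w + s' w ψ) ht1 gh1
    (by
      have e1 : DifferentiableOn ℂ (fun p : ℂ × ℂ => deriv F p.1)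
          (ball 0 τ ×ˢ Rz η (3 * ρ') (3 * τ')) :=
        (hFc.deriv hUc).comp differentiableOn_fst (fun p hp => hballsub hp.1)
      have e2 := (ds_jointZ hE.san).mono (prod_mono_left (t := Rz η (3 * ρ') (3 * τ')) hballsub)
      refine (e1.add e2).congr ?_
      rintro ⟨w, ψ⟩ ⟨hw, hψ⟩
      exact hsum ψ hψ w (hballsub hw))
    (by
      refine ((differentiableOn_const (deriv (deriv F) 0)).add
        (dds_diffZ hρ0 hτ0 hE.san)).congr ?_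
      intro ψ hψ
      exact dd_add hUc hFc (s_diffZ hE.san hψ) h0)
    A (by rw [← hLe]; exact k0)
  rw [← hLe] at hz
  have hz3 : ∀ ψ ∈ Rz η (3 * ρ') (3 * τ'), zs ψ ∈ Rc (3 * ρ) (3 * τ) := by
    intro ψ hψ
    apply hballsub
    rw [mem_ball_zero_iff]
    exact (hz ψ hψ).1.trans_lt k1
  have hcr : ∀ ψ ∈ Rz η (3 * ρ') (3 * τ'),
      Complex.I * A * zs ψ + Complex.I + (deriv F (zs ψ) + deriv (fun w => s' w ψ) (zs ψ)) =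
        0 := by
    intro ψ hψ
    rw [← hsum ψ hψ _ (hz3 ψ hψ)]
    exact (hz ψ hψ).2.1
  have hprops : ∀ ψ ∈ Rz η (3 * ρ') (3 * τ'), _ := fun ψ hψ =>
    crit_propsU ht1 (gh1 ψ hψ) hτ0 hτρ hρ1 hc₁0 hC'1 a A hA hR (by rw [← hLe]; exact k1)
      (by rw [← hLe]; exact k2) (zs ψ) (by rw [← hLe]; exact (hz ψ hψ).1) (hz ψ hψ).2.1
  rw [← hLe] at hprops
  have hcr' : ∀ ψ ∈ Rz η (3 * ρ') (3 * τ'), Complex.I * a * zs ψ / (2 * π) + Complex.I +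
      deriv F (zs ψ) + deriv (fun w => s' w ψ) (zs ψ) = 0 := by
    intro ψ hψ
    rw [← hcr ψ hψ, hA]
    push_cast
    ring
  have hFp : ∀ ψ ∈ Rz η (3 * ρ') (3 * τ'),
      HasDerivAt (fun ψ => qq a F (zs ψ) + s' (zs ψ) ψ) (deriv (fun w => s' (zs ψ) w) ψ) ψ := by
    intro ψ hψ
    have hzψ := hz3 ψ hψ
    have e1 : HasDerivAt zs (deriv zs ψ) ψ :=
      (hzd.differentiableAt (hUz.mem_nhds hψ)).hasDerivAt
    have e2 : HasDerivAt (fun ψ => qq a F (zs ψ))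
        ((Complex.I * a * zs ψ / (2 * π) + Complex.I + deriv F (zs ψ)) * deriv zs ψ) ψ :=
      HasDerivAt.comp ψ (hasDerivAt_qq a (hFc.differentiableAt (hUc.mem_nhds hzψ))) e1
    have e3 : DifferentiableAt ℂ (fun p : ℂ × ℂ => s' p.1 p.2) (zs ψ, ψ) :=
      hE.san.differentiableAt ((hUc.prod hUz).mem_nhds ⟨hzψ, hψ⟩)
    have e4 : HasDerivAt (fun ψ => s' (zs ψ) ψ)
        (fderiv ℂ (fun p : ℂ × ℂ => s' p.1 p.2) (zs ψ, ψ) (deriv zs ψ, 1)) ψ :=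
      HasFDerivAt.comp_hasDerivAt (l := fun p : ℂ × ℂ => s' p.1 p.2) (f := fun ψ => (zs ψ, ψ)) ψ
        e3.hasFDerivAt (e1.prodMk (hasDerivAt_id ψ))
    have e5 : fderiv ℂ (fun p : ℂ × ℂ => s' p.1 p.2) (zs ψ, ψ) (1, 0) =
        deriv (fun w => s' w ψ) (zs ψ) :=
      ((e3.hasFDerivAt.comp_hasDerivAt (zs ψ)
        ((hasDerivAt_id (zs ψ)).prodMk (hasDerivAt_const (zs ψ) ψ))).deriv).symm
    have e6 : fderiv ℂ (fun p : ℂ × ℂ => s' p.1 p.2) (zs ψ, ψ) (0, 1) =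
        deriv (fun w => s' (zs ψ) w) ψ :=
      ((e3.hasFDerivAt.comp_hasDerivAt ψ
        ((hasDerivAt_const ψ (zs ψ)).prodMk (hasDerivAt_id ψ))).deriv).symm
    have e7 : ((deriv zs ψ, 1) : ℂ × ℂ) = deriv zs ψ • ((1, 0) : ℂ × ℂ) + (0, 1) := by
      ext <;> simp
    refine (e2.add e4).congr_deriv ?_
    rw [e7, map_add, map_smul, e5, e6, smul_eq_mul]
    linear_combination (deriv zs ψ) * (hcr' ψ hψ)
  refine ⟨fun ψ => qq a F (zs ψ) + s' (zs ψ) ψ, zs, ?_, hzd, ?_, ?_⟩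
  · intro ψ hψ
    exact (hFp ψ hψ).differentiableAt.differentiableWithinAt
  · intro ψ hψ
    have e1 := (hprops ψ hψ).2.2.2
    have e2 : qq a (fun w => F w + s' w ψ) (zs ψ) - (F 0 + s' 0 ψ) =
        (qq a F (zs ψ) + s' (zs ψ) ψ) - F 0 - s' 0 ψ := by
      unfold qq
      ring
    rw [e2, ← hR'] at e1
    exact e1.trans k4
  · intro ψ hψ
    obtain ⟨p1, p2, p3, -⟩ := hprops ψ hψ
    exact ⟨⟨p1, p2, (hz ψ hψ).1.trans k5⟩, p3, hcr' ψ hψ, rfl, hFp ψ hψ⟩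

end Pool.Agent.TH563.Z
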