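import Pool.Agent.TH563.Z.Upp

/-!
# Hubs of weight zero: products over the children of the root
-/

set_option autoImplicit false
set_option maxHeartbeats 1000000

namespace Pool.Agent.TH563.Z

open Finset Filter Topology Metric
open Pool.Agent.W711.HT hiding XX
open Pool.Agent.TH563.UV
open Pool.Agent.W85.HT hiding Rc_mono
open Pool.Agent.W346.HT (IntP IntP_kr upp_const_mul)

open Pool.Agent.TH929.J29 (nat_exp_ev)
open scoped Real

/-- all that is needed about the product over `j` children of the hub -/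
structure HubZ (η ε ρ' τ' κ x₀ δ ε₁ : ℝ) (s' : ℂ → ℂ → ℂ) (j : ℕ) (P PL : ℕ → ℂ → ℂ) (f : ℂ)
    (Φ : ℂ → ℂ) : Prop where
  an : ∀ N, Differentiable ℂ (P N)
  anL : ∀ N, Differentiable ℂ (PL N)
  ev : ∀ N φ, P N (-φ) = P N φ
  evL : ∀ N φ, PL N (-φ) = PL N φ
  per : ∀ N φ, P N (φ + 2 * π) = P N φ
  perL : ∀ N φ, PL N (φ + 2 * π) = PL N φ
  Fan : DifferentiableOn ℂ Φ (Rz η (3 * ρ') (3 * τ'))
  Fcl : ∀ φ ∈ Rz η (3 * ρ') (3 * τ'), ‖Φ φ - f - j * s' 0 φ‖ ≤ j * ε₁
  mw : MW PL Φ (Rz η (2 * ρ') (2 * τ'))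
  far : ∀ᶠ N : ℕ in atTop, ∀ x y : ℝ, ρ' ≤ |x| → |x| ≤ π → |y - η| ≤ 3 * τ' →
    ‖PL N (x + y * Complex.I)‖ ≤ Real.exp (N * (f.re + j * (AA η - κ / 2)))
  out : ∀ᶠ N : ℕ in atTop, ∀ x y : ℝ, x₀ ≤ |x| → |x| ≤ π → |y| ≤ 1 / N →
    ‖P N (x + y * Complex.I)‖ ≤ Real.exp (N * (f.re + j * (2 * bet - δ))) ∧
    ‖PL N (x + y * Complex.I)‖ ≤ Real.exp (N * (f.re + j * (2 * bet - δ)))
  rem : ∀ ε' : ℝ, 0 < ε' → ∀ᶠ N : ℕ in atTop, ∀ (Q : ℂ → ℂ) (B : ℝ), Differentiable ℂ Q →
    (∀ z, Q (-z) = Q z) → (∀ z, Q (z + 2 * π) = Q z) → 0 ≤ B →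
    (∀ x y : ℝ, x₀ ≤ |x| → |x| ≤ π → 0 ≤ y → y ≤ 1 / N → ‖Q (x + y * Complex.I)‖ ≤ B) →
    ‖upp (1 / N) fun φ => (P N φ - PL N φ) * Q φ * kr N φ‖ ≤
      B * Real.exp (N * (f.re + ((j : ℝ) - 1) * (2 * bet - δ) + ε'))

theorem hub_zero (η ε ρ' τ' κ x₀ δ ε₁ : ℝ) (s' : ℂ → ℂ → ℂ) :
    HubZ η ε ρ' τ' κ x₀ δ ε₁ s' 0 (fun _ _ => 1) (fun _ _ => 1) 0 (fun _ => 0) := by
  refine ⟨fun N => differentiable_const _, fun N => differentiable_const _, fun N φ => rfl,
    fun N φ => rfl, fun N φ => rfl, fun N φ => rfl, differentiableOn_const _, ?_, ?_, ?_, ?_, ?_⟩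
  · intro φ _
    simp
  · intro ε' he
    refine Eventually.of_forall fun N z _ => ⟨one_ne_zero, ?_⟩
    have h1 : (0 : ℝ) ≤ ε' * N := mul_nonneg he.le (Nat.cast_nonneg N)
    simpa using h1
  · refine Eventually.of_forall fun N x y _ _ _ => ?_
    simp
  · refine Eventually.of_forall fun N x y _ _ _ => ?_
    simp
  · intro ε' _
    refine Eventually.of_forall fun N Q B _ _ _ hB _ => ?_
    have e1 : (fun φ : ℂ => ((1 : ℂ) - 1) * Q φ * kr N φ) = fun φ => 0 := by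
      funext φ
      ring
    rw [e1]
    have e2 : upp (1 / N) (fun _ : ℂ => (0 : ℂ)) = 0 := by
      unfold upp
      simp
    rw [e2, norm_zero]
    positivity

theorem hub_succ (hR : S_REM) {η ε ρ' τ' κ x₀ δ ε₁ : ℝ} (hε : 0 < ε ∧ ε < 1 / 4) (hx₀ : 0 < x₀)
    (hx : x₀ < 2 * π * ε) {s' : ℂ → ℂ → ℂ} {j : ℕ} {P PL Y YL : ℕ → ℂ → ℂ} {f f₀ : ℂ}
    {Φ F' : ℂ → ℂ} (H : HubZ η ε ρ' τ' κ x₀ δ ε₁ s' j P PL f Φ)
    (C : ChZ η ε ρ' τ' κ x₀ δ ε₁ s' Y YL f₀ F') :
    HubZ η ε ρ' τ' κ x₀ δ ε₁ s' (j + 1) (fun N φ => P N φ * Y N φ) (fun N φ => PL N φ * YL N φ)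
      (f + f₀) (fun φ => Φ φ + F' φ) := by
  refine ⟨fun N => (H.an N).mul (C.an N), fun N => (H.anL N).mul (C.anL N), fun N φ => ?_,
    fun N φ => ?_, fun N φ => ?_, fun N φ => ?_, H.Fan.add C.Fan, ?_, ?_, ?_, ?_, ?_⟩
  · show P N (-φ) * Y N (-φ) = P N φ * Y N φ
    rw [H.ev, C.ev]
  · show PL N (-φ) * YL N (-φ) = PL N φ * YL N φ
    rw [H.evL, C.evL]
  · show P N (φ + 2 * π) * Y N (φ + 2 * π) = P N φ * Y N φ
    rw [H.per, C.per]
  · show PL N (φ + 2 * π) * YL N (φ + 2 * π) = PL N φ * YL N φ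
    rw [H.perL, C.perL]
  · intro φ hφ
    have h1 := H.Fcl φ hφ
    have h2 := C.Fcl φ hφ
    have e1 : Φ φ + F' φ - (f + f₀) - ((j + 1 : ℕ) : ℂ) * s' 0 φ =
        (Φ φ - f - j * s' 0 φ) + (F' φ - f₀ - s' 0 φ) := by
      push_cast
      ring
    rw [e1]
    refine (norm_add_le _ _).trans ((add_le_add h1 h2).trans (le_of_eq ?_))
    push_cast
    ring
  · intro ε' he
    filter_upwards [H.mw (ε' / 2) (by positivity), C.mw (ε' / 2) (by positivity)] with N h1 h2
    intro z hz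
    obtain ⟨hx0, hx1⟩ := h1 z hz
    obtain ⟨hy0, hy1⟩ := h2 z hz
    refine ⟨mul_ne_zero hx0 hy0, ?_⟩
    rw [norm_mul, Real.log_mul (norm_ne_zero_iff.mpr hx0) (norm_ne_zero_iff.mpr hy0),
      Complex.add_re]
    have e1 : Real.log ‖PL N z‖ + Real.log ‖YL N z‖ - (N : ℝ) * ((Φ z).re + (F' z).re) =
        (Real.log ‖PL N z‖ - N * (Φ z).re) + (Real.log ‖YL N z‖ - N * (F' z).re) := by ring
    rw [e1]
    refine (abs_add_le _ _).trans ((add_le_add hx1 hy1).trans (le_of_eq ?_))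
    ring
  · filter_upwards [H.far, C.far] with N h1 h2
    intro x y hx hx' hy
    rw [norm_mul]
    refine (mul_le_mul (h1 x y hx hx' hy) (h2 x y hx hx' hy) (norm_nonneg _)
      (Real.exp_pos _).le).trans (le_of_eq ?_)
    rw [← Real.exp_add, Complex.add_re]
    congr 1
    push_cast
    ring
  · filter_upwards [H.out, C.out] with N h1 h2
    intro x y hx hx' hy
    obtain ⟨a1, a2⟩ := h1 x y hx hx' hy
    obtain ⟨b1, b2⟩ := h2 x y hx hx' hy
    have e1 : Real.exp (N * ((f + f₀).re + ((j + 1 : ℕ) : ℝ) * (2 * bet - δ))) =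
        Real.exp (N * (f.re + j * (2 * bet - δ))) * Real.exp (N * (f₀.re + 2 * bet - δ)) := by
      rw [← Real.exp_add, Complex.add_re]
      congr 1
      push_cast
      ring
    rw [norm_mul, norm_mul, e1]
    exact ⟨mul_le_mul a1 b1 (norm_nonneg _) (Real.exp_pos _).le,
      mul_le_mul a2 b2 (norm_nonneg _) (Real.exp_pos _).le⟩
  · intro ε' hε'
    obtain ⟨M, hM1, hM2⟩ := C.dec
    filter_upwards [H.rem (ε' / 2) (by positivity), H.out, C.out,
      hR ε (ε' / 4) x₀ hε.1 (by linarith [hε.2]) (by positivity) hx₀ hx,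
      hM2 (ε' / 4) (by positivity), nat_exp_ev (show 0 < ε' / 4 by positivity) 1 1,
      eventually_gt_atTop 0] with N r1 o1 o2 r2 m1 n1 hN Q B hQd hQe hQp hB hQb
    have hN' : (0 : ℝ) < N := by exact_mod_cast hN
    obtain ⟨G, hG⟩ : ∃ G : ℝ, G = (f + f₀).re + j * (2 * bet - δ) := ⟨_, rfl⟩
    have hG' : (f + f₀).re + (((j + 1 : ℕ) : ℝ) - 1) * (2 * bet - δ) + ε' = G + ε' := by
      rw [hG]
      push_cast
      ring
    rw [hG']
    -- decomposition
    have e1 : (upp (1 / N) fun φ => (P N φ * Y N φ - PL N φ * YL N φ) * Q φ * kr N φ) =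
        (upp (1 / N) fun φ => (P N φ - PL N φ) * (YL N φ * Q φ) * kr N φ) +
          ∑ d ∈ Ico (cut ε N) N, M N d / (Sd N d : ℂ) ^ 4 *
            upp (1 / N) fun φ => (P N φ * Q φ) * Rp N d φ * kr N φ := by
      have k1 : ∀ d, IntP (1 / N) (fun φ => M N d / (Sd N d : ℂ) ^ 4 *
          ((P N φ * Q φ) * Rp N d φ * kr N φ)) := fun d =>
        (IntP_kr (g := fun φ => (P N φ * Q φ) * Rp N d φ) hN (((H.an N).mul hQd).mul
          (Rp_diff N d)).continuous).const_mul _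
      have k2 := Pool.Agent.W346.HT.upp_sum (Ico (cut ε N) N) (1 / (N : ℝ)) (fun d φ =>
        M N d / (Sd N d : ℂ) ^ 4 * ((P N φ * Q φ) * Rp N d φ * kr N φ)) (fun d _ => k1 d)
      have k3 : ∀ d, upp (1 / N) (fun φ => M N d / (Sd N d : ℂ) ^ 4 *
          ((P N φ * Q φ) * Rp N d φ * kr N φ)) = M N d / (Sd N d : ℂ) ^ 4 *
            upp (1 / N) fun φ => (P N φ * Q φ) * Rp N d φ * kr N φ := fun d =>
        upp_const_mul _ _ _
      simp only [k3] at k2
      rw [← k2]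
      have k4 : IntP (1 / N) (fun φ => ∑ d ∈ Ico (cut ε N) N, M N d / (Sd N d : ℂ) ^ 4 *
          ((P N φ * Q φ) * Rp N d φ * kr N φ)) := by
        have : (fun φ => ∑ d ∈ Ico (cut ε N) N, M N d / (Sd N d : ℂ) ^ 4 *
          ((P N φ * Q φ) * Rp N d φ * kr N φ)) = fun φ =>
            (∑ d ∈ Ico (cut ε N) N, M N d / (Sd N d : ℂ) ^ 4 *
              ((P N φ * Q φ) * Rp N d φ)) * kr N φ := by
          funext φ
          rw [Finset.sum_mul]
          refine Finset.sum_congr rfl fun d _ => ?_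
          ring
        rw [this]
        refine IntP_kr (g := fun φ => ∑ d ∈ Ico (cut ε N) N, M N d / (Sd N d : ℂ) ^ 4 *
              ((P N φ * Q φ) * Rp N d φ)) hN ?_
        refine continuous_finsetSum _ fun d _ => ?_
        exact continuous_const.mul (((H.an N).mul hQd).mul (Rp_diff N d)).continuous
      have k5 : IntP (1 / N) (fun φ => (P N φ - PL N φ) * (YL N φ * Q φ) * kr N φ) :=
        IntP_kr (g := fun φ => (P N φ - PL N φ) * (YL N φ * Q φ)) hN
          (((H.an N).sub (H.anL N)).mul ((C.anL N).mul hQd)).continuous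
      rw [← upp_add k5 k4]
      congr 1
      funext φ
      have k6 : ∑ d ∈ Ico (cut ε N) N, M N d / (Sd N d : ℂ) ^ 4 *
          ((P N φ * Q φ) * Rp N d φ * kr N φ) = (P N φ * Q φ * kr N φ) *
            ∑ d ∈ Ico (cut ε N) N, Rp N d φ / (Sd N d : ℂ) ^ 4 * M N d := by
        rw [Finset.mul_sum]
        refine Finset.sum_congr rfl fun d _ => ?_
        ring
      rw [k6, hM1 N φ]
      ring
    rw [e1]
    -- the first part
    have b1 : ‖upp (1 / N) fun φ => (P N φ - PL N φ) * (YL N φ * Q φ) * kr N φ‖ ≤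
        B * Real.exp (N * (G + 3 / 4 * ε')) := by
      have k1 := r1 (fun φ => YL N φ * Q φ) (Real.exp (N * (f₀.re + 2 * bet - δ)) * B)
        ((C.anL N).mul hQd) (fun z => by rw [C.evL, hQe]) (fun z => by rw [C.perL, hQp])
        (by positivity) (by
          intro x y hx1 hx2 hy1 hy2
          rw [norm_mul]
          exact mul_le_mul (o2 x y hx1 hx2 (by rw [abs_of_nonneg hy1]; exact hy2)).2
            (hQb x y hx1 hx2 hy1 hy2) (norm_nonneg _) (Real.exp_pos _).le)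
      refine k1.trans ?_
      have k2 : Real.exp (N * (f₀.re + 2 * bet - δ)) * B *
          Real.exp (N * (f.re + ((j : ℝ) - 1) * (2 * bet - δ) + ε' / 2)) =
          B * Real.exp (N * (G + ε' / 2)) := by
        have : Real.exp (N * (G + ε' / 2)) = Real.exp (N * (f₀.re + 2 * bet - δ)) *
            Real.exp (N * (f.re + ((j : ℝ) - 1) * (2 * bet - δ) + ε' / 2)) := by
          rw [← Real.exp_add, hG, Complex.add_re]
          congr 1
          ring
        rw [this]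
        ring
      rw [k2]
      apply mul_le_mul_of_nonneg_left _ hB
      apply Real.exp_le_exp.2
      apply mul_le_mul_of_nonneg_left _ hN'.le
      linarith
    -- the second part
    have b2 : ‖∑ d ∈ Ico (cut ε N) N, M N d / (Sd N d : ℂ) ^ 4 *
        upp (1 / N) fun φ => (P N φ * Q φ) * Rp N d φ * kr N φ‖ ≤
        B * Real.exp (N * (G + 3 / 4 * ε')) := by
      have k1 : ∀ d ∈ Ico (cut ε N) N, ‖M N d / (Sd N d : ℂ) ^ 4 *
          upp (1 / N) fun φ => (P N φ * Q φ) * Rp N d φ * kr N φ‖ ≤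
          B * Real.exp (N * (G + ε' / 2)) := by
        intro d hd
        obtain ⟨hd1, hd2⟩ := Finset.mem_Ico.1 hd
        have hS := Pool.Agent.W469.HT.Mwk.Sd_pos hd2
        have k2 := m1 d hd1 hd2
        have k3 := r2 d hd1 hd2 (fun φ => P N φ * Q φ)
          (Real.exp (N * (f.re + j * (2 * bet - δ))) * B) ((H.an N).mul hQd)
          (fun z => by rw [H.ev, hQe]) (fun z => by rw [H.per, hQp]) (by
            intro x y hx1 hx2 hy1 hy2
            rw [norm_mul]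
            exact mul_le_mul (o1 x y hx1 hx2 (by rw [abs_of_nonneg hy1]; exact hy2)).1
              (hQb x y hx1 hx2 hy1 hy2) (norm_nonneg _) (Real.exp_pos _).le)
        rw [norm_mul, norm_div, norm_pow, Complex.norm_real, Real.norm_eq_abs, abs_of_pos hS]
        have k4 : ‖M N d‖ / Sd N d ^ 4 ≤ Sd N d ^ 2 * Real.exp (N * (f₀.re + ε' / 4)) / Sd N d ^ 4 :=
          div_le_div_of_nonneg_right k2 (by positivity)
        refine (mul_le_mul k4 k3 (norm_nonneg _) (by positivity)).trans ?_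
        apply le_of_eq
        have k5 : Real.exp (N * (G + ε' / 2)) = Real.exp (N * (f₀.re + ε' / 4)) *
            (Real.exp (N * (f.re + j * (2 * bet - δ))) * Real.exp (ε' / 4 * N)) := by
          rw [← Real.exp_add, ← Real.exp_add, hG, Complex.add_re]
          congr 1
          ring
        rw [k5]
        field_simp
      refine (norm_sum_le _ _).trans ((Finset.sum_le_sum k1).trans ?_)
      rw [Finset.sum_const, Nat.card_Ico, nsmul_eq_mul]
      have k2 : ((N - cut ε N : ℕ) : ℝ) ≤ N := by exact_mod_cast Nat.sub_le _ _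
      have k3 : ((N - cut ε N : ℕ) : ℝ) ≤ Real.exp (ε' / 4 * N) := by linarith
      refine (mul_le_mul_of_nonneg_right k3 (by positivity)).trans ?_
      apply le_of_eq
      have k4 : Real.exp (N * (G + 3 / 4 * ε')) = Real.exp (ε' / 4 * N) *
          Real.exp (N * (G + ε' / 2)) := by
        rw [← Real.exp_add]
        congr 1
        ring
      rw [k4]
      ring
    refine (norm_add_le _ _).trans ((add_le_add b1 b2).trans ?_)
    have k1 : Real.exp (N * (G + ε')) = Real.exp (ε' / 4 * N) *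
        Real.exp (N * (G + 3 / 4 * ε')) := by
      rw [← Real.exp_add]
      congr 1
      ring
    rw [k1]
    have k2 : (2 : ℝ) ≤ Real.exp (ε' / 4 * N) := by
      have : (1 : ℝ) ≤ N := by exact_mod_cast hN
      linarith
    have k3 : 0 ≤ B * Real.exp (N * (G + 3 / 4 * ε')) := by positivity
    nlinarith

end Pool.Agent.TH563.Z
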