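import Pool.Agent.TH563.Z.Hub
import Pool.Agent.TH563.Z.OutCrit

/-!
# Hubs of weight zero: one child of the root
-/

set_option autoImplicit false
set_option maxHeartbeats 1000000

namespace Pool.Agent.TH563.Z

open Finset Filter Topology Metric
open Pool.Agent.W711.HT hiding XX
open Pool.Agent.TH563.UV
open Pool.Agent.W293.HT
open Pool.Agent.TH219.J139 (Ub Ub_diff Ub_even)
open Pool.Agent.TH929.J29 (UN_diff)
open scoped Real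

/-- a child of the hub -/
theorem kid {ρ₀ τ₀ κ₀ c₀ ε₀ : ℝ} {s dl : ℂ → ℂ → ℂ} (hK : KD ρ₀ τ₀ κ₀ c₀ s dl)
    (hε₁ : ε₀ ≤ 1) (hε₂ : ε₀ ≤ c₀ * τ₀ ^ 2 / 16)
    (hreal : ∀ (t : ℕ) (F : ℂ → ℂ), 1 ≤ t → DifferentiableOn ℂ F (Rc (3 * ρ₀) (3 * τ₀)) →
      (∀ ψ ∈ Rc (3 * ρ₀) (3 * τ₀), F (-ψ) = F ψ) →
      (∀ ψ ∈ Rc (3 * ρ₀) (3 * τ₀), ‖F ψ - F 0 - t * (s 0 ψ - s 0 0)‖ ≤ t * ε₀) →
      ∀ x : ℝ, |x| ≤ ρ₀ → (F x).re ≤ (F 0).re - c₀ / 4 * x ^ 2)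
    (hH : S_HALF) {ρs : ℝ} (hρs : 0 < ρs)
    (hbnd : ∀ ε : ℝ, 0 < ε → ∃ τ : ℝ, 0 < τ ∧ ∀ᶠ N : ℕ in atTop, ∀ d < N, ∀ x y : ℝ, |x| ≤ π →
      |y| ≤ τ → ‖Rp N d (x + y * Complex.I)‖ ≤
        Sd N d ^ 2 * Real.exp (N * (bet - c1 * min |x| ρs ^ 2 + ε)))
    {η ε ρ τ ρ' τ' κ c' : ℝ} {s' dl' : ℂ → ℂ → ℂ}
    (hZ : KDZ η ε ρ τ ρ' τ' κ c' s' dl') (hρρ : 3 * ρ ≤ ρ₀) (hττ : 3 * τ ≤ τ₀)
    {r₀ ε₁ x₀ δ : ℝ} (hr₀ : 0 < r₀) (hr₀' : r₀ ≤ 1 / 10) (hε10 : 0 < ε₁) (hε1κ : ε₁ ≤ κ / 16)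
    (hx₀ : 0 < x₀) (hδ : δ < c1 * min x₀ ρs ^ 2) :
    ∃ K : ℝ, 0 < K ∧ ∀ (t : ℕ) (X : ℕ → ℂ → ℂ) (F : ℂ → ℂ), GoodU ρ₀ τ₀ κ₀ ε₀ s t X F →
      ∀ (b : Bool) (a : ℤ), (b = false → K ^ 2 ≤ ((t + 1 : ℕ) : ℝ) ^ 2 + (a : ℝ) ^ 2) →
      ∃ (YL : ℕ → ℂ → ℂ) (f₀ : ℂ) (F' zs : ℂ → ℂ),
        ChZ η ε ρ' τ' κ x₀ δ ε₁ s' (stpb b a X) YL f₀ F' ∧
        ∀ φ ∈ Rz η (3 * ρ') (3 * τ'), zs φ ∈ Rc (3 * ρ₀) (3 * τ₀) ∧ ‖zs φ‖ ≤ r₀ ∧
          (b = true → zs φ = 0) ∧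
          (b = false → CPu ρ₀ τ₀ (1 / 10) (zs φ) ∧ Complex.I * a * zs φ / (2 * π) + Complex.I +
            deriv F (zs φ) + deriv (fun w => s' w φ) (zs φ) = 0) ∧
          F' φ = vt b a (zs φ) + F (zs φ) + s' (zs φ) φ ∧
          HasDerivAt F' (deriv (fun w => s' (zs φ) w) φ) φ := by
  obtain ⟨C'', hE⟩ := ez_of hZ
  obtain ⟨K, hK0, hcp⟩ := cpz Pool.Agent.W19.HTFix.task hK hε₁ hε₂ hE hρρ hττ hr₀ hε10
  have hρ00 := hK.hρ.1
  have hτ00 := hK.hτ.1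
  have hρ0 := hE.hρ.1
  have hτ0 := hE.hτ.1
  have hρ'0 := hE.hρ'.1
  have hτ'0 := hE.hτ'.1
  refine ⟨K, hK0, ?_⟩
  intro t X F hX b a hbig
  have hre : ∀ x : ℝ, |x| ≤ ρ₀ → (F x).re ≤ (F 0).re := by
    intro x hx
    rcases Nat.eq_zero_or_pos t with ht | ht
    · have hm : (x : ℂ) ∈ Rc (3 * ρ₀) (3 * τ₀) := by
        refine ⟨?_, ?_⟩
        · rw [Complex.ofReal_re]; linarith
        · rw [Complex.ofReal_im, abs_zero]; linarith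
      have h1 := hX.Fcl x hm
      rw [ht] at h1
      simp only [Nat.cast_zero, zero_mul, sub_zero] at h1
      have h2 : F x - F 0 = 0 := norm_le_zero_iff.1 h1
      rw [sub_eq_zero.1 h2]
    · have h1 := hreal t F ht hX.Fan hX.Fev hX.Fcl x hx
      have h2 : 0 ≤ c₀ / 4 * x ^ 2 := by have := hK.hc; positivity
      linarith
  have hB : XB X (F 0).re := xb_of hK hX hre
  have hY : stpb b a X = stp a (fun N ψ => Ub b N ψ * X N ψ) := by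
    funext N ψ
    exact Pool.Agent.TH219.J139.stpb_eq b a X N ψ
  obtain ⟨X', hX'⟩ : ∃ X' : ℕ → ℂ → ℂ, X' = fun N ψ => Ub b N ψ * X N ψ := ⟨_, rfl⟩
  have hB' : XB X' (F 0).re := by rw [hX']; exact xb_ub b hB
  have hXd : ∀ N, Differentiable ℂ (X' N) := by
    intro N
    rw [hX']
    exact (Ub_diff b N).mul (hX.an N)
  obtain ⟨st1, st2⟩ := Pool.Agent.W398.HT.t_STPE a X' hXd
  have hfar := child_far (a := a) hXd hB' hZ
  have hout := child_out (a := a) hXd hB' hρs hbnd hZ.hε.2 hx₀ hδ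
  have hdec := child_dec (a := a) hXd hB' hH hZ.hε.1
  rw [hY, ← hX']
  have hsplit : ∀ N φ, stp a X' N φ = stL ε a X' N φ +
      ∑ d ∈ Ico (cut ε N) N, Rp N d φ / (Sd N d : ℂ) ^ 4 * Md a X' N d :=
    fun N φ => stp_split hZ.hε.2 a X' hXd N φ
  -- the constant
  cases b with
  | false =>
    have hXX : X' = X := by
      rw [hX']
      funext N ψ
      show (1 : ℂ) * X N ψ = X N ψ
      rw [one_mul]
    obtain ⟨F', zs, hF1, hz1, hF2, hF3⟩ := hcp t F hX.Fan hX.Fev hX.Fcl a (hbig rfl)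
    refine ⟨stL ε a X', F 0, F', zs, ?_, ?_⟩
    · refine ⟨st1, stL_diff ε a X', st2, stL_even ε a X', stp_per a X' hXd, stL_per ε a X', hF1,
        hF2, ?_, hfar, hout, ⟨Md a X', hsplit, hdec⟩⟩
      rw [hXX]
      exact mwF hK hX hB hZ hE hρρ hττ hF1 (fun φ hφ => (hF2 φ hφ).trans hε1κ)
        (fun φ hφ => ⟨(hF3 φ hφ).1, (hF3 φ hφ).2.1, (hF3 φ hφ).2.2.2.1⟩)
    · intro φ hφ
      obtain ⟨p1, p2, p3, p4, p5⟩ := hF3 φ hφ
      have hm : zs φ ∈ Rc ρ₀ τ₀ := Rc_mono (by linarith) (by linarith) p1.mem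
      refine ⟨Rc_mono (by linarith) (by linarith) hm, p1.sm, fun h => absurd h (by simp),
        fun _ => ⟨⟨hm, p1.im, p1.sm.trans hr₀'⟩, p3⟩, ?_, p5⟩
      rw [p4]
      simp [vt, qq]
  | true =>
    have hXX : X' = fun N ψ => UN N ψ * X N ψ := by
      rw [hX']
      rfl
    have h00 : (0 : ℂ) ∈ Rc (3 * ρ) (3 * τ) := zero_mem_Rc (by linarith) (by linarith)
    have hf0 : (F 0 + π * Complex.I).re = (F 0).re := by
      rw [Complex.add_re]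
      simp
    refine ⟨stL ε a X', F 0 + π * Complex.I, fun φ => F 0 + π * Complex.I + s' 0 φ, fun _ => 0,
      ?_, ?_⟩
    · refine ⟨st1, stL_diff ε a X', st2, stL_even ε a X', stp_per a X' hXd, stL_per ε a X', ?_,
        ?_, ?_, ?_, ?_, ⟨Md a X', hsplit, ?_⟩⟩
      · exact (differentiableOn_const _).add (s_diff2Z hE.san h00)
      · intro φ _
        have e : F 0 + π * Complex.I + s' 0 φ - (F 0 + π * Complex.I) - s' 0 φ = 0 := by ring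
        rw [e, norm_zero]
        exact hε10.le
      · rw [hXX]
        exact mwT hK hε₁ hε₂ hX hB hZ hE hρρ hττ
      · rw [hf0]
        exact hfar
      · rw [hf0]
        exact hout
      · rw [hf0]
        exact hdec
    · intro φ hφ
      refine ⟨zero_mem_Rc (by linarith) (by linarith), by rw [norm_zero]; exact hr₀.le,
        fun _ => rfl, fun h => absurd h (by simp), ?_, ?_⟩
      · show F 0 + π * Complex.I + s' 0 φ = vt true a 0 + F 0 + s' 0 φ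
        simp only [vt, if_true]
        ring
      · have h1 : HasDerivAt (fun w => s' 0 w) (deriv (fun w => s' 0 w) φ) φ :=
          ((s_diff2Z hE.san h00).differentiableAt ((isOpen_Rz _ _ _).mem_nhds hφ)).hasDerivAt
        exact h1.const_add _

end Pool.Agent.TH563.Z
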