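import Pool.Agent.TH563.Z.Kid
import Pool.Agent.TH563.UV.FinU

/-!
# Hubs of weight zero: the growth rate
-/

set_option autoImplicit false
set_option maxHeartbeats 1000000

namespace Pool.Agent.TH563.Z

open Finset Filter Topology Metric
open Pool.Agent.W711.HT hiding XX
open Pool.Agent.TH563.UV
open Pool.Agent.W293.HT
open Pool.Agent.W719.AX (UX GX KXD S_KXC S_PRDX)
open scoped Real

lemma below_mono {K K' : ℝ} (h0 : 0 ≤ K) (h : K ≤ K') (t : Tb) : t.Below K' → t.Below K := by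
  induction t with
  | vx b a => intro _; trivial
  | br t c iht ihc =>
    rintro ⟨h1, h2, h3⟩
    refine ⟨iht h1, ihc h2, fun hb => ?_⟩
    exact (pow_le_pow_left₀ h0 h 2).trans (h3 hb)

lemma kd_kappa {ρ τ κ κ' c : ℝ} {s dl : ℂ → ℂ → ℂ} (hK : KD ρ τ κ c s dl) (h0 : 0 < κ')
    (h : κ' ≤ κ) : KD ρ τ κ' c s dl := by
  refine { hK with hκ := ⟨h0, h.trans hK.hκ.2⟩, far := ?_, farg := ?_, farb := ?_ }
  · filter_upwards [hK.far] with N h1 x y hx hx' hy ψ' hψ'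
    refine (h1 x y hx hx' hy ψ' hψ').trans (Real.exp_le_exp.2 ?_)
    apply mul_le_mul_of_nonneg_left _ (Nat.cast_nonneg N)
    linarith
  · filter_upwards [hK.farg] with N h1 x y x' y' a1 a2 a3 a4 a5
    refine (h1 x y x' y' a1 a2 a3 a4 a5).trans (Real.exp_le_exp.2 ?_)
    apply mul_le_mul_of_nonneg_left _ (Nat.cast_nonneg N)
    linarith
  · filter_upwards [hK.farb] with N h1 x y x' y' a1 a2 a3 a4 a5 a6
    refine (h1 x y x' y' a1 a2 a3 a4 a5 a6).trans (Real.exp_le_exp.2 ?_)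
    apply mul_le_mul_of_nonneg_left _ (Nat.cast_nonneg N)
    linarith

/-- induction over the children of the root -/
theorem hub_ind (hR : S_REM) {ρ₀ τ₀ κ₀ ε₀ K₁ K₂ K : ℝ} {s s' : ℂ → ℂ → ℂ}
    {η ε ρ' τ' κ x₀ δ ε₁ r₀ : ℝ} (hε : 0 < ε ∧ ε < 1 / 4) (hx₀ : 0 < x₀) (hx : x₀ < 2 * π * ε)
    (htree : ∀ c : Tb, c.Below K₁ → ∃ F : ℂ → ℂ, GoodU ρ₀ τ₀ κ₀ ε₀ s c.nc (XX c) F ∧
      ∀ ψ ∈ Rc (3 * ρ₀) (3 * τ₀), ∃ p : PB, p.shape = c ∧ p.rz = ψ ∧ p.Crt s ρ₀ τ₀ ∧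
        F ψ = p.vl s ∧ HasDerivAt F (p.gs s) ψ)
    (hkid : ∀ (t : ℕ) (X : ℕ → ℂ → ℂ) (F : ℂ → ℂ), GoodU ρ₀ τ₀ κ₀ ε₀ s t X F →
      ∀ (b : Bool) (a : ℤ), (b = false → K₂ ^ 2 ≤ ((t + 1 : ℕ) : ℝ) ^ 2 + (a : ℝ) ^ 2) →
      ∃ (YL : ℕ → ℂ → ℂ) (f₀ : ℂ) (F' zs : ℂ → ℂ),
        ChZ η ε ρ' τ' κ x₀ δ ε₁ s' (stpb b a X) YL f₀ F' ∧
        ∀ φ ∈ Rz η (3 * ρ') (3 * τ'), zs φ ∈ Rc (3 * ρ₀) (3 * τ₀) ∧ ‖zs φ‖ ≤ r₀ ∧
          (b = true → zs φ = 0) ∧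
          (b = false → CPu ρ₀ τ₀ (1 / 10) (zs φ) ∧ Complex.I * a * zs φ / (2 * π) + Complex.I +
            deriv F (zs φ) + deriv (fun w => s' w φ) (zs φ) = 0) ∧
          F' φ = vt b a (zs φ) + F (zs φ) + s' (zs φ) φ ∧
          HasDerivAt F' (deriv (fun w => s' (zs φ) w) φ) φ)
    (hK₁ : 0 ≤ K₁) (hK₂ : 0 ≤ K₂) (h1 : K₁ ≤ K) (h2 : K₂ ≤ K) (t : Tb) :
    t.Below K → ∃ (PL : ℕ → ℂ → ℂ) (f : ℂ) (Φ : ℂ → ℂ),
      HubZ η ε ρ' τ' κ x₀ δ ε₁ s' t.nc (XX t) PL f Φ ∧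
      ∀ φ ∈ Rz η (3 * ρ') (3 * τ'), ∃ p : PB, p.shape = t ∧ p.rz = φ ∧ HCrt s s' ρ₀ τ₀ p ∧
        nearc r₀ p ∧ Φ φ = hvl s s' p ∧ HasDerivAt Φ (hgs s' p) φ := by
  induction t with
  | vx b a =>
    intro _
    refine ⟨fun _ _ => 1, 0, fun _ => 0, hub_zero η ε ρ' τ' κ x₀ δ ε₁ s', ?_⟩
    intro φ _
    exact ⟨.vx b a φ, rfl, rfl, trivial, trivial, rfl, hasDerivAt_const φ (0 : ℂ)⟩
  | br t c iht _ =>
    rintro ⟨hBt, hBc, hbig⟩
    obtain ⟨PL, f, Φ, hH, hcr⟩ := iht hBt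
    obtain ⟨F, hF, hcrc⟩ := htree c (below_mono hK₁ h1 c hBc)
    obtain ⟨YL, f₀, F', zs, hC, hz⟩ := hkid c.nc (XX c) F hF c.bl c.wt
      (fun hb => (pow_le_pow_left₀ hK₂ h2 2).trans (hbig hb))
    refine ⟨_, _, _, hub_succ hR hε hx₀ hx hH hC, ?_⟩
    intro φ hφ
    obtain ⟨p, hp1, hp2, hp3, hp4, hp5, hp6⟩ := hcr φ hφ
    obtain ⟨z1, z2, z3, z4, z5, z6⟩ := hz φ hφ
    obtain ⟨q, hq1, hq2, hq3, hq4, hq5⟩ := hcrc (zs φ) z1
    have hw : q.wt = c.wt := by rw [← pb_wt q, hq1]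
    have hbq : q.bl = c.bl := by rw [← pb_bl q, hq1]
    refine ⟨.br p q, ?_, hp2, ⟨hp3, hq3, ?_, ?_⟩, ⟨hp4, ?_⟩, ?_, ?_⟩
    · simp [PB.shape, hp1, hq1]
    · intro hb
      rw [hq2]
      exact z3 (hbq ▸ hb)
    · intro hb
      obtain ⟨a1, a2⟩ := z4 (hbq ▸ hb)
      refine ⟨by rw [hq2]; exact a1, ?_⟩
      rw [hw, hq2, hp2, ← add_assoc, ← hq5.deriv]
      exact a2
    · rw [hq2]
      exact z2
    · show Φ φ + F' φ = hvl s s' p + (vt q.bl q.wt q.rz + q.vl s + s' q.rz p.rz)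
      rw [hq2, hp2, hw, hbq, hp5, z5, hq4]
    · show HasDerivAt (fun φ => Φ φ + F' φ) (hgs s' p + deriv (fun w => s' q.rz w) p.rz) φ
      rw [hq2, hp2]
      exact hp6.add z6

lemma near_mono {g g' : ℝ} (h : g ≤ g') (p : PB) : nearc g p → nearc g' p := by
  induction p with
  | vx b a z => intro _; trivial
  | br t c iht _ => exact fun h1 => ⟨iht h1.1, h1.2.trans h⟩

/-- the analytic main theorem -/
theorem mainz (hSD : S_SDZ) (hKER : S_KERZ) (hR : S_REM) (hH : S_HALF) (hI : S_INEQ) :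
    S_MAINZ := by
  have hπ := Real.pi_pos
  obtain ⟨ρ₀, τ₀, κ₁, c₀, s, dl, hK1⟩ := Pool.Agent.W719.AR.f_KER
  obtain ⟨κ₀, hκ₀⟩ : ∃ κ₀ : ℝ, κ₀ = min κ₁ (min (c₀ * τ₀ ^ 2) 1) := ⟨_, rfl⟩
  have hρ₀ := hK1.hρ.1
  have hτ₀ := hK1.hτ.1
  have hc₀ := hK1.hc
  have hκ₀0 : 0 < κ₀ := by
    rw [hκ₀]
    exact lt_min hK1.hκ.1 (lt_min (by positivity) one_pos)
  have hκa : κ₀ ≤ κ₁ := by rw [hκ₀]; exact min_le_left _ _
  have hκb : κ₀ ≤ c₀ * τ₀ ^ 2 := by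
    rw [hκ₀]; exact (min_le_right _ _).trans (min_le_left _ _)
  have hκc : κ₀ ≤ 1 := by rw [hκ₀]; exact (min_le_right _ _).trans (min_le_right _ _)
  have hK := kd_kappa hK1 hκ₀0 hκa
  -- the large vertices
  obtain ⟨ρ₂, τ₂, hρ₂, hτ₂, Ak, hAk⟩ :=
    Pool.Agent.W719.AX.f_KXC Pool.Agent.W719.AX.f_WIN ρ₀ τ₀ κ₀ c₀ s dl hK
  obtain ⟨ε₀, K₁, hε₀, hε₀1, hK₁0, hreal, h1, -⟩ :=
    f_STEPU ρ₀ τ₀ κ₀ c₀ s dl hK ρ₂ τ₂ Ak hρ₂ hτ₂ hAk
  obtain ⟨b1, -⟩ := Pool.Agent.TH929.stepb ρ₀ τ₀ κ₀ c₀ s dl hK ρ₂ τ₂ Ak hρ₂ hτ₂ hAk ε₀ hε₀ hε₀1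
    hreal
  obtain ⟨p0, p1⟩ := f_PRU ρ₀ τ₀ κ₀ c₀ s dl hK ε₀ hε₀
  obtain ⟨p0x, p1x⟩ := (Pool.Agent.W52.AX.prdx Pool.Agent.W303.AX.uxmul) ρ₂ τ₂
  have htree : ∀ c : Tb, c.Below K₁ → ∃ F : ℂ → ℂ, GoodU ρ₀ τ₀ κ₀ ε₀ s c.nc (XX c) F ∧
      ∀ ψ ∈ Rc (3 * ρ₀) (3 * τ₀), ∃ p : PB, p.shape = c ∧ p.rz = ψ ∧ p.Crt s ρ₀ τ₀ ∧
        F ψ = p.vl s ∧ HasDerivAt F (p.gs s) ψ := by
    intro c hc
    obtain ⟨F, A, hG, -, hcr⟩ := mainu_ind hK p0 p1 p0x p1x h1 b1 c hc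
    exact ⟨F, hG, hcr⟩
  refine ⟨ρ₀, τ₀, κ₀, c₀, s, dl, hK, ?_⟩
  intro k hk
  obtain ⟨hadm, hgd, hineq⟩ := hI k hk
  obtain ⟨r, c', C, s', dl', hS⟩ := hSD (et k) hadm
  refine ⟨r, c', C, s', dl', hS, ?_⟩
  intro g hg
  obtain ⟨ε, hker⟩ := hKER (et k) hadm r c' C s' dl' hS
  obtain ⟨ρ, τ, ρ', τ', κ, hZ, hg1, -⟩ := hker (min ρ₀ τ₀) (lt_min hρ₀ hτ₀)
  obtain ⟨r', C', hS', hr1, hr2⟩ := hZ.sdz
  obtain ⟨ρs, hρs, -, hbnd⟩ := Pool.Agent.W711.HT.f_BND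
  have hκ := hZ.hκ.1
  have hc' := hZ.hc
  have hC' := hS'.hC
  have hε := hZ.hε
  have hρ := hZ.hρ.1
  have hτ := hZ.hτ.1
  have hτρ := hZ.hτ.2
  have hρ' := hZ.hρ'.1
  have hρ'1 := hZ.hρ'.2
  obtain ⟨hτ', hτρ', hτη⟩ := hZ.hτ'
  have hη := hadm.1
  have hk3 : (3 : ℝ) ≤ k := by exact_mod_cast hk
  have hk0 : (0 : ℝ) < k := by linarith
  -- the sizes
  obtain ⟨x₀, hx₀⟩ : ∃ x₀ : ℝ, x₀ = π * ε := ⟨_, rfl⟩
  have hx₀0 : 0 < x₀ := by rw [hx₀]; exact mul_pos hπ hε.1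
  have hx₀1 : x₀ < 2 * π * ε := by
    rw [hx₀]
    have := mul_pos hπ hε.1
    linarith
  have hc1 : 0 < c1 := by unfold c1; positivity
  obtain ⟨δ, hδ⟩ : ∃ δ : ℝ, δ = c1 * min x₀ ρs ^ 2 / 2 := ⟨_, rfl⟩
  have hm0 : 0 < c1 * min x₀ ρs ^ 2 := by
    have := lt_min hx₀0 hρs
    positivity
  have hδ0 : 0 < δ := by rw [hδ]; linarith
  have hδ1 : δ < c1 * min x₀ ρs ^ 2 := by rw [hδ]; linarith
  obtain ⟨m, hm⟩ : ∃ m : ℝ, m = min (δ / 4) (κ / 8) := ⟨_, rfl⟩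
  have hm0 : 0 < m := by rw [hm]; exact lt_min (by positivity) (by positivity)
  have hm1 : m ≤ δ / 4 := by rw [hm]; exact min_le_left _ _
  have hm2 : m ≤ κ / 8 := by rw [hm]; exact min_le_right _ _
  obtain ⟨r₁, hr₁⟩ : ∃ r₁ : ℝ, r₁ = min (τ' / 2) (min g (m / (k * C' + 1))) := ⟨_, rfl⟩
  have hr₁0 : 0 < r₁ := by
    rw [hr₁]
    exact lt_min (by positivity) (lt_min hg (by positivity))
  have hr₁a : r₁ < τ' := by
    have : r₁ ≤ τ' / 2 := by rw [hr₁]; exact min_le_left _ _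
    linarith
  have hr₁b : r₁ ≤ g := by rw [hr₁]; exact (min_le_right _ _).trans (min_le_left _ _)
  have hr₁c : k * C' * r₁ + r₁ ≤ m := by
    have h1 : r₁ ≤ m / (k * C' + 1) := by
      rw [hr₁]; exact (min_le_right _ _).trans (min_le_right _ _)
    rw [le_div_iff₀ (by positivity)] at h1
    linarith
  obtain ⟨ε₁, hε₁⟩ : ∃ ε₁ : ℝ, ε₁ = min (κ / 16) (min (c' * τ' ^ 2 / 16)
    (min (c' * r₁ * τ' / 16) (m / k))) := ⟨_, rfl⟩
  have hε₁0 : 0 < ε₁ := by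
    rw [hε₁]
    exact lt_min (by positivity) (lt_min (by positivity) (lt_min (by positivity) (by positivity)))
  have hε₁a : ε₁ ≤ κ / 16 := by rw [hε₁]; exact min_le_left _ _
  have hε₁b : ε₁ ≤ c' * τ' ^ 2 / 16 := by
    rw [hε₁]; exact (min_le_right _ _).trans (min_le_left _ _)
  have hε₁c : ε₁ ≤ c' * r₁ * τ' / 16 := by
    rw [hε₁]; exact (min_le_right _ _).trans ((min_le_right _ _).trans (min_le_left _ _))
  have hε₁d : k * ε₁ ≤ m := by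
    have h1 : ε₁ ≤ m / k := by
      rw [hε₁]; exact (min_le_right _ _).trans ((min_le_right _ _).trans (min_le_right _ _))
    rw [le_div_iff₀ hk0] at h1
    linarith
  obtain ⟨r₀, hr₀⟩ : ∃ r₀ : ℝ, r₀ = min (1 / 10) g := ⟨_, rfl⟩
  have hr₀0 : 0 < r₀ := by rw [hr₀]; exact lt_min (by norm_num) hg
  have hr₀a : r₀ ≤ 1 / 10 := by rw [hr₀]; exact min_le_left _ _
  have hr₀b : r₀ ≤ g := by rw [hr₀]; exact min_le_right _ _
  -- the children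
  obtain ⟨K₂, hK₂0, hkid⟩ := kid hK (by linarith) (by linarith) hreal hH hρs hbnd hZ
    (hg1.trans (min_le_left _ _)) (by
      have := hg1.trans (min_le_right _ _)
      linarith) hr₀0 hr₀a hε₁0 hε₁a hx₀0 hδ1
  refine ⟨max K₁ K₂, lt_max_of_lt_left hK₁0, ?_⟩
  intro t hB hbl hwt hnc
  obtain ⟨PL, f, Φ, hHub, hcr⟩ := hub_ind hR hε hx₀0 hx₀1 htree hkid hK₁0.le hK₂0.le
    (le_max_left _ _) (le_max_right _ _) t hB
  rw [hnc] at hHub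
  obtain ⟨z, hz1, hz2, hz3, hz4, hz5⟩ := crit_z hS' hτ' hτρ' hr2 (by omega : 1 ≤ k) hgd hr₁0
    hr₁a hε₁b hε₁c hHub.Fan hHub.Fcl
  have hzm : z ∈ Rz (et k) (3 * ρ') (3 * τ') := Rz_mono (by linarith) (by linarith) hz2
  obtain ⟨p, hp1, hp2, hp3, hp4, hp5, hp6⟩ := hcr z hzm
  -- the value at the critical point
  obtain ⟨V, hV⟩ : ∃ V : ℝ, V = (qz Φ z).re := ⟨_, rfl⟩
  have hVe : V + z.im = (Φ z).re := by
    rw [hV]
    unfold qz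
    rw [Complex.add_re]
    simp
  have h00 : (0 : ℂ) ∈ Rc r' r' := zero_mem_Rc hS'.hr.1 hS'.hr.1
  have hzr : z ∈ Rz (et k) r' r' := Rz_mono hr2 (by linarith) hzm
  have hlow : f.re + k * AA (et k) - m - m ≤ (Φ z).re := by
    have e1 := (Complex.abs_re_le_norm _).trans (hHub.Fcl z hzm)
    have e2 := (Complex.abs_re_le_norm _).trans (hS'.lip 0 h00 z hzr)
    rw [norm_zero, zero_add, Complex.sub_re, Complex.ofReal_re] at e2
    have e3 : (Φ z - f - k * s' 0 z).re = (Φ z).re - f.re - k * (s' 0 z).re := by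
      rw [Complex.sub_re, Complex.sub_re, ← Complex.ofReal_natCast, Complex.re_ofReal_mul]
    rw [e3] at e1
    have e4 : C' * ‖z - et k * Complex.I‖ ≤ C' * r₁ := mul_le_mul_of_nonneg_left hz1 hC'.le
    have e5 := (abs_le.1 e1).1
    have e6 := (abs_le.1 e2).1
    have e7 : k * (AA (et k) - C' * r₁) ≤ k * (s' 0 z).re :=
      mul_le_mul_of_nonneg_left (by linarith) hk0.le
    have e8 : k * C' * r₁ ≤ m := by linarith
    linarith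
  have hzim : z.im ≤ et k + r₁ := by
    have h1 := (Complex.abs_im_le_norm _).trans hz1
    have h2 : (z - et k * Complex.I).im = z.im - et k := by simp
    rw [h2] at h1
    linarith [(abs_le.1 h1).2]
  have hVlow : f.re + (k - 1) * (2 * bet) - m - m - r₁ ≤ V := by linarith
  refine ⟨p, hp1, hp3, by rw [hp2]; exact hz1.trans hr₁b, near_mono hr₀b p hp4, ?_, ?_⟩
  · have h1 : HasDerivAt (qz Φ) (Complex.I + hgs s' p) z := by
      unfold qz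
      have h2 : HasDerivAt (fun w : ℂ => Complex.I * w) Complex.I z := by
        simpa using (hasDerivAt_id z).const_mul Complex.I
      exact h2.add hp6
    rw [← h1.deriv]
    exact hz3
  · have hval : (Complex.I * p.rz + hvl s s' p) = qz Φ z := by
      rw [hp2, ← hp5]
      rfl
    rw [hval]
    have hlim := outer_lim (P := XX t) (PL := PL) (κ := min (κ / 4) (δ / 4)) hρ' hρ'1 hτ' hτη
      hHub.an hHub.anL hHub.perL hHub.Fan hHub.mw hz2 hz3 hz4 hz5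
      (lt_min (by positivity) (by positivity))
      (by
        filter_upwards [hHub.far] with N h1 x hx hx'
        refine (h1 x z.im hx hx' ?_).trans (Real.exp_le_exp.2 ?_)
        · linarith [hz2.2]
        · apply mul_le_mul_of_nonneg_left _ (Nat.cast_nonneg N)
          rw [← hV]
          have e1 := min_le_left (κ / 4) (δ / 4)
          have e2 : κ / 2 ≤ k * (κ / 2) := by nlinarith
          linarith)
      (by
        filter_upwards [hHub.rem (min (κ / 4) (δ / 4)) (lt_min (by positivity) (by positivity))]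
          with N h1
        have h2 := h1 (fun _ => 1) 1 (differentiable_const _) (fun _ => rfl) (fun _ => rfl)
          zero_le_one (fun x y _ _ _ _ => by simp)
        simp only [mul_one, one_mul] at h2
        refine h2.trans (Real.exp_le_exp.2 ?_)
        apply mul_le_mul_of_nonneg_left _ (Nat.cast_nonneg N)
        rw [← hV]
        have e1 := min_le_right (κ / 4) (δ / 4)
        have e2 : 2 * δ ≤ (k - 1) * δ := by nlinarith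
        have e3 : 0 ≤ k * C' * r₁ := by positivity
        linarith)
    have hJT : ∀ N, JT t N = upp (1 / N) fun φ => XX t N φ * kr N φ := by
      intro N
      unfold JT
      rw [hbl, hwt]
      congr 1
      funext φ
      have e1 : Eb false 0 N φ = 1 := by
        unfold Eb Ea
        simp
      rw [e1, one_mul]
    simp only [hJT]
    exact hlim.const_mul (2 * π)

end Pool.Agent.TH563.Z
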