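import Pool.Agent.TH563.Z.Gx2
import Pool.Agent.W352.AX.LocG

/-!
# Hubs of weight zero: asymptotic expansion of the outer integral
-/

set_option autoImplicit false
set_option maxHeartbeats 1000000

namespace Pool.Agent.TH563.Z

open Finset Filter Topology Metric
open Pool.Agent.W711.HT hiding XX
open Pool.Agent.TH563.UV
open Pool.Agent.W719.AX (UX cv)
open Pool.Agent.W85.HT hiding Rc_mono
open Pool.Agent.W293.HT
open Pool.Agent.W346.HT (IntP IntP_kr)
open Pool.Agent.W21.AX (ux_comp ux_cst ux_small exp_small)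
open Pool.Agent.W352.AX (pp_sub)
open scoped Real

lemma uu_neg (N : ℕ) (w : ℂ) : uu N w = (-1) ^ N * Complex.exp (Complex.I * N * w) := by
  unfold uu
  have e : Complex.I * N * (w + π) = Complex.I * N * w + N * (π * Complex.I) := by ring
  rw [e, Complex.exp_add, Complex.exp_nat_mul, Complex.exp_pi_mul_I]
  ring

/-- localisation at the critical point of the hub -/
theorem loc_z {η ρ τ : ℝ} (hρ : 0 < ρ) (hρ1 : ρ ≤ 1 / 4) (hτ : 0 < τ) (hητ : 3 * τ < η)
    {P PL : ℕ → ℂ → ℂ} (hP : ∀ N, Differentiable ℂ (P N)) (hPL : ∀ N, Differentiable ℂ (PL N))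
    (hper : ∀ N φ, PL N (φ + 2 * π) = PL N φ) {Φ : ℂ → ℂ}
    (hΦ : DifferentiableOn ℂ Φ (Rz η (3 * ρ) (3 * τ))) (hmw : MW PL Φ (Rz η (2 * ρ) (2 * τ)))
    {z : ℂ} (hz : z ∈ Rz η ρ τ)
    (hline : ∀ x : ℝ, |x| ≤ ρ → x ≠ z.re → (qz Φ (x + z.im * Complex.I)).re < (qz Φ z).re)
    {κ : ℝ} (hκ : 0 < κ)
    (hfar : ∀ᶠ N : ℕ in atTop, ∀ x : ℝ, ρ ≤ |x| → |x| ≤ π →
      ‖PL N (x + z.im * Complex.I)‖ ≤ Real.exp (N * ((qz Φ z).re + z.im - κ)))
    (hrem : ∀ᶠ N : ℕ in atTop, ‖upp (1 / N) fun φ => (P N φ - PL N φ) * kr N φ‖ ≤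
      Real.exp (N * ((qz Φ z).re - κ))) {δ : ℝ} (hδ : 0 < δ) (hδρ : |z.re| + δ ≤ ρ) :
    ∃ κ' : ℝ, 0 < κ' ∧ ∀ᶠ N : ℕ in atTop,
      ‖(upp (1 / N) fun φ => P N φ * kr N φ) - (-1) ^ N * ∫ x in (-δ)..δ,
        2 * Complex.sin (z + x) * Complex.exp (Complex.I * N * (z + x)) * PL N (z + x)‖ ≤
        Real.exp (N * ((qz Φ z).re - κ')) := by
  have hπ := Real.pi_gt_three
  have hsub : Rz η (2 * ρ) (2 * τ) ⊆ Rz η (3 * ρ) (3 * τ) := Rz_mono (by linarith) (by linarith)
  have hzr := hz.1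
  have hzi := abs_lt.1 hz.2
  have hz0 : 0 < z.im := by linarith [hzi.1]
  have hzre := abs_le.1 (le_of_eq_of_le rfl (show |z.re| ≤ ρ - δ by linarith))
  obtain ⟨V, hV⟩ : ∃ V : ℝ, V = (qz Φ z).re := ⟨_, rfl⟩
  rw [← hV] at hline hfar hrem ⊢
  have hin : ∀ x : ℝ, |x| ≤ ρ → (x : ℂ) + z.im * Complex.I ∈ Rz η (2 * ρ) (2 * τ) := by
    intro x hx
    refine ⟨?_, ?_⟩
    · rw [xy_re]; linarith
    · rw [xy_im]; linarith [hz.2]
  have hzz : (z.re : ℂ) + z.im * Complex.I = z := Complex.re_add_im z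
  have hqqd : DifferentiableOn ℂ (qz Φ) (Rz η (3 * ρ) (3 * τ)) := by
    unfold qz
    exact (differentiable_id.const_mul Complex.I).differentiableOn.add hΦ
  have hcl : Continuous fun x : ℝ => ((x : ℂ) + z.im * Complex.I) := by fun_prop
  -- compactness
  obtain ⟨κ₂, hκ₂, hout⟩ : ∃ κ₂ : ℝ, 0 < κ₂ ∧ ∀ x : ℝ, |x| ≤ ρ → δ ≤ |x - z.re| →
      (qz Φ (x + z.im * Complex.I)).re ≤ V - κ₂ := by
    obtain ⟨S, hS⟩ : ∃ S : Set ℝ, S = Set.Icc (-ρ) ρ ∩ {x : ℝ | δ ≤ |x - z.re|} := ⟨_, rfl⟩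
    have hSc : IsCompact S := by
      rw [hS]
      exact isCompact_Icc.inter_right (isClosed_le continuous_const (by fun_prop))
    rcases S.eq_empty_or_nonempty with he | hne
    · refine ⟨1, one_pos, fun x hx hx2 => ?_⟩
      have : x ∈ S := by
        rw [hS]
        exact ⟨abs_le.1 hx, hx2⟩
      rw [he] at this
      exact absurd this (Set.notMem_empty x)
    · have hfc : ContinuousOn (fun x : ℝ => (qz Φ (x + z.im * Complex.I)).re) S := by
        refine Complex.continuous_re.comp_continuousOn (ContinuousOn.comp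
          (hqqd.continuousOn) hcl.continuousOn ?_)
        intro x hx
        rw [hS] at hx
        exact hsub (hin x (abs_le.2 hx.1))
      obtain ⟨x₁, hx₁, hmax⟩ := hSc.exists_isMaxOn hne hfc
      have hx1 := hx₁
      rw [hS] at hx1
      have hne1 : x₁ ≠ z.re := by
        intro h
        have := hx1.2
        show False
        rw [Set.mem_ofPred_eq, h, sub_self, abs_zero] at this
        linarith
      have h1 := hline x₁ (abs_le.2 hx1.1) hne1
      refine ⟨V - (qz Φ (x₁ + z.im * Complex.I)).re, by linarith, fun x hx hx2 => ?_⟩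
      have h2 : x ∈ S := by
        rw [hS]
        exact ⟨abs_le.1 hx, hx2⟩
      have h3 : (qz Φ (x + z.im * Complex.I)).re ≤ (qz Φ (x₁ + z.im * Complex.I)).re := hmax h2
      linarith
  have hall : ∀ x : ℝ, |x| ≤ ρ → (qz Φ (x + z.im * Complex.I)).re ≤ V := by
    intro x hx
    by_cases h : x = z.re
    · rw [h, hzz, hV]
    · exact (hline x hx h).le
  have hqre : ∀ w : ℂ, (Φ w).re = (qz Φ w).re + w.im := by
    intro w
    unfold qz
    rw [Complex.add_re]
    simp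
  obtain ⟨κm, hκm⟩ : ∃ κm : ℝ, κm = min κ (min κ₂ z.im) := ⟨_, rfl⟩
  have hκm0 : 0 < κm := by rw [hκm]; exact lt_min hκ (lt_min hκ₂ hz0)
  have hκm1 : κm ≤ κ := by rw [hκm]; exact min_le_left _ _
  have hκm2 : κm ≤ κ₂ := by rw [hκm]; exact (min_le_right _ _).trans (min_le_left _ _)
  have hκm3 : κm ≤ z.im := by rw [hκm]; exact (min_le_right _ _).trans (min_le_right _ _)
  obtain ⟨H, hH⟩ : ∃ H : ℝ, H = Real.exp z.im := ⟨_, rfl⟩
  have hH0 : 0 < H := by rw [hH]; exact Real.exp_pos _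
  obtain ⟨CC, hCC⟩ : ∃ CC : ℝ, CC = 1 + 16 * H * π + 32 * H * ρ + 40 * H * δ := ⟨_, rfl⟩
  refine ⟨κm / 2, by positivity, ?_⟩
  have hev : ∀ᶠ N : ℕ in atTop, (1 : ℝ) / N ≤ z.im := by
    have : Tendsto (fun N : ℕ => (1 : ℝ) / (N : ℝ)) atTop (𝓝 0) :=
      tendsto_const_div_atTop_nhds_zero_nat _
    exact (this.eventually_lt_const hz0).mono (fun N hN => hN.le)
  filter_upwards [hmw (κm / 4) (by positivity), hfar, hrem, hev, eventually_gt_atTop 0,
    ev_exp (show 0 < κm / 4 by positivity) CC] with N h1 h2 h3 h4 h5 h6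
  have hN' : (0 : ℝ) < N := by exact_mod_cast h5
  obtain ⟨E, hE⟩ : ∃ E : ℝ, E = Real.exp (N * (V - 3 / 4 * κm)) := ⟨_, rfl⟩
  have hE0 : 0 < E := by rw [hE]; exact Real.exp_pos _
  have hEle : ∀ e : ℝ, e ≤ V - 3 / 4 * κm → Real.exp (N * e) ≤ E := by
    intro e he
    rw [hE]
    exact Real.exp_le_exp.2 (mul_le_mul_of_nonneg_left he hN'.le)
  -- splitting
  have e1 : (upp (1 / N) fun φ => P N φ * kr N φ) =
      (upp (1 / N) fun φ => (P N φ - PL N φ) * kr N φ) + upp (1 / N) fun φ => PL N φ * kr N φ := by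
    have k0 := upp_add (h := 1 / N) (f := fun φ => (P N φ - PL N φ) * kr N φ)
      (g := fun φ => PL N φ * kr N φ)
      (IntP_kr (g := fun φ => P N φ - PL N φ) h5 ((hP N).continuous.sub (hPL N).continuous))
      (IntP_kr h5 (hPL N).continuous)
    rw [← k0]
    congr 1
    funext φ
    ring
  rw [e1, shift h5 (hPL N) (hper N) h4]
  obtain ⟨f, hf⟩ : ∃ f : ℝ → ℂ, f = fun x : ℝ => PL N (x + z.im * Complex.I) *
    kr N (x + z.im * Complex.I) := ⟨_, rfl⟩
  have hfc : Continuous f := by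
    rw [hf]
    refine ((hPL N).continuous.comp hcl).mul ?_
    rw [continuous_iff_continuousAt]
    intro x
    have k1 : ContinuousAt (kr N) ((x : ℂ) + z.im * Complex.I) :=
      (kr_diff h5 (by rw [xy_im]; exact hz0)).continuousAt
    exact ContinuousAt.comp (f := fun x : ℝ => ((x : ℂ) + z.im * Complex.I)) (g := kr N) k1
      hcl.continuousAt
  have hint : ∀ a b : ℝ, IntervalIntegrable f MeasureTheory.volume a b := fun a b =>
    hfc.intervalIntegrable a b
  have e2 : (∫ x in (-π)..π, PL N (x + z.im * Complex.I) * kr N (x + z.im * Complex.I)) =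
      (∫ x in (-π)..(-ρ), f x) + (∫ x in (-ρ)..(z.re - δ), f x) +
        (∫ x in (z.re - δ)..(z.re + δ), f x) + (∫ x in (z.re + δ)..ρ, f x) + ∫ x in ρ..π, f x := by
    rw [intervalIntegral.integral_add_adjacent_intervals (hint _ _) (hint _ _),
      intervalIntegral.integral_add_adjacent_intervals (hint _ _) (hint _ _),
      intervalIntegral.integral_add_adjacent_intervals (hint _ _) (hint _ _),
      intervalIntegral.integral_add_adjacent_intervals (hint _ _) (hint _ _), hf]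
  -- bounds
  have hkr : ∀ x : ℝ, ‖kr N (x + z.im * Complex.I)‖ ≤ 8 * H * Real.exp (-(N * z.im)) := by
    intro x
    have k2 := kr_bd h5 (H := z.im) (w := (x : ℂ) + z.im * Complex.I)
      (by rw [xy_im]; exact h4) (by rw [xy_im])
    rw [xy_im] at k2
    rw [hH]
    exact k2
  have hPLb : ∀ x : ℝ, |x| ≤ ρ → ‖PL N (x + z.im * Complex.I)‖ ≤
      Real.exp (N * ((qz Φ (x + z.im * Complex.I)).re + z.im + κm / 4)) := by
    intro x hx
    obtain ⟨k1, k2⟩ := h1 _ (hin x hx)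
    have k3 := (abs_le.1 k2).2
    rw [hqre, xy_im] at k3
    rw [← Real.log_le_iff_le_exp (norm_pos_iff.2 k1)]
    linarith
  have hbf : ∀ x : ℝ, ρ ≤ |x| → |x| ≤ π → ‖f x‖ ≤ 8 * H * E := by
    intro x hx1 hx2
    rw [hf]
    show ‖PL N ((x : ℂ) + z.im * Complex.I) * kr N ((x : ℂ) + z.im * Complex.I)‖ ≤ _
    rw [norm_mul]
    refine (mul_le_mul (h2 x hx1 hx2) (hkr x) (norm_nonneg _) (Real.exp_pos _).le).trans ?_
    have : Real.exp (N * (V + z.im - κ)) * (8 * H * Real.exp (-(N * z.im))) =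
        8 * H * Real.exp (N * (V - κ)) := by
      have : Real.exp (N * (V - κ)) = Real.exp (N * (V + z.im - κ)) * Real.exp (-(N * z.im)) := by
        rw [← Real.exp_add]
        congr 1
        ring
      rw [this]
      ring
    rw [this]
    exact mul_le_mul_of_nonneg_left (hEle _ (by linarith)) (by positivity)
  have hbo : ∀ x : ℝ, |x| ≤ ρ → δ ≤ |x - z.re| → ‖f x‖ ≤ 8 * H * E := by
    intro x hx1 hx2
    rw [hf]
    show ‖PL N ((x : ℂ) + z.im * Complex.I) * kr N ((x : ℂ) + z.im * Complex.I)‖ ≤ _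
    rw [norm_mul]
    refine (mul_le_mul (hPLb x hx1) (hkr x) (norm_nonneg _) (Real.exp_pos _).le).trans ?_
    obtain ⟨G, hG⟩ : ∃ G : ℝ, G = (qz Φ (x + z.im * Complex.I)).re := ⟨_, rfl⟩
    have k1 := hout x hx1 hx2
    rw [← hG] at k1 ⊢
    have : Real.exp (N * (G + z.im + κm / 4)) * (8 * H * Real.exp (-(N * z.im))) =
        8 * H * Real.exp (N * (G + κm / 4)) := by
      have : Real.exp (N * (G + κm / 4)) =
          Real.exp (N * (G + z.im + κm / 4)) * Real.exp (-(N * z.im)) := by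
        rw [← Real.exp_add]
        congr 1
        ring
      rw [this]
      ring
    rw [this]
    exact mul_le_mul_of_nonneg_left (hEle _ (by linarith)) (by positivity)
  obtain ⟨g, hg⟩ : ∃ g : ℝ → ℂ, g = fun x : ℝ => (-1) ^ N * (2 * Complex.sin (z + x) *
    Complex.exp (Complex.I * N * (z + x)) * PL N (z + x)) := ⟨_, rfl⟩
  have hgc : Continuous g := by
    rw [hg]
    have c1 : Continuous fun x : ℝ => z + (x : ℂ) := by fun_prop
    have c2 : Continuous fun x : ℝ => PL N (z + x) := (hPL N).continuous.comp c1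
    exact continuous_const.mul (((continuous_const.mul (Complex.continuous_sin.comp c1)).mul
      (Complex.continuous_exp.comp (continuous_const.mul c1))).mul c2)
  have e3 : (∫ x in (z.re - δ)..(z.re + δ), f x) = ∫ x in (-δ)..δ, f (x + z.re) := by
    rw [intervalIntegral.integral_comp_add_right]
    congr 1 <;> ring
  have hbm : ∀ x : ℝ, |x| ≤ δ → ‖f (x + z.re) - g x‖ ≤ 20 * H * E := by
    intro x hx
    obtain ⟨w, hw⟩ : ∃ w : ℂ, w = z + x := ⟨_, rfl⟩
    have hw1 : ((x + z.re : ℝ) : ℂ) + z.im * Complex.I = w := by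
      rw [hw]
      nth_rewrite 3 [← hzz]
      push_cast
      ring
    have hx3 : |x + z.re| ≤ ρ := by
      have := abs_add_le x z.re
      linarith
    have hwim : w.im = z.im := by
      rw [hw]; simp
    have k1 : f (x + z.re) - g x = PL N w * (uu N w * (pp N w - 2 * Complex.sin w)) := by
      rw [hf, hg]
      show PL N (((x + z.re : ℝ) : ℂ) + z.im * Complex.I) *
        kr N (((x + z.re : ℝ) : ℂ) + z.im * Complex.I) - (-1) ^ N * (2 * Complex.sin (z + x) *
        Complex.exp (Complex.I * N * (z + x)) * PL N (z + x)) = _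
      rw [hw1, ← hw, kr_eq, uu_neg]
      ring
    have hun : ‖uu N w‖ = Real.exp (-(N * z.im)) := by rw [norm_uu, hwim]
    have hu2 : ‖uu N w‖ ≤ 1 / 2 := by
      rw [hun]
      have m1 : (1 : ℝ) ≤ N * z.im := by
        rw [div_le_iff₀ hN'] at h4
        linarith
      have m2 : Real.exp (-(N * z.im)) ≤ Real.exp (-1) := Real.exp_le_exp.2 (by linarith)
      have m3 : Real.exp (-1) ≤ 1 / 2 := by
        rw [Real.exp_neg, ← one_div]
        apply one_div_le_one_div_of_le (by norm_num)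
        have := Real.add_one_le_exp (1 : ℝ)
        linarith
      linarith
    have k2 := pp_sub (N := N) (w := w) (τ := z.im) (by rw [hwim]; exact hz0.le) (by rw [hwim]) hu2
    have k3 := hPLb (x + z.re) hx3
    rw [hw1] at k3
    have k4 : (qz Φ w).re ≤ V := by
      rw [← hw1]
      exact hall _ hx3
    rw [k1, norm_mul, norm_mul]
    have k5 : ‖uu N w‖ * ‖pp N w - 2 * Complex.sin w‖ ≤
        20 * H * (Real.exp (-(N * z.im)) * Real.exp (-(N * z.im))) := by
      rw [hun] at k2 ⊢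
      rw [hH]
      calc _ ≤ Real.exp (-(N * z.im)) * (20 * Real.exp z.im * Real.exp (-(N * z.im))) :=
            mul_le_mul_of_nonneg_left k2 (Real.exp_pos _).le
        _ = _ := by ring
    refine (mul_le_mul k3 k5 (by positivity) (Real.exp_pos _).le).trans ?_
    have k6 : Real.exp (N * ((qz Φ w).re + z.im + κm / 4)) *
        (20 * H * (Real.exp (-(N * z.im)) * Real.exp (-(N * z.im)))) =
        20 * H * Real.exp (N * ((qz Φ w).re - z.im + κm / 4)) := by
      have : Real.exp (N * ((qz Φ w).re - z.im + κm / 4)) =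
          Real.exp (N * ((qz Φ w).re + z.im + κm / 4)) *
            (Real.exp (-(N * z.im)) * Real.exp (-(N * z.im))) := by
        rw [← Real.exp_add, ← Real.exp_add]
        congr 1
        ring
      rw [this]
      ring
    rw [k6]
    exact mul_le_mul_of_nonneg_left (hEle _ (by linarith)) (by positivity)
  -- the parts
  have b1 : ‖∫ x in (-π)..(-ρ), f x‖ ≤ 8 * H * E * π := by
    refine (intervalIntegral.norm_integral_le_of_norm_le_const (C := 8 * H * E) (by
      intro x hx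
      rw [Set.uIoc_of_le (by linarith)] at hx
      have hx0 : x ≤ 0 := by linarith [hx.2]
      exact hbf x (by rw [abs_of_nonpos hx0]; linarith [hx.2])
        (by rw [abs_of_nonpos hx0]; linarith [hx.1]))).trans ?_
    apply mul_le_mul_of_nonneg_left _ (by positivity)
    rw [abs_of_nonneg (by linarith)]
    linarith
  have b2 : ‖∫ x in ρ..π, f x‖ ≤ 8 * H * E * π := by
    refine (intervalIntegral.norm_integral_le_of_norm_le_const (C := 8 * H * E) (by
      intro x hx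
      rw [Set.uIoc_of_le (by linarith)] at hx
      have hx0 : 0 ≤ x := by linarith [hx.1]
      exact hbf x (by rw [abs_of_nonneg hx0]; linarith [hx.1])
        (by rw [abs_of_nonneg hx0]; linarith [hx.2]))).trans ?_
    apply mul_le_mul_of_nonneg_left _ (by positivity)
    rw [abs_of_nonneg (by linarith)]
    linarith
  have b3 : ‖∫ x in (-ρ)..(z.re - δ), f x‖ ≤ 8 * H * E * (2 * ρ) := by
    refine (intervalIntegral.norm_integral_le_of_norm_le_const (C := 8 * H * E) (by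
      intro x hx
      rw [Set.uIoc_of_le (by linarith [hzre.1])] at hx
      refine hbo x (abs_le.2 ⟨hx.1.le, by linarith [hx.2, hzre.2]⟩) ?_
      rw [abs_of_nonpos (by linarith [hx.2])]
      linarith [hx.2])).trans ?_
    apply mul_le_mul_of_nonneg_left _ (by positivity)
    rw [abs_of_nonneg (by linarith [hzre.1])]
    linarith [hzre.2]
  have b4 : ‖∫ x in (z.re + δ)..ρ, f x‖ ≤ 8 * H * E * (2 * ρ) := by
    refine (intervalIntegral.norm_integral_le_of_norm_le_const (C := 8 * H * E) (by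
      intro x hx
      rw [Set.uIoc_of_le (by linarith [hzre.2])] at hx
      refine hbo x (abs_le.2 ⟨by linarith [hx.1, hzre.1], hx.2⟩) ?_
      rw [abs_of_nonneg (by linarith [hx.1])]
      linarith [hx.1])).trans ?_
    apply mul_le_mul_of_nonneg_left _ (by positivity)
    rw [abs_of_nonneg (by linarith [hzre.2])]
    linarith [hzre.1]
  have b5 : ‖(∫ x in (-δ)..δ, f (x + z.re)) - ∫ x in (-δ)..δ, g x‖ ≤ 20 * H * E * (2 * δ) := by
    have hfc2 : Continuous fun x : ℝ => f (x + z.re) := hfc.comp (by fun_prop)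
    rw [← intervalIntegral.integral_sub (hfc2.intervalIntegrable _ _)
      (hgc.intervalIntegrable _ _)]
    refine (intervalIntegral.norm_integral_le_of_norm_le_const (C := 20 * H * E) (by
      intro x hx
      rw [Set.uIoc_of_le (by linarith)] at hx
      exact hbm x (abs_le.2 ⟨hx.1.le, hx.2⟩))).trans ?_
    apply mul_le_mul_of_nonneg_left _ (by positivity)
    rw [abs_of_nonneg (by linarith)]
    linarith
  have e4 : (-1 : ℂ) ^ N * ∫ x in (-δ)..δ, 2 * Complex.sin (z + x) *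
      Complex.exp (Complex.I * N * (z + x)) * PL N (z + x) = ∫ x in (-δ)..δ, g x := by
    rw [hg, ← intervalIntegral.integral_const_mul]
  have b0 : ‖upp (1 / N) fun φ => (P N φ - PL N φ) * kr N φ‖ ≤ E :=
    h3.trans (hEle _ (by linarith))
  rw [e2, e3, e4]
  obtain ⟨T0, hT0⟩ : ∃ T : ℂ, T = upp (1 / N) fun φ => (P N φ - PL N φ) * kr N φ := ⟨_, rfl⟩
  obtain ⟨T1, hT1⟩ : ∃ T : ℂ, T = ∫ x in (-π)..(-ρ), f x := ⟨_, rfl⟩
  obtain ⟨T2, hT2⟩ : ∃ T : ℂ, T = ∫ x in (-ρ)..(z.re - δ), f x := ⟨_, rfl⟩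
  obtain ⟨T3, hT3⟩ : ∃ T : ℂ, T = ∫ x in (-δ)..δ, f (x + z.re) := ⟨_, rfl⟩
  obtain ⟨T4, hT4⟩ : ∃ T : ℂ, T = ∫ x in (z.re + δ)..ρ, f x := ⟨_, rfl⟩
  obtain ⟨T5, hT5⟩ : ∃ T : ℂ, T = ∫ x in ρ..π, f x := ⟨_, rfl⟩
  obtain ⟨T6, hT6⟩ : ∃ T : ℂ, T = ∫ x in (-δ)..δ, g x := ⟨_, rfl⟩
  rw [← hT0] at b0 ⊢
  rw [← hT1] at b1 ⊢
  rw [← hT2] at b3 ⊢
  rw [← hT3] at b5 ⊢
  rw [← hT4] at b4 ⊢
  rw [← hT5] at b2 ⊢
  rw [← hT6] at b5 ⊢
  have e5 : T0 + (T1 + T2 + T3 + T4 + T5) - T6 = T0 + T1 + T2 + (T3 - T6) + T4 + T5 := by ring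
  rw [e5]
  have k1 := norm_add_le (T0 + T1 + T2 + (T3 - T6) + T4) T5
  have k2 := norm_add_le (T0 + T1 + T2 + (T3 - T6)) T4
  have k3 := norm_add_le (T0 + T1 + T2) (T3 - T6)
  have k4 := norm_add_le (T0 + T1) T2
  have k5 := norm_add_le T0 T1
  have k6 : CC * E ≤ Real.exp (κm / 4 * N) * E := mul_le_mul_of_nonneg_right h6 hE0.le
  have k7 : Real.exp (κm / 4 * N) * E = Real.exp (N * (V - κm / 2)) := by
    rw [hE, ← Real.exp_add]
    congr 1
    ring
  rw [k7, hCC] at k6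
  have k8 : (1 + 16 * H * π + 32 * H * ρ + 40 * H * δ) * E = E + 8 * H * E * π + 8 * H * E * π +
      8 * H * E * (2 * ρ) + 8 * H * E * (2 * ρ) + 20 * H * E * (2 * δ) := by ring
  rw [k8] at k6
  linarith

end Pool.Agent.TH563.Z
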